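import Pool.Agent.Y216.SV.Lkd
import Pool.Agent.TH710.ND.LogK
import Pool.Agent.W602.GT.KPsefS
import Pool.Agent.TH143.GT.Sec

/-!
Affine lines in the complements of coordinate hyperplanes in the closed subvarieties of the power
value varieties.
-/

set_option autoImplicit false

open FF Pool.Agent.W603.LV Pool.Agent.W602.GT Pool.Agent.Y190.BV Pool.Agent.Y190.QP Polynomial

namespace Pool.Agent.Y216.SV

variable {k : Type} [Field k] {N n m w : ℕ} {K : Type} [Field K] [Algebra k K]

/-- The quasi-projective variety with generic point `y`, the complement of the hyperplanes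
`x_j = 0`, `j` in `U`, in a projective variety, is dominated by `Y × 𝔸¹` for a variety `Y` of
dimension `d` with function field `M`, by a morphism which is not constant on the affine lines: it is
given by polynomials `f 0, ..., f N` in one variable over `M`, without common zero and not all
constant, such that `f j` is a nonzero constant for `j` in `U`. -/
def AffineFamily (U : Set (Fin (N + 1))) (y : Fin (N + 1) → K) (d : ℕ) : Prop :=
  ∃ (M : Type) (_ : Field M) (_ : Algebra k M) (f : Fin (N + 1) → Polynomial M),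
    (∃ S : Set M, S.Finite ∧ IntermediateField.adjoin k S = ⊤) ∧ Algebra.trdeg k M = d ∧
    Ideal.span (Set.range f) = ⊤ ∧ (∃ i, 0 < (f i).natDegree) ∧
    (∀ j ∈ U, ∃ c : M, c ≠ 0 ∧ f j = Polynomial.C c) ∧
    ∀ G : MvPolynomial (Fin (N + 1)) k, IsForm G → (val y G = 0 ↔ MvPolynomial.aeval f G = 0)

theorem kodGe_mono {Bd : Place k K → Prop} {h h' : ℕ} (hk : KodGe k K w Bd h) (hle : h' ≤ h) :
    KodGe k K w Bd h' := by
  obtain ⟨N, hN, ω, h1, D, hD, h2⟩ := hk
  refine ⟨N, hN, fun j => ω (Fin.castLE (by omega) j), fun j => h1 _, D, hD, ?_⟩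
  exact h2.comp (Fin.castLE hle) (Fin.castLE_injective hle)

theorem kod_of_lgt {Bd : Place k K → Prop} (h : LogGeneralType k K w Bd) : KodGe k K w Bd w := by
  obtain ⟨-, M, hM, ω, h1, h2, h3, h4⟩ := h
  exact ⟨M, hM, ω, fun j => ⟨h1 j, fun P hP => h2 P hP j, fun P hP hb => h3 P hP hb j⟩, h4⟩

theorem lgt_of_kod {Bd : Place k K → Prop} (hw : Algebra.trdeg k K = w)
    (h : KodGe k K w Bd w) : LogGeneralType k K w Bd := by
  obtain ⟨M, hM, ω, h1, h4⟩ := h
  exact ⟨hw, M, hM, ω, fun j => (h1 j).1, fun P hP j => (h1 j).2.1 P hP,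
    fun P hP hb j => (h1 j).2.2 P hP hb, h4⟩

/-- **Affine lines** kill the sections. -/
theorem not_kod_of_affine [CharZero k] {U : Set (Fin (N + 1))} {y : Fin (N + 1) → K} {d : ℕ}
    (hy : y ≠ 0) (hyU : ∀ j ∈ U, y j ≠ 0) (hgen : coords k y = ⊤)
    (hdim : Algebra.trdeg k K = w) (hA : AffineFamily U (k := k) y d) :
    ¬ KodGe k K w (OffU U y) 0 := by
  classical
  obtain ⟨M, _, _, f, -, hd, hspan, ⟨i0, hi0⟩, hfU, hrel⟩ := hA
  have hchM : CharZero M := charZero_of_injective_algebraMap (algebraMap k M).injective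
  have hfin : Finite U := inferInstance
  have := Fintype.ofFinite U
  let Q : U → MvPolynomial (Fin (N + 1)) k := fun j => MvPolynomial.X (j : Fin (N + 1))
  have hdeg : ∀ j, (Q j).totalDegree = 1 := fun j => MvPolynomial.totalDegree_X _
  have hQh : ∀ j, (Q j).IsHomogeneous (Q j).totalDegree := by
    intro j
    rw [hdeg]
    exact MvPolynomial.isHomogeneous_X _ _
  have hQval : ∀ j, val y (Q j) = y j := by
    intro j
    unfold val
    exact MvPolynomial.aeval_X _ _
  have hQ0 : ∀ j, val y (Q j) ≠ 0 := by
    intro j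
    rw [hQval]
    exact hyU j j.2
  have hFam : Pool.Agent.TH143.GT.Fam y (∏ j, Q j) f 0 := by
    refine ⟨hrel, ?_⟩
    choose c hc0 hc using hfU
    refine ⟨∏ j : U, c j j.2, Finset.prod_ne_zero_iff.2 fun j _ => hc0 j j.2, ?_⟩
    rw [pow_zero, mul_one, map_prod, map_prod]
    refine Finset.prod_congr rfl fun j _ => ?_
    simp only [Q]
    rw [MvPolynomial.aeval_X, hc j j.2]
  have hprod : (∏ j, Q j).IsHomogeneous (∑ j, (Q j).totalDegree) :=
    MvPolynomial.IsHomogeneous.prod _ _ _ fun j _ => hQh j
  have hflat : ∃ r : K, ¬ Pool.Agent.TH143.GT.Flat k y f r := by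
    by_contra hcon
    push Not at hcon
    have hz : ∀ b, y b = 0 → f b = 0 := by
      intro b hb
      have h1 := (hrel (MvPolynomial.X b) ⟨1, MvPolynomial.isHomogeneous_X _ _⟩).1 (by
        unfold val
        rw [MvPolynomial.aeval_X, hb])
      rwa [MvPolynomial.aeval_X] at h1
    have key : ∀ a b : Fin (N + 1), derivative (f a) * f b = f a * derivative (f b) := by
      intro a b
      by_cases hb : y b = 0
      · rw [hz b hb, derivative_zero, mul_zero, mul_zero]
      · have h1 := hcon (y a / y b) 1 (MvPolynomial.X a) (MvPolynomial.X b)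
          (MvPolynomial.isHomogeneous_X _ _) (MvPolynomial.isHomogeneous_X _ _)
          (by unfold Pool.Agent.W602.GT.val; rwa [MvPolynomial.aeval_X])
          (by unfold Pool.Agent.W602.GT.val; rw [MvPolynomial.aeval_X, MvPolynomial.aeval_X])
        rwa [MvPolynomial.aeval_X, MvPolynomial.aeval_X] at h1
    have h1 : (1 : M[X]) ∈ Ideal.span (Set.range f) := by
      rw [hspan]
      trivial
    obtain ⟨c, hc⟩ := (Ideal.mem_span_range_iff_exists_fun).1 h1
    have h2 : derivative (f i0) = f i0 * ∑ b, c b * derivative (f b) := by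
      calc derivative (f i0) = derivative (f i0) * ∑ b, c b * f b := by rw [hc, mul_one]
        _ = ∑ b, c b * (derivative (f i0) * f b) := by
          rw [Finset.mul_sum]
          exact Finset.sum_congr rfl fun b _ => by ring
        _ = ∑ b, c b * (f i0 * derivative (f b)) :=
          Finset.sum_congr rfl fun b _ => by rw [key]
        _ = _ := by
          rw [Finset.mul_sum]
          exact Finset.sum_congr rfl fun b _ => by ring
    have hf0 : f i0 ≠ 0 := by
      intro h0
      rw [h0, natDegree_zero] at hi0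
      omega
    have h3 : derivative (f i0) ≠ 0 := by
      intro h0
      have := natDegree_eq_zero_of_derivative_eq_zero h0
      omega
    have h4 := natDegree_le_of_dvd (Dvd.intro _ h2.symm) h3
    have h5 := natDegree_derivative_lt (p := f i0) (by omega)
    omega
  rintro ⟨Nn, hNn, ω, hω, D, hD, -⟩
  apply hD
  exact (hFam.main hdim hd hy hgen hprod).2.2.2 rfl hflat Nn hNn (ω 0)
    ⟨(hω 0).1, (hω 0).2.1, fun P hP hb => (hω 0).2.2 P hP fun ho => by
      obtain ⟨j, hj, i, hi, hlt⟩ := ho
      refine hb (Pool.Agent.TH710.ND.off_of_any hQh hQ0 ⟨⟨j, hj⟩, i, hi, ?_⟩)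
      rw [hQval, hdeg, Nat.cast_one, one_mul]
      exact hlt⟩ D

/-- the pseudo-effective threshold -/
theorem not_psef_str [CharZero k] {U : Set (Fin (N + 1))} {j0 : Fin (N + 1)}
    (hU : ∀ j ∈ U, j = j0) {a : Fin (N + 1) → k}
    {y z : Fin (N + 1) → K} {t : K} (hyz : ∀ i, y i = (algebraMap k K (a i) - t) * z i)
    (hyU : ∀ j ∈ U, y j ≠ 0) (htr : Transcendental (coords k z) t)
    (htop : IntermediateField.adjoin (coords k z) {t} = ⊤) (hdim : Algebra.trdeg k K = w) :
    ¬ Psef k K w (OffU U y) := by
  classical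
  have hat : algebraMap k K (a j0) - t ≠ 0 := by
    intro h
    apply htr
    have h1 : t = algebraMap (coords k z) K (algebraMap k (coords k z) (a j0)) := by
      rw [← IsScalarTower.algebraMap_apply k (coords k z) K]
      exact (sub_eq_zero.1 h).symm
    rw [h1]
    exact isAlgebraic_algebraMap _
  set σ : K := (algebraMap k K (a j0) - t)⁻¹ with hσ
  have hσ0 : σ ≠ 0 := inv_ne_zero hat
  have hmem : t ∈ IntermediateField.adjoin (coords k z) {σ} := by
    have h3 : t = algebraMap k K (a j0) - σ⁻¹ := by rw [hσ, inv_inv]; ring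
    rw [h3]
    have hc := (IntermediateField.adjoin (coords k z) {σ}).algebraMap_mem
      (algebraMap k (coords k z) (a j0))
    rw [← IsScalarTower.algebraMap_apply k (coords k z) K] at hc
    exact sub_mem hc (inv_mem (IntermediateField.mem_adjoin_simple_self _ σ))
  obtain ⟨hσt, hσtop⟩ := gen_of_mem htr htop hmem
  have hb : IsTranscendenceBasis (coords k z) (fun _ : Unit => σ) := by
    have h1 : AlgebraicIndependent (coords k z) (fun _ : Unit => σ) :=
      (algebraicIndependent_unique_type_iff).2 hσt
    rw [h1.isTranscendenceBasis_iff_isAlgebraic]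
    apply alg_adjoin
    have h2 : Set.range (fun _ : Unit => σ) = {σ} := by simp
    rw [h2, hσtop]
    infer_instance
  have hch : CharZero (coords k z) :=
    charZero_of_injective_algebraMap (algebraMap k (coords k z)).injective
  obtain ⟨D, hD⟩ := Pool.Agent.W602.GT.exists_der (L := coords k z) (fun _ : Unit => σ) hb
    (fun _ => σ)
  have hDC : ∀ c ∈ coords k z, D c = 0 := fun c hc => D.map_algebraMap ⟨c, hc⟩
  refine not_psef hdim (D.restrictScalars k) hσ0 (hD ()) ?_ ?_
  · exact adjoin_mono_top (C := coords k z) (fun c hc => hDC c hc) hσtop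
  · intro P hP hPσ
    refine not_off hyz hyU (fun c hc hc0 => hP c (hDC c hc) hc0) fun l hl => ?_
    rw [hU l hl]
    rw [hσ, P.ord_inv] at hPσ
    omega

/-- the affine lines -/
theorem affine_of_str [CharZero k] {U : Set (Fin (N + 1))} {j0 : Fin (N + 1)}
    (hU : ∀ j ∈ U, j = j0) {a : Fin (N + 1) → k} (ha : Function.Injective a)
    {y z : Fin (N + 1) → K} {t : K} (hyz : ∀ i, y i = (algebraMap k K (a i) - t) * z i)
    (hj0 : z j0 ≠ 0) (hij : ∃ i j, i ≠ j ∧ z i ≠ 0 ∧ z j ≠ 0)
    (htr : Transcendental (coords k z) t)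
    (htop : IntermediateField.adjoin (coords k z) {t} = ⊤) {d : ℕ}
    (hdim : Algebra.trdeg k (coords k z) = d) : AffineFamily U (k := k) y d := by
  classical
  obtain ⟨u, hu, hu0, hgen, -⟩ := coords_fg (k := k) hj0
  have hat : algebraMap k K (a j0) - t ≠ 0 := by
    intro h
    apply htr
    have h1 : t = algebraMap (coords k z) K (algebraMap k (coords k z) (a j0)) := by
      rw [← IsScalarTower.algebraMap_apply k (coords k z) K]
      exact (sub_eq_zero.1 h).symm
    rw [h1]
    exact isAlgebraic_algebraMap _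
  set σ : K := (algebraMap k K (a j0) - t)⁻¹ with hσ
  have hmem : t ∈ IntermediateField.adjoin (coords k z) {σ} := by
    have h3 : t = algebraMap k K (a j0) - σ⁻¹ := by rw [hσ, inv_inv]; ring
    rw [h3]
    have hc := (IntermediateField.adjoin (coords k z) {σ}).algebraMap_mem
      (algebraMap k (coords k z) (a j0))
    rw [← IsScalarTower.algebraMap_apply k (coords k z) K] at hc
    exact sub_mem hc (inv_mem (IntermediateField.mem_adjoin_simple_self _ σ))
  obtain ⟨hσt, -⟩ := gen_of_mem htr htop hmem
  let f : Fin (N + 1) → Polynomial (coords k z) := fun i =>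
    C (u i) * (C (algebraMap k (coords k z) (a i - a j0)) * X + 1)
  have hfj : f j0 = 1 := by
    simp only [f, hu0, sub_self, map_zero, zero_mul, zero_add, mul_one, map_one]
  refine ⟨coords k z, inferInstance, inferInstance, f, ⟨Set.range u, Set.finite_range u, hgen⟩,
    hdim, ?_, ?_, ?_, ?_⟩
  · rw [Ideal.eq_top_iff_one]
    exact Ideal.subset_span ⟨j0, hfj⟩
  · obtain ⟨i, hi, hzi⟩ : ∃ i, i ≠ j0 ∧ z i ≠ 0 := by
      obtain ⟨i, j, hij, hi, hj⟩ := hij
      by_cases h : i = j0
      · exact ⟨j, fun h' => hij (h.trans h'.symm), hj⟩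
      · exact ⟨i, h, hi⟩
    refine ⟨i, ?_⟩
    have hui : u i ≠ 0 := by
      intro h0
      apply hzi
      rw [hu, h0]
      simp
    have h1 : (f i).coeff 1 ≠ 0 := by
      have h2 : (f i).coeff 1 = u i * algebraMap k (coords k z) (a i - a j0) := by
        simp only [f, coeff_C_mul, coeff_add, coeff_X_one, coeff_one]
        simp
      rw [h2]
      refine mul_ne_zero hui ?_
      rw [Ne, map_eq_zero, sub_eq_zero]
      exact fun h => hi (ha h)
    have h2 := le_natDegree_of_ne_zero h1
    omega
  · intro j hj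
    refine ⟨1, one_ne_zero, ?_⟩
    rw [hU j hj, hfj, C_1]
  · rintro G ⟨e, he⟩
    have h1 : (fun i => (aeval σ (f i) : K)) = fun i =>
        (u i : K) * (algebraMap k K (a i - a j0) * σ + 1) := by
      funext i
      simp only [f, map_mul, map_add, aeval_C, aeval_X, map_one]
      rw [← IsScalarTower.algebraMap_apply k (coords k z) K]
      rfl
    have h2 : y = fun i => (z j0 * (algebraMap k K (a j0) - t)) *
        ((u i : K) * (algebraMap k K (a i - a j0) * σ + 1)) := by
      funext i
      rw [hyz i, hu i, hσ, map_sub]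
      field_simp
      ring
    have h3 : val y G = (z j0 * (algebraMap k K (a j0) - t)) ^ e *
        aeval σ (MvPolynomial.aeval f G : Polynomial (coords k z)) := by
      have h4 : aeval σ (MvPolynomial.aeval f G : Polynomial (coords k z)) =
          val (fun i => (aeval σ (f i) : K)) G := by
        have h5 : ((aeval σ : (coords k z)[X] →ₐ[coords k z] K).restrictScalars k).comp
            (MvPolynomial.aeval f) = MvPolynomial.aeval (fun i => (aeval σ (f i) : K)) := by
          apply MvPolynomial.algHom_ext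
          intro i
          simp only [AlgHom.comp_apply, MvPolynomial.aeval_X]
          rfl
        unfold val
        rw [← h5]
        rfl
      rw [h4, h1, ← val_smul he]
      exact congrArg (fun y => val y G) h2
    rw [h3, mul_eq_zero, or_iff_right (pow_ne_zero _ (mul_ne_zero hj0 hat))]
    constructor
    · intro h4
      by_contra hne
      exact hσt ⟨_, hne, h4⟩
    · intro h4
      rw [h4, map_zero]

end Pool.Agent.Y216.SV
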