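import Pool.Agent.Y216.SV.Afl

/-!
The logarithmic Kodaira dimension of the complements of coordinate hyperplanes in the closed
subvarieties of the power value varieties: the theorem.
-/

set_option autoImplicit false

open FF Pool.Agent.W603.LV Pool.Agent.W602.GT Pool.Agent.Y190.BV Pool.Agent.Y190.QP Polynomial

namespace Pool.Agent.Y216.SV

variable {k : Type} [Field k] {N n m w : ℕ} {K : Type} [Field K] [Algebra k K]

variable [IsAlgClosed k] [CharZero k]

/-- one boundary hyperplane -/
theorem one_hyp {U : Set (Fin (N + 1))} (hU : U.ncard ≤ 1) {a : Fin (N + 1) → k}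
    {y z : Fin (N + 1) → K} {t : K} (hyz : ∀ i, y i = (algebraMap k K (a i) - t) * z i)
    (hyU : ∀ j ∈ U, y j ≠ 0) (hij : ∃ i j, i ≠ j ∧ z i ≠ 0 ∧ z j ≠ 0) :
    ∃ j0, (∀ j ∈ U, j = j0) ∧ z j0 ≠ 0 := by
  rcases U.eq_empty_or_nonempty with rfl | ⟨j0, hj0⟩
  · obtain ⟨i, -, -, hi, -⟩ := hij
    exact ⟨i, fun j hj => absurd hj (Set.notMem_empty j), hi⟩
  · refine ⟨j0, fun j hj => ?_, ?_⟩
    · exact (Set.ncard_le_one_iff (Set.toFinite U)).1 hU hj hj0
    · intro h0
      apply hyU j0 hj0
      rw [hyz, h0, mul_zero]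

/-- **Affine lines and the log Kodaira dimension.** -/
theorem affine_tfae (hm : 2 ≤ m) (hn : n ≤ N) (hN : 4 * n + (n + 1) ^ 2 < 2 * (N + 1))
    {a : Fin (N + 1) → k} (ha : Function.Injective a) {y : Fin (N + 1) → K}
    (hy : SubVar (buchi a n m) K w y)
    (hs : Pool.Agent.Y190.SN.Simple m (intp a hn (fun i => y i ^ m)))
    {U : Set (Fin (N + 1))} (hyU : ∀ j ∈ U, y j ≠ 0) :
    [¬ KodGe k K w (OffU U y) 0, ¬ Psef k K w (OffU U y), AffineFamily U (k := k) y (w - 1),
      ∃ d, AffineFamily U (k := k) y d, U.ncard ≤ 1 ∧ ¬ GeneralType k K w].TFAE ∧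
    (U.ncard = 2 → ¬ GeneralType k K w →
      KodGe k K w (OffU U y) (w - 1) ∧ ¬ KodGe k K w (OffU U y) w) ∧
    (3 ≤ U.ncard ∨ GeneralType k K w → KodGe k K w (OffU U y) w) := by
  classical
  have hn4 := four_lt hN
  have h2 : U.ncard = 2 → ¬ GeneralType k K w →
      KodGe k K w (OffU U y) (w - 1) ∧ ¬ KodGe k K w (OffU U y) w := by
    intro hU hgt
    obtain ⟨hmn, w', t, z, rfl, hyz, hz, hij, htr, htop, hM, S, hS, hSt⟩ :=
      core_simple hm hn hN ha hy hs hgt
    obtain ⟨j1, j2, h12, hU2⟩ := Set.ncard_eq_two.1 hU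
    have hj1 : j1 ∈ U := by rw [hU2]; exact Set.mem_insert _ _
    have hj2 : j2 ∈ U := by rw [hU2]; exact Set.mem_insert_of_mem _ rfl
    have hat : ∀ i, algebraMap k K (a i) - t ≠ 0 := by
      intro i h
      apply htr
      have h1 : t = algebraMap (coords k z) K (algebraMap k (coords k z) (a i)) := by
        rw [← IsScalarTower.algebraMap_apply k (coords k z) K]
        exact (sub_eq_zero.1 h).symm
      rw [h1]
      exact isAlgebraic_algebraMap _
    refine ⟨?_, ?_⟩
    · rw [Nat.add_sub_cancel]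
      set σ : K := (algebraMap k K (a j1) - t) / (algebraMap k K (a j2) - t) with hσ
      have hne : algebraMap k K (a j2 - a j1) ≠ 0 := by
        rw [Ne, map_eq_zero, sub_eq_zero]
        exact fun h => h12 (ha h).symm
      have hσ1 : 1 - σ ≠ 0 := by
        intro h0
        apply hne
        have h3 : (1 - σ) * (algebraMap k K (a j2) - t) = algebraMap k K (a j2 - a j1) := by
          rw [hσ, sub_mul, div_mul_cancel₀ _ (hat j2), map_sub]
          ring
        rw [← h3, h0, zero_mul]
      have hc : ∀ (σ : K) (c : k), algebraMap k K c ∈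
          IntermediateField.adjoin (coords k z) {σ} := by
        intro σ c
        have := (IntermediateField.adjoin (coords k z) {σ}).algebraMap_mem
          (algebraMap k (coords k z) c)
        rwa [← IsScalarTower.algebraMap_apply k (coords k z) K] at this
      have hmem : t ∈ IntermediateField.adjoin (coords k z) {σ} := by
        have h3 : t = algebraMap k K (a j2) - algebraMap k K (a j2 - a j1) / (1 - σ) := by
          have h4 : (1 - σ) * (algebraMap k K (a j2) - t) = algebraMap k K (a j2 - a j1) := by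
            rw [hσ, sub_mul, div_mul_cancel₀ _ (hat j2), map_sub]
            ring
          rw [← h4, mul_div_cancel_left₀ _ hσ1]
          ring
        rw [h3]
        exact sub_mem (hc _ _) (div_mem (hc _ _) (sub_mem (one_mem _)
          (IntermediateField.mem_adjoin_simple_self _ σ)))
      obtain ⟨hσt, -⟩ := gen_of_mem htr htop hmem
      refine kod_gm (coords k z) hy.dim hS hSt hσt hM fun P hP => ?_
      have hle : ∀ j ∈ U, P.ord (algebraMap k K (a j) - t) ≤ 0 := by
        intro j hj
        by_contra hcon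
        push Not at hcon
        exact hP (off_of_pos (by omega) (by omega) ha hyz hz hyU hat hj hcon)
      have e1 := hle j1 hj1
      have e2 := hle j2 hj2
      have e3 : algebraMap k K (a j2) - t - (algebraMap k K (a j1) - t) =
          algebraMap k K (a j2 - a j1) := by
        rw [map_sub]; ring
      have e4 : P.ord (algebraMap k K (a j1) - t) = P.ord (algebraMap k K (a j2) - t) := by
        have h6 : Ge P (P.ord (algebraMap k K (a j1) - t)) (algebraMap k K (a j1) - t) :=
          Or.inr le_rfl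
        have h7 : Ge P (P.ord (algebraMap k K (a j2) - t)) (algebraMap k K (a j2) - t) :=
          Or.inr le_rfl
        have h8 : Ge P (P.ord (algebraMap k K (a j1) - t)) (algebraMap k K (a j2 - a j1)) :=
          (Ge.const _).mono e1
        have h9 : Ge P (P.ord (algebraMap k K (a j2) - t)) (algebraMap k K (a j2 - a j1)) :=
          (Ge.const _).mono e2
        have h10 := h6.add h8
        rw [← e3, add_sub_cancel] at h10
        have h11 := h7.sub h9
        rw [← e3, sub_sub_cancel] at h11
        have h12' := h10.resolve_left (hat j2)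
        have h13 := h11.resolve_left (hat j1)
        omega
      rw [hσ, div_eq_mul_inv, P.ord_mul (hat j1) (inv_ne_zero (hat j2)), P.ord_inv]
      omega
    · intro hk
      refine not_lgt_str (j1 := j1) (j2 := j2) (fun j hj => ?_) ha hyz hyU htr htop _
        (lgt_of_kod hy.dim hk)
      rw [hU2] at hj
      simpa using hj
  have h3 : 3 ≤ U.ncard ∨ GeneralType k K w → KodGe k K w (OffU U y) w := by
    rintro (h | h)
    · obtain ⟨jj, hjj, hjU⟩ := (three_iff U).1 h
      exact kod_of_lgt (Pool.Agent.Y190.SN.lgt_threeS hm hn hN ha hy hs hyU hjj hjU)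
    · exact kod_of_lgt (lgt_of_gt h)
  refine ⟨?_, h2, h3⟩
  tfae_have 1 → 5 := by
    intro h
    by_contra hcon
    apply h
    by_cases hgt : GeneralType k K w
    · exact kodGe_mono (h3 (Or.inr hgt)) (Nat.zero_le _)
    · have hU : 2 ≤ U.ncard := by
        by_contra hlt
        exact hcon ⟨by omega, hgt⟩
      rcases Nat.lt_or_ge 2 U.ncard with h4 | h4
      · exact kodGe_mono (h3 (Or.inl h4)) (Nat.zero_le _)
      · exact kodGe_mono (h2 (by omega) hgt).1 (Nat.zero_le _)
  tfae_have 5 → 2 := by
    rintro ⟨hU, hgt⟩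
    obtain ⟨hmn, w', t, z, rfl, hyz, hz, hij, htr, htop, hM, -⟩ :=
      core_simple hm hn hN ha hy hs hgt
    obtain ⟨j0, hj0, hz0⟩ := one_hyp hU hyz hyU hij
    exact not_psef_str hj0 hyz hyU htr htop hy.dim
  tfae_have 2 → 1 := fun h h' => h (psef_of_kodGe h')
  tfae_have 5 → 3 := by
    rintro ⟨hU, hgt⟩
    obtain ⟨hmn, w', t, z, rfl, hyz, hz, hij, htr, htop, hM, -⟩ :=
      core_simple hm hn hN ha hy hs hgt
    obtain ⟨j0, hj0, hz0⟩ := one_hyp hU hyz hyU hij
    rw [Nat.add_sub_cancel]
    exact affine_of_str hj0 ha hyz hz0 hij htr htop hM.1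
  tfae_have 3 → 4 := fun h => ⟨_, h⟩
  tfae_have 4 → 1 := fun ⟨_, h⟩ => not_kod_of_affine hy.ne hyU hy.gen hy.dim h
  tfae_finish

end Pool.Agent.Y216.SV
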