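import Pool.Agent.W762.PG.PRES
import Pool.Agent.W308.PG.YLOC
import Pool.Agent.W240.PG.Frame
import Pool.Agent.W419.PG.DIVR
import Pool.Agent.W602.GT.SDich
import Pool.Agent.TH710.SP.Core
import Pool.Agent.Y190.QP.StrU
import Pool.Agent.Y190.BV.Trn

/-!
Bogomolov sheaves from varieties of general type which are dominated by the variety.
-/

set_option autoImplicit false

open FF Pool.Agent.W603.LV Pool.Agent.W602.GT

namespace Pool.Agent.Y216.SV

theorem yloc : Pool.Agent.W619.Y.S_YLOC.{0, 0} :=
  Pool.Agent.W308.PG.YLOC.main (Pool.Agent.W240.PG.Frame.main Pool.Agent.W762.PG.main)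
    Pool.Agent.W419.PG.main

variable {k K : Type} [Field k] [Field K] [Algebra k K]

/-- a finitely generated field is finite over the field generated by a transcendence basis -/
theorem fd_of_fg {M : Type} [Field M] [Algebra k M] {S : Set M} (hS : S.Finite)
    (htop : IntermediateField.adjoin k S = ⊤) {d : ℕ} {y : Fin d → M}
    (hy : IsTranscendenceBasis k y) :
    FiniteDimensional (IntermediateField.adjoin k (Set.range y)) M := by
  have halg : Algebra.IsAlgebraic (IntermediateField.adjoin k (Set.range y)) M :=
    hy.isAlgebraic_field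
  have hfin : Finite S := hS.to_subtype
  have h1 : FiniteDimensional (IntermediateField.adjoin k (Set.range y))
      (IntermediateField.adjoin (IntermediateField.adjoin k (Set.range y)) S) :=
    IntermediateField.finiteDimensional_adjoin fun x _ => (halg.isAlgebraic x).isIntegral
  have h2 : IntermediateField.adjoin (IntermediateField.adjoin k (Set.range y)) S = ⊤ := by
    have h3 : (IntermediateField.adjoin k S : IntermediateField k M) ≤
        (IntermediateField.adjoin (IntermediateField.adjoin k (Set.range y)) S).restrictScalars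
          k := by
      rw [IntermediateField.adjoin_le_iff]
      exact IntermediateField.subset_adjoin _ _
    rw [eq_top_iff]
    intro x _
    apply h3
    rw [htop]
    exact IntermediateField.mem_top
  rw [h2] at h1
  exact LinearEquiv.finiteDimensional
    (IntermediateField.topEquiv (F := IntermediateField.adjoin k (Set.range y))
      (E := M)).toLinearEquiv

/-- **Bogomolov sheaves from quotients of general type.** -/
theorem bog_of_sub [CharZero k] (M : IntermediateField k K) {w' w : ℕ}
    (hw : Algebra.trdeg k K = w) {S : Set M} (hS : S.Finite)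
    (htop : IntermediateField.adjoin k S = ⊤) (h : GeneralType k M w')
    (Bd : Place k K → Prop) : BogSheaf k K w Bd w' := by
  classical
  obtain ⟨htr, N, hN, ω, hω, hreg, D, hD, hind⟩ := h
  obtain ⟨x, hx, -⟩ := Pool.Agent.Y190.BV.exists_basis_in htr (Set.univ : Set M) ⟨fun z => by
    have : (z : M) ∈ Algebra.adjoin k (Set.univ : Set M) :=
      Algebra.subset_adjoin (Set.mem_univ z)
    exact isAlgebraic_algebraMap (⟨z, this⟩ : Algebra.adjoin k (Set.univ : Set M))⟩
  have hE : ∀ i : Fin w', ∃ E : Derivation k M M, ∀ j, E (x j) = if i = j then 1 else 0 :=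
    fun i => exists_der x hx fun j => if i = j then 1 else 0
  choose E hE using hE
  -- the forms on `D` and on `E`
  have hDE : ∀ j, ω j D = (Matrix.of fun i l => D i (x l)).det ^ N * ω j E := by
    intro j
    have h1 := hω j (Matrix.of fun i l => D i (x l)) E
    have h2 : (fun i => ∑ l, (Matrix.of fun i l => D i (x l)) i l • E l) = D := by
      funext i
      exact (Pool.Agent.W308.PG.YLOC.expandK x E hx hE (D i)).symm
    rw [h2] at h1
    exact h1
  set δ : M := (Matrix.of fun i l => D i (x l)).det ^ N with hδ
  have hδ0 : δ ≠ 0 := by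
    intro h0
    apply hD
    rw [hDE, h0, zero_mul]
  have hE0 : ω 0 E ≠ 0 := by
    intro h0
    apply hD
    rw [hDE, h0, mul_zero]
  have hratio : ∀ i : Fin w', ω i.succ E / ω 0 E = ω i.succ D / ω 0 D := by
    intro i
    rw [hDE, hDE, mul_div_mul_left _ _ hδ0]
  have hxK : AlgebraicIndependent k (fun l => (x l : K)) :=
    hx.1.map' (f := M.val) M.val.toRingHom.injective
  obtain ⟨D1, hD1⟩ := Pool.Agent.TH710.SP.dform_ne hw hxK
  have hkey : ∀ P : Place k K, Divisorial w P → ∀ D : Fin w' → Derivation k K K,
      (∀ i, DerReg P (D i)) → ∀ j,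
      P.Reg ((ω j E : K) * dform (fun l => (x l : K)) D ^ N) := by
    intro P hP D hDr j
    obtain ⟨Z, z, hz, hexp, hge⟩ := yloc k K M w' w N htr hw
      (fun y hy => fd_of_fg hS htop hy) (ω j) (hω j) (fun u hu => hreg u hu j) x E hx hE P hP
    have h1 : dform (fun l => (x l : K)) D =
        (Matrix.of fun i c => D i (z c)).det * Z.det := by
      rw [dform_apply, ← Matrix.det_transpose Z, ← Matrix.det_mul]
      congr 1
      ext i l
      rw [Matrix.of_apply, Matrix.mul_apply, hexp]
      refine Finset.sum_congr rfl fun c _ => ?_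
      rw [Matrix.of_apply, Matrix.transpose_apply, mul_comm]
    have h2 : Ge P 0 ((Matrix.of fun i c => D i (z c)).det) :=
      Pool.Agent.W619.PQ.ge_det P _ fun i c => hDr i _ (hz c)
    have h3 : (ω j E : K) * dform (fun l => (x l : K)) D ^ N =
        ((ω j E : K) * Z.det ^ N) * (Matrix.of fun i c => D i (z c)).det ^ N := by
      rw [h1, mul_pow]
      ring
    rw [h3]
    have h4 := hge.mul (h2.pow N)
    simp only [mul_zero, add_zero] at h4
    exact h4
  refine ⟨dform (fun l => (x l : K)), ?_, N, hN, fun j => (ω j E : K), ?_, ?_, ?_, ?_⟩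
  · intro h0
    rw [h0] at hD1
    simp at hD1
  · intro P hP D hDl j
    exact hkey P hP D (fun i => Pool.Agent.Y190.QP.derReg_of_log (hDl i)) j
  · intro P hP _ D hDr j
    exact hkey P hP D hDr j
  · intro h0
    exact hE0 (Subtype.ext h0)
  · have h1 : (fun i : Fin w' => ((ω i.succ E : M) : K) / ((ω 0 E : M) : K)) =
        fun i => M.val (ω i.succ D / ω 0 D) := by
      funext i
      rw [← hratio]
      rfl
    rw [h1]
    exact hind.map' (f := M.val) M.val.toRingHom.injective

end Pool.Agent.Y216.SV
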