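import Pool.Agent.Y216.SV.Geo
import Pool.Agent.Y190.QP.PicU

/-!
Closed subvarieties of the power value varieties with a Zariski-dense entire curve are points or
lines.
-/

set_option autoImplicit false

open Filter Topology Set Metric

namespace Pool.Agent.Y216.SV

open FF Pool.Agent.W603.LV Pool.Agent.W603.BP Pool.Agent.W601.PH Pool.Agent.Y190.BV
  Pool.Agent.W602.GT Pool.Agent.Y190.AN Pool.Agent.Y190.QP Pool.Agent.H159R3.GGLLog
  Pool.Agent.H159R3.NV

variable {r0 : ℝ} {hr0 : 0 < r0}

/-- the period of the exponential function -/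
noncomputable def TT : ℂ := 2 * Real.pi * Complex.I

variable (r0 hr0) in
/-- The classes of the functions with the period of the exponential function. -/
noncomputable def Per : IntermediateField ℂ (MK (exD r0 hr0)) where
  carrier := {x | ∃ f, ∃ hf : MeromorphicOn f (exD r0 hr0).U, cl f hf = x ∧ ∀ z, f (z + TT) = f z}
  mul_mem' := by
    rintro _ _ ⟨f, hf, rfl, h⟩ ⟨g, hg, rfl, h'⟩
    exact ⟨_, hf.mul hg, cl_mul hf hg, fun z => by rw [Pi.mul_apply, Pi.mul_apply, h, h']⟩
  add_mem' := by
    rintro _ _ ⟨f, hf, rfl, h⟩ ⟨g, hg, rfl, h'⟩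
    exact ⟨_, hf.add hg, cl_add hf hg, fun z => by rw [Pi.add_apply, Pi.add_apply, h, h']⟩
  algebraMap_mem' := fun c => ⟨_, MeromorphicOn.const c, cl_const c, fun _ => rfl⟩
  inv_mem' := by
    rintro _ ⟨f, hf, rfl, h⟩
    exact ⟨_, hf.inv, (cl_inv hf).symm, fun z => by rw [Pi.inv_apply, Pi.inv_apply, h]⟩

/-- A periodic function which is meromorphic at infinity is constant. -/
theorem const_of_per {x : MK (exD r0 hr0)} (h1 : x ∈ Per r0 hr0) (h2 : x ∈ Minf r0 hr0) :
    ∃ c : ℂ, x = algebraMap ℂ (MK (exD r0 hr0)) c := by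
  obtain ⟨h, hh, rfl, hper⟩ := h1
  obtain ⟨g, hg, hgx, hgi⟩ := h2
  have hgh : ∀ z ∈ Ext r0, ∀ᶠ w in 𝓝[≠] z, g w = h w := cl_eq.1 hgx
  have hperk : ∀ (k : ℕ) (z : ℂ), h (z + k * TT) = h z := by
    intro k
    induction k with
    | zero => intro z; simp
    | succ k ih =>
      intro z
      have e : z + ((k + 1 : ℕ) : ℂ) * TT = (z + k * TT) + TT := by push_cast; ring
      rw [e, hper, ih]
  -- analytic near infinity
  have han := hgi.eventually_analyticAt
  rw [eventually_nhdsWithin_iff, Metric.eventually_nhds_iff] at han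
  obtain ⟨δ, hδ, han⟩ := han
  have hga : ∀ z : ℂ, δ⁻¹ < ‖z‖ → AnalyticAt ℂ g z := by
    intro z hz
    have hz0 : z ≠ 0 := by
      rintro rfl
      rw [norm_zero] at hz
      exact absurd hz (not_lt.2 (inv_pos.2 hδ).le)
    have h3 : AnalyticAt ℂ (fun w => g w⁻¹) z⁻¹ := by
      apply han
      · rw [dist_zero_right, norm_inv]
        exact inv_lt_of_inv_lt₀ hδ hz
      · exact inv_ne_zero hz0
    have h4 : AnalyticAt ℂ (fun v : ℂ => (fun w => g w⁻¹) v⁻¹) z :=
      AnalyticAt.comp (g := fun w => g w⁻¹) (f := fun v : ℂ => v⁻¹) h3 (analyticAt_inv hz0)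
    simpa using h4
  set R : ℝ := max δ⁻¹ r0 + 1 with hR
  have hR1 : δ⁻¹ < R := lt_of_le_of_lt (le_max_left _ _) (by linarith)
  have hR2 : r0 < R := lt_of_le_of_lt (le_max_right _ _) (by linarith)
  have hR0 : 0 < R := hr0.trans hR2
  set zz : ℕ → ℂ := fun k => (R : ℂ) * Complex.I + k * TT with hzz
  have hnorm : ∀ k, ‖zz k‖ = R + 2 * Real.pi * k := by
    intro k
    have e : zz k = ((R + 2 * Real.pi * k : ℝ) : ℂ) * Complex.I := by
      simp only [hzz, TT]
      push_cast
      ring
    rw [e, norm_mul, Complex.norm_I, mul_one, Complex.norm_real, Real.norm_eq_abs, abs_of_pos]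
    positivity
  have hnR : ∀ k, R ≤ ‖zz k‖ := by
    intro k
    rw [hnorm]
    have : 0 ≤ 2 * Real.pi * (k : ℝ) := by positivity
    linarith
  have hval : ∀ k, g (zz k) = g (zz 0) := by
    intro k
    have h3 : ∀ᶠ w in 𝓝[≠] (zz 0), g (w + k * TT) = h (w + k * TT) := by
      have h4 := hgh (zz k) (lt_of_lt_of_le hR2 (hnR k))
      have h5 : Tendsto (fun w : ℂ => w + k * TT) (𝓝[≠] (zz 0)) (𝓝[≠] (zz k)) := by
        refine tendsto_nhdsWithin_iff.2 ⟨?_, ?_⟩
        · have h6 : Tendsto (fun w : ℂ => w + k * TT) (𝓝 (zz 0)) (𝓝 (zz 0 + k * TT)) :=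
            (continuous_id.add continuous_const).tendsto _
          have e : zz 0 + k * TT = zz k := by simp [hzz]
          rw [e] at h6
          exact h6.mono_left nhdsWithin_le_nhds
        · filter_upwards [self_mem_nhdsWithin] with w hw
          intro h0
          apply hw
          have e : zz k = zz 0 + k * TT := by simp [hzz]
          rw [Set.mem_singleton_iff, e] at h0
          exact add_right_cancel h0
      exact h5.eventually h4
    have h4 := hgh (zz 0) (lt_of_lt_of_le hR2 (hnR 0))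
    have h5 : ∀ᶠ w in 𝓝[≠] (zz 0), g (w + k * TT) - g w = 0 := by
      filter_upwards [h3, h4] with w h6 h7
      rw [h6, h7, hperk, sub_self]
    have h6 : AnalyticAt ℂ (fun w => g (w + k * TT) - g w) (zz 0) := by
      have h7 : AnalyticAt ℂ (fun w => g (w + k * TT)) (zz 0) := by
        have e : zz 0 + k * TT = zz k := by simp [hzz]
        refine AnalyticAt.comp (g := g) (f := fun w : ℂ => w + k * TT) ?_
          (analyticAt_id.add analyticAt_const)
        rw [e]
        exact hga _ (lt_of_lt_of_le hR1 (hnR k))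
      exact h7.fun_sub (hga _ (lt_of_lt_of_le hR1 (hnR 0)))
    have h7 := (h6.frequently_zero_iff_eventually_zero.1 h5.frequently).self_of_nhds
    have e : zz 0 + k * TT = zz k := by simp [hzz]
    rw [e] at h7
    exact sub_eq_zero.1 h7
  set c : ℂ := g (zz 0) with hc
  refine ⟨c, ?_⟩
  -- constant near infinity
  have hmer : MeromorphicAt (fun w => g w⁻¹ - c) 0 := hgi.fun_sub (MeromorphicAt.const c 0)
  have hzero : ∀ᶠ w in 𝓝[≠] (0 : ℂ), g w⁻¹ - c = 0 := by
    rcases hmer.eventually_eq_zero_or_eventually_ne_zero with h3 | h3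
    · exact h3
    · exfalso
      have h4 : Tendsto (fun k : ℕ => (zz k)⁻¹) atTop (𝓝[≠] 0) := by
        refine tendsto_nhdsWithin_iff.2 ⟨?_, Eventually.of_forall fun k => ?_⟩
        · rw [tendsto_zero_iff_norm_tendsto_zero]
          have h5 : Tendsto (fun k : ℕ => R + 2 * Real.pi * (k : ℝ)) atTop atTop := by
            apply tendsto_atTop_add_const_left
            exact Tendsto.const_mul_atTop (by positivity) tendsto_natCast_atTop_atTop
          have h6 := h5.inv_tendsto_atTop
          refine h6.congr fun k => ?_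
          rw [Pi.inv_apply, norm_inv, hnorm]
        · apply inv_ne_zero
          intro h0
          have := hnR k
          rw [h0, norm_zero] at this
          linarith
      obtain ⟨k, hk⟩ := (h4.eventually h3).exists
      apply hk
      rw [inv_inv, hval, sub_self]
  rw [← hgx, ← cl_const, cl_eq]
  obtain ⟨w1, hw1, hw2, hw3⟩ : ∃ w1 : ℂ, w1 ≠ 0 ∧ r0 < ‖w1⁻¹‖ ∧
      ∀ᶠ w in 𝓝 w1, g w⁻¹ - c = 0 := by
    have h3 : ∀ᶠ w in 𝓝[≠] (0 : ℂ), ∀ᶠ v in 𝓝 w, g v⁻¹ - c = 0 := by
      have h4 := eventually_eventually_nhdsWithin.2 hzero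
      filter_upwards [h4, self_mem_nhdsWithin] with w hw hw0
      have h5 : 𝓝[≠] (0 : ℂ) ≠ ⊥ := (inferInstance : (𝓝[≠] (0 : ℂ)).NeBot).ne
      rw [(isOpen_compl_singleton.nhdsWithin_eq hw0)] at hw
      exact hw
    obtain ⟨w, ⟨hw, hw'⟩, hw0⟩ := ((h3.and (ev_large r0)).and self_mem_nhdsWithin).exists
    exact ⟨w, hw0, hw', hw⟩
  have h3 : ∀ᶠ w in 𝓝[≠] w1⁻¹, g w - c = 0 := by
    have h4 : Tendsto (fun v : ℂ => v⁻¹) (𝓝 w1⁻¹) (𝓝 w1) := by
      have h5 := (continuousAt_inv₀ (inv_ne_zero hw1)).tendsto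
      rwa [inv_inv] at h5
    have h6 : ∀ᶠ v in 𝓝[≠] w1⁻¹, g (v⁻¹)⁻¹ - c = 0 :=
      (h4.mono_left nhdsWithin_le_nhds).eventually hw3
    simpa using h6
  have h4 := zero_all (D := exD r0 hr0) (hg.fun_sub (MeromorphicOn.const c)) hw2 h3
  intro z hz
  filter_upwards [h4 z hz] with w hw
  exact sub_eq_zero.1 hw

variable {N n m w : ℕ}

/-- `f` is a holomorphic map from the plane to the closed subvariety with generic point `y` of the
complement of the hyperplanes `x_j = 0`, `j` in `U`, with Zariski-dense image. -/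
def DenseCurve (U : Set (Fin (N + 1))) {K : Type} [Field K] [Algebra ℂ K] (y : Fin (N + 1) → K)
    (f : ℂ → Fin (N + 1) → ℂ) : Prop :=
  Differentiable ℂ f ∧ (∀ z, f z ∈ VarPts ℂ y ∧ ∀ j ∈ U, f z j ≠ 0) ∧
    ∀ G : MvPolynomial (Fin (N + 1)) ℂ, IsForm G → (∀ z, val (f z) G = 0) → val y G = 0

/-- the exponential function takes all nonzero values near infinity -/
theorem exp_surj {v : ℂ} (hv : v ≠ 0) : ∃ z ∈ Ext 1, Complex.exp z = v := by
  obtain ⟨k, hk⟩ : ∃ k : ℕ, 1 < |(Complex.log v).im + 2 * Real.pi * k| := by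
    obtain ⟨k, hk⟩ := exists_nat_gt (1 + |(Complex.log v).im|)
    refine ⟨k, ?_⟩
    have h1 : (k : ℝ) ≤ 2 * Real.pi * k := by
      have h2 : (0 : ℝ) ≤ k := Nat.cast_nonneg k
      have h3 := Real.pi_gt_three
      nlinarith
    have h4 := neg_abs_le (Complex.log v).im
    rw [lt_abs]
    left
    linarith
  refine ⟨Complex.log v + k * TT, ?_, ?_⟩
  · change 1 < ‖Complex.log v + k * TT‖
    refine lt_of_lt_of_le hk ?_
    have h1 : (Complex.log v).im + 2 * Real.pi * k = (Complex.log v + k * TT).im := by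
      simp [TT]
      ring
    rw [h1]
    exact Complex.abs_im_le_norm _
  · rw [Complex.exp_add, Complex.exp_log hv]
    have h1 : Complex.exp ((k : ℂ) * TT) = 1 := by
      rw [TT]
      exact Complex.exp_nat_mul_two_pi_mul_I k
    rw [h1, mul_one]

/-- **The points of power value varieties for polynomials of degree less than `m` over the function
field of a variety with a Zariski-dense entire curve are constant.** -/
theorem dense_const (hm : 2 ≤ m) (hnm : n < m) (hN : 4 * n < N + 1) {a : Fin (N + 1) → ℂ}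
    (ha : Function.Injective a) {U : Set (Fin (N + 1))} {K : Type} [Field K] [Algebra ℂ K]
    {y : Fin (N + 1) → K} (hy0 : y ≠ 0) (hgen : coords ℂ y = ⊤) {f : ℂ → Fin (N + 1) → ℂ}
    (hf : DenseCurve U y f) {u : Fin (N + 1) → K}
    (hu : ∀ l : Rel a n, val u (buchi a n m l) = 0) {i0 : Fin (N + 1)} (hu0 : u i0 = 1)
    (i : Fin (N + 1)) : ∃ c : ℂ, u i = algebraMap ℂ K c := by
  classical
  obtain ⟨hfd, hfm, hfG⟩ := hf
  have hn : n ≤ N := by omega
  have hfi : ∀ i, Differentiable ℂ (fun z => f z i) := fun i z =>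
    (differentiableAt_pi.1 (hfd z)) i
  have hgd : ∀ i, Differentiable ℂ (fun z => f (Complex.exp z) i) := fun i =>
    (hfi i).comp Complex.differentiable_exp
  have hM : ∀ i, MeromorphicOn (fun z => f (Complex.exp z) i) (exD 1 one_pos).U := fun i z _ =>
    ((hgd i).analyticAt z).meromorphicAt
  set Y : Fin (N + 1) → MK (exD 1 one_pos) := fun i => cl _ (hM i) with hY
  have hYG : ∀ G : MvPolynomial (Fin (N + 1)) ℂ, IsForm G → (val y G = 0 ↔ val Y G = 0) := by
    intro G hG
    rw [val_cl G hM (eval_mero G hM), cl_eq_zero]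
    constructor
    · intro h0 z _
      refine Eventually.of_forall fun w => ?_
      rw [← val_eq]
      exact (hfm (Complex.exp w)).1.2 G hG h0
    · intro h0
      refine hfG G hG fun v => ?_
      have h1 : Differentiable ℂ (fun z => MvPolynomial.eval (f z) G) := by
        simp only [MvPolynomial.eval_eq']
        refine Differentiable.fun_sum fun α _ => ?_
        refine (differentiable_const _).mul ?_
        refine Differentiable.fun_finsetProd fun j _ => ?_
        exact (hfi j).pow _
      have h2 : ∀ v : ℂ, v ≠ 0 → MvPolynomial.eval (f v) G = 0 := by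
        intro v hv
        obtain ⟨z, hz, rfl⟩ := exp_surj hv
        have h3 : AnalyticAt ℂ (fun z => MvPolynomial.eval (fun i => f (Complex.exp z) i) G) z :=
          (h1.comp Complex.differentiable_exp).analyticAt z
        exact (h3.frequently_zero_iff_eventually_zero.1 (h0 z hz).frequently).self_of_nhds
      rw [val_eq]
      by_cases hv : v = 0
      · have h3 : (fun z => MvPolynomial.eval (f z) G) v = 0 := by
          have h4 : AnalyticAt ℂ (fun z => MvPolynomial.eval (f z) G) v := h1.analyticAt v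
          refine (h4.frequently_zero_iff_eventually_zero.1 (Filter.Eventually.frequently
            ?_)).self_of_nhds
          filter_upwards [self_mem_nhdsWithin] with z hz
          apply h2
          rw [← hv]
          exact hz
        exact h3
      · exact h2 v hv
  obtain ⟨j0, hj0⟩ := Function.ne_iff.1 hy0
  have hj0' : y j0 ≠ 0 := hj0
  have hX : IsForm (MvPolynomial.X j0 : MvPolynomial (Fin (N + 1)) ℂ) :=
    ⟨1, MvPolynomial.isHomogeneous_X _ _⟩
  have hvX : ∀ {M : Type} [Field M] [Algebra ℂ M] (v : Fin (N + 1) → M),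
      val v (MvPolynomial.X j0 : MvPolynomial (Fin (N + 1)) ℂ) = v j0 := by
    intro M _ _ v
    unfold val
    rw [MvPolynomial.aeval_X]
  have hY0 : Y j0 ≠ 0 := by
    intro h0
    apply hj0'
    have h1 := (hYG _ hX).2 (by rw [hvX, h0])
    rwa [hvX] at h1
  obtain ⟨φ, hφ⟩ := exists_embedding hj0' hY0 hgen hYG
  -- periodic functions
  have hper : ∀ x : K, φ x ∈ Per 1 one_pos := by
    have h1 : coords ℂ y ≤ (Per 1 one_pos).comap φ := by
      unfold coords
      rw [IntermediateField.adjoin_le_iff]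
      rintro _ ⟨i, j, hj, rfl⟩
      change φ (y i / y j) ∈ Per 1 one_pos
      have h2 : y i / y j = (y i / y j0) / (y j / y j0) := by
        rw [div_div_div_cancel_right₀ hj0']
      have hYp : ∀ i, Y i ∈ Per 1 one_pos := fun i =>
        ⟨_, hM i, rfl, fun z => by
          have h3 : Complex.exp (z + TT) = Complex.exp z := by
            rw [TT]
            exact Complex.exp_periodic z
          simp only [h3]⟩
      rw [h2, map_div₀, hφ, hφ]
      exact div_mem (div_mem (hYp i) (hYp j0)) (div_mem (hYp j) (hYp j0))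
    intro x
    have h2 : x ∈ coords ℂ y := by
      rw [hgen]
      exact IntermediateField.mem_top
    exact h1 h2
  -- meromorphic at infinity
  have hφu : ∀ l : Rel a n, val (fun i => φ (u i)) (buchi a n m l) = 0 := by
    intro l
    have h1 := val_map φ (buchi a n m l) u
    rw [hu l, map_zero] at h1
    exact h1.symm
  set H := intp a hn (fun i => φ (u i) ^ m) with hHd
  have hev : ∀ i, H.eval (algebraMap ℂ (MK (exD 1 one_pos)) (a i)) = φ (u i) ^ m :=
    intp_eval ha hn m hφu
  have hH : H ≠ 0 := by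
    intro h0
    have h1 := hev i0
    rw [h0, Polynomial.eval_zero, hu0, map_one, one_pow] at h1
    exact zero_ne_one h1
  have hHdeg : H.natDegree ≤ n := intp_natDegree ha hn _
  obtain ⟨μ, H', hμ, hHμ⟩ := pow_Minf hm hN a ha H hH hHdeg (fun i => ⟨φ (u i), (hev i).symm⟩)
    (by
      intro p hp hpH
      have h1 := Polynomial.natDegree_le_of_dvd hpH hH
      rw [Polynomial.natDegree_pow] at h1
      have h2 := hp.natDegree_pos
      have h3 : m * 1 ≤ m * p.natDegree := Nat.mul_le_mul_left m h2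
      omega)
  have hmem : φ (u i) ∈ Minf 1 one_pos := by
    have h1 := ratio_mem (m := m) (a := a) (y := fun i => φ (u i)) (i := i) (j := i0) (by omega) hμ
      H' (by rw [← hHμ, hev]) (by rw [← hHμ, hev])
    simp only [hu0, map_one, div_one] at h1
    exact h1
  obtain ⟨c, hc⟩ := const_of_per (hper (u i)) hmem
  refine ⟨c, φ.toRingHom.injective ?_⟩
  change φ (u i) = φ (algebraMap ℂ K c)
  rw [hc, AlgHom.commutes]

end Pool.Agent.Y216.SV
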