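import Pool.Agent.Y216.SV.Ent
import Pool.Agent.TH143.GT.Close

/-!
Closed subvarieties of the power value varieties with a Zariski-dense entire curve: the equivalences.
-/

set_option autoImplicit false

open Filter Topology Set Metric

namespace Pool.Agent.Y216.SV

open FF Pool.Agent.W603.LV Pool.Agent.W603.BP Pool.Agent.W601.PH Pool.Agent.Y190.BV
  Pool.Agent.W602.GT Pool.Agent.Y190.AN Pool.Agent.Y190.QP Pool.Agent.H159R3.GGLLog
  Pool.Agent.H159R3.NV Pool.Agent.Y190.GN

variable {N n m w : ℕ}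

/-- the closure of an entire curve -/
theorem point_of_const {U : Set (Fin (N + 1))} {K : Type} [Field K] [Algebra ℂ K]
    {y : Fin (N + 1) → K} {f : ℂ → Fin (N + 1) → ℂ} (hf : DenseCurve U y f)
    (h : ∀ z w, ∃ c : ℂ, f z = c • f w) : IsPoint ℂ y := by
  obtain ⟨hfd, hfm, hfG⟩ := hf
  refine ⟨f 0, (hfm 0).1.1, fun G hG => ⟨fun h0 => (hfm 0).1.2 G hG h0, fun h0 => ?_⟩⟩
  refine hfG G hG fun z => ?_
  obtain ⟨c, hc⟩ := h z 0
  obtain ⟨d, hd⟩ := hG
  rw [hc]
  have e : (c • f 0) = fun i => c * f 0 i := rfl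
  rw [e, val_smul hd, h0, mul_zero]

/-- a dense curve is an entire curve in the sense of the library -/
theorem entire_of_dense {U : Set (Fin (N + 1))} {K : Type} [Field K] [Algebra ℂ K]
    {y : Fin (N + 1) → K} {f : ℂ → Fin (N + 1) → ℂ} (hf : DenseCurve U y f)
    (h : ¬ ∀ z w, ∃ c : ℂ, f z = c • f w) : EntireCurve U (eqs (K := ℂ) y) f := by
  push Not at h
  refine ⟨hf.1, fun z => ?_, h⟩
  rw [← Pool.Agent.Y190.QP.coneU_eq]
  exact ⟨(hf.2.1 z).1.1, (hf.2.1 z).2, fun e => (hf.2.1 z).1.2 _ e.2.1 e.2.2⟩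

/-- **Dense entire curves.** -/
theorem dense_core (hm : 2 ≤ m) (hnm : n < 2 * m) (hN : 4 * n + (n + 1) ^ 2 < 2 * (N + 1))
    {a : Fin (N + 1) → ℂ} (ha : Function.Injective a) {U : Set (Fin (N + 1))} {K : Type} [Field K]
    [Algebra ℂ K] {y : Fin (N + 1) → K} (hy : SubVar (buchi a n m) K w y)
    (hyU : ∀ j ∈ U, y j ≠ 0) {f : ℂ → Fin (N + 1) → ℂ} (hf : DenseCurve U y f) :
    IsPoint ℂ y ∨ (U.ncard ≤ 2 ∧ IsLine ℂ y) := by
  classical
  have hsub : ConeU U (eqs (K := ℂ) y) ⊆ Cone (buchi a n m) := by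
    rintro x ⟨hx0, -, hx⟩
    exact ⟨hx0, fun l => hx ⟨_, isForm_buchi a n m l, hy.mem l⟩⟩
  rcases Nat.eq_zero_or_pos w with hw | hw
  · subst hw
    exact Or.inl (isPoint_of_alg hy.ne hy.dim)
  by_cases hcon : ∀ z w, ∃ c : ℂ, f z = c • f w
  · exact Or.inl (point_of_const hf hcon)
  right
  have hent := entire_of_dense hf hcon
  have hyF : SubVarU U (eqs (K := ℂ) y) K w y := ⟨hy.ne, hyU, fun e => e.2.2, hy.gen, hy.dim⟩
  have hgen : ∀ G : MvPolynomial (Fin (N + 1)) ℂ, IsForm G →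
      (val y G = 0 ↔ ∀ x ∈ ConeU U (eqs (K := ℂ) y), val x G = 0) := by
    intro G hG
    constructor
    · intro h x hx
      exact hx.2.2 ⟨G, hG, h⟩
    · intro h
      exact val_of_cone hy.ne hyU (fun e => e.2.2) h
  have hF : ∀ e, IsForm (eqs (K := ℂ) y e) := fun e => e.2.1
  have hnl : ¬ LogGeneralType ℂ K w (OffU U y) := by
    intro hl
    have h1 := ((lang_equivU hm hnm hN ha hF hsub hw hyF hgen).out 0 1).1 hl
    obtain ⟨e1, -, e3, -, -⟩ := special_six hm hnm hN ha hF hsub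
    apply h1
    rw [e1, ← e3, Pool.Agent.Y190.QP.coneU_eq]
    refine Set.Subset.antisymm (fun x hx => hx.1) fun x hx => ⟨hx, fun G hG hall => ?_⟩
    have h2 : val y G = 0 := hf.2.2 G hG fun z => by rw [val_eq]; exact hall f hent z
    rw [← Pool.Agent.Y190.QP.coneU_eq] at hx
    rw [← val_eq]
    exact (hgen G hG).1 h2 x hx
  have hU : U.ncard ≤ 2 := by
    by_contra hcon
    obtain ⟨jj, hjj, hjU⟩ := (three_iff U).1 (by omega)
    exact hnl (lgt_three hm hnm hN ha hy hyU hjj hjU)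
  have hgt : ¬ GeneralType ℂ K w := fun h => hnl (lgt_of_gt h)
  obtain ⟨hmn, w', t, z, rfl, hyz, hz, ⟨i0, j0, hij0, hi0, hj0⟩, htr, -, -, -⟩ :=
    core hm hnm hN ha hy hgt
  refine ⟨hU, isLine_of_str ha hyz ⟨i0, j0, hij0, hi0, hj0⟩ (fun halg =>
    htr (halg.tower_top (coords ℂ z))) ?_⟩
  have hc : ∀ i, ∃ c : ℂ, z i / z i0 = algebraMap ℂ K c := by
    refine dense_const (n := n - m) hm (by omega) (by omega) ha hy.ne hy.gen hf ?_
      (u := fun i => z i / z i0) (i0 := i0) (div_self hi0)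
    intro l
    obtain ⟨d, hd⟩ := isForm_buchi a (n - m) m l
    have h1 : (fun i => z i / z i0) = fun i => (z i0)⁻¹ * z i := by
      funext i
      rw [div_eq_inv_mul]
    rw [h1, val_smul hd, hz, mul_zero]
  choose c hc using hc
  intro i j hj
  have hcj : c j ≠ 0 := by
    intro h0
    have h1 := hc j
    rw [h0, map_zero, div_eq_zero_iff] at h1
    rcases h1 with h1 | h1
    · exact hj h1
    · exact hi0 h1
  refine ⟨c i / c j, ?_⟩
  have h1 := hc i
  have h2 := hc j
  rw [div_eq_iff hi0] at h1 h2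
  have h3 : algebraMap ℂ K (c j) ≠ 0 := by rw [Ne, map_eq_zero]; exact hcj
  rw [h1, h2, map_div₀]
  field_simp

/-- the boundary does not contain the subvariety -/
theorem point_unit {U : Set (Fin (N + 1))} {K : Type} [Field K] [Algebra ℂ K]
    {y : Fin (N + 1) → K} (hyU : ∀ j ∈ U, y j ≠ 0) {x : Fin (N + 1) → ℂ}
    (h : ∀ G : MvPolynomial (Fin (N + 1)) ℂ, IsForm G → (val y G = 0 ↔ val x G = 0)) :
    ∀ j ∈ U, x j ≠ 0 := by
  intro j hj h0
  have hX : IsForm (MvPolynomial.X j : MvPolynomial (Fin (N + 1)) ℂ) :=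
    ⟨1, MvPolynomial.isHomogeneous_X _ _⟩
  have h1 := (h _ hX).2 (by unfold val; rw [MvPolynomial.aeval_X, h0])
  apply hyU j hj
  unfold val at h1
  rwa [MvPolynomial.aeval_X] at h1

/-- **Points and lines have dense entire curves.** -/
theorem dense_conv {U : Set (Fin (N + 1))} {K : Type} [Field K] [Algebra ℂ K]
    {y : Fin (N + 1) → K} (hyU : ∀ j ∈ U, y j ≠ 0)
    (h : IsPoint ℂ y ∨ (U.ncard ≤ 2 ∧ IsLine ℂ y)) : ∃ f, DenseCurve U y f := by
  classical
  rcases h with ⟨x, hx0, hx⟩ | ⟨hU, x, x', hli, hx⟩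
  · exact ⟨fun _ => x, differentiable_const _, fun z => ⟨⟨hx0, fun G hG h0 => (hx G hG).1 h0⟩,
      point_unit hyU hx⟩, fun G hG h0 => (hx G hG).2 (h0 0)⟩
  · obtain ⟨j1, j2, hU'⟩ : ∃ j1 j2, ∀ j ∈ U, j = j1 ∨ j = j2 := by
      rcases U_cases U with hj | hj
      · have := (three_iff U).2 hj
        omega
      · exact hj
    have hL : Line (eqs (K := ℂ) y) x x' := ⟨hli, fun c c' e => (hx _ e.2.1).1 e.2.2 c c'⟩
    have hin : ∀ j ∈ U, x j ≠ 0 ∨ x' j ≠ 0 := by
      intro j hj
      by_contra hcon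
      push Not at hcon
      have hX : IsForm (MvPolynomial.X j : MvPolynomial (Fin (N + 1)) ℂ) :=
        ⟨1, MvPolynomial.isHomogeneous_X _ _⟩
      have h1 := (hx _ hX).2 (fun c c' => by
        unfold val
        rw [MvPolynomial.aeval_X]
        simp [hcon.1, hcon.2])
      apply hyU j hj
      unfold val at h1
      rwa [MvPolynomial.aeval_X] at h1
    obtain ⟨α, β, γ, δ, hdet, hgm⟩ := exists_gm hU' hL hin
    set A := α • x + β • x' with hA
    set B := γ • x + δ • x' with hB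
    have hmem : ∀ z : ℂ, A + Complex.exp z • B ∈ ConeU U (eqs (K := ℂ) y) := by
      intro z
      have := hgm.2 1 (Complex.exp z) one_ne_zero (Complex.exp_ne_zero z)
      rwa [one_smul] at this
    refine ⟨fun z => A + Complex.exp z • B, ?_, fun z => ⟨⟨(hmem z).1, fun G hG h0 =>
      (hmem z).2.2 ⟨G, hG, h0⟩⟩, (hmem z).2.1⟩, fun G hG h0 => ?_⟩
    · exact (differentiable_const _).add
        (Complex.differentiable_exp.smul (differentiable_const _))
    · rw [hx G hG]
      obtain ⟨d, hd⟩ := hG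
      have h1 : ∀ c c' : ℂ, c ≠ 0 → c' ≠ 0 → val (c • A + c' • B) G = 0 := by
        intro c c' hc hc'
        have h2 := h0 (Complex.log (c' / c))
        simp only at h2
        rw [Complex.exp_log (div_ne_zero hc' hc)] at h2
        have e : c • A + c' • B = fun i => c * (A + (c' / c) • B) i := by
          funext i
          simp only [Pi.add_apply, Pi.smul_apply, smul_eq_mul]
          field_simp
        rw [e, val_smul hd, h2, mul_zero]
      intro c c'
      have h2 := line_all h1 ((c * δ - c' * γ) / (α * δ - β * γ))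
        ((c' * α - c * β) / (α * δ - β * γ))
      have e : ((c * δ - c' * γ) / (α * δ - β * γ)) • A +
          ((c' * α - c * β) / (α * δ - β * γ)) • B = c • x + c' • x' := by
        funext i
        simp only [hA, hB, Pi.add_apply, Pi.smul_apply, smul_eq_mul]
        have e1 : (c * δ - c' * γ) / (α * δ - β * γ) * (α * x i + β * x' i) +
            (c' * α - c * β) / (α * δ - β * γ) * (γ * x i + δ * x' i) =
            (c * x i + c' * x' i) * (α * δ - β * γ) / (α * δ - β * γ) := by ring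
        rw [e1, mul_div_cancel_right₀ _ hdet]
      rwa [e] at h2

/-- **The equivalence.** -/
theorem dense_iff (hm : 2 ≤ m) (hnm : n < 2 * m) (hN : 4 * n + (n + 1) ^ 2 < 2 * (N + 1))
    {a : Fin (N + 1) → ℂ} (ha : Function.Injective a) {U : Set (Fin (N + 1))} {K : Type} [Field K]
    [Algebra ℂ K] {y : Fin (N + 1) → K} (hy : SubVar (buchi a n m) K w y)
    (hyU : ∀ j ∈ U, y j ≠ 0) :
    (∃ f, DenseCurve U y f) ↔ IsPoint ℂ y ∨ (U.ncard ≤ 2 ∧ IsLine ℂ y) :=
  ⟨fun ⟨_, hf⟩ => dense_core hm hnm hN ha hy hyU hf, dense_conv hyU⟩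

/-- **Entire curves lie in lines.** -/
theorem curve_line (hm : 2 ≤ m) (hnm : n < 2 * m) (hN : 4 * n + (n + 1) ^ 2 < 2 * (N + 1))
    {a : Fin (N + 1) → ℂ} (ha : Function.Injective a) {U : Set (Fin (N + 1))} {ι : Type}
    {F : ι → MvPolynomial (Fin (N + 1)) ℂ} (hF : ∀ e, IsForm (F e))
    (hsub : ConeU U F ⊆ Cone (buchi a n m)) {f : ℂ → Fin (N + 1) → ℂ}
    (hf : EntireCurve U F f) : U.ncard ≤ 2 ∧ ∃ x x', Line F x x' ∧
      ∀ z, ∃ c c' : ℂ, f z = c • x + c' • x' := by
  classical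
  obtain ⟨hfd, hfm, z1, z2, hnc⟩ := hf
  have hfm' : ∀ z, f z ∈ ConeU U F := fun z => by
    rw [Pool.Agent.Y190.QP.coneU_eq]
    exact hfm z
  have hfi : ∀ j, AnalyticOnNhd ℂ (fun w => f w j) univ := fun j z _ =>
    Differentiable.analyticAt (fun z => (differentiableAt_pi.1 (hfd z)) j) z
  obtain ⟨j0, hj0⟩ := Function.ne_iff.1 (hfm' 0).1
  obtain ⟨K, i1, i2, w, y, hy0, hgen, hdim, hrel, hzero⟩ :=
    Pool.Agent.TH143.GT.exists_closure f isPreconnected_univ hfi ⟨0, mem_univ _, hj0⟩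
  have hyU : ∀ j ∈ U, y j ≠ 0 := by
    intro j hj h0
    have hX : IsForm (MvPolynomial.X j : MvPolynomial (Fin (N + 1)) ℂ) :=
      ⟨1, MvPolynomial.isHomogeneous_X _ _⟩
    have h1 := (hrel _ hX).1 (by unfold val; rw [MvPolynomial.aeval_X, h0]) 0 (mem_univ _)
    rw [MvPolynomial.eval_X] at h1
    exact (hfm' 0).2.1 j hj h1
  have hyF : ∀ e, val y (F e) = 0 := fun e => (hrel _ (hF e)).2 fun z _ => by
    rw [← val_eq]
    exact (hfm' z).2.2 e
  have hsv : SubVar (buchi a n m) K w y := ⟨hy0, sub_extU hsub hy0 hyU hyF, hgen, hdim⟩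
  have hdc : DenseCurve U y f := by
    refine ⟨hfd, fun z => ⟨⟨(hfm' z).1, fun G hG h0 => ?_⟩, (hfm' z).2.1⟩, fun G hG h0 => ?_⟩
    · rw [val_eq]
      exact (hrel G hG).1 h0 z (mem_univ _)
    · rw [hrel G hG]
      intro z _
      rw [← val_eq]
      exact h0 z
  rcases dense_core hm hnm hN ha hsv hyU hdc with h | ⟨hU, x, x', hli, hx⟩
  · exfalso
    have h1 := h.dim_zero hgen
    rw [hdim] at h1
    have h2 : w = 0 := by exact_mod_cast h1
    choose c hc using hzero h2
    have hz : ∀ z, f z j0 ≠ 0 := by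
      intro z h0
      apply (hfm' z).1
      funext j
      rw [hc j z (mem_univ _), h0, mul_zero]
      rfl
    apply hnc (f z1 j0 / f z2 j0)
    funext j
    rw [Pi.smul_apply, smul_eq_mul, hc j z1 (mem_univ _), hc j z2 (mem_univ _)]
    have := hz z2
    field_simp
  · refine ⟨hU, x, x', ⟨hli, fun c c' e => (hx _ (hF e)).1 (hyF e) c c'⟩, fun z => ?_⟩
    -- the linear equations of the line
    have hli' := LinearIndependent.pair_iff.1 hli
    obtain ⟨i, j, hij⟩ : ∃ i j, x i * x' j - x j * x' i ≠ 0 := by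
      by_contra hcon
      push Not at hcon
      by_cases hx0 : x = 0
      · exact one_ne_zero (hli' 1 0 (by rw [hx0]; simp)).1
      · obtain ⟨j, hj⟩ := Function.ne_iff.1 hx0
        refine hj (neg_eq_zero.1 (hli' (x' j) (-(x j)) ?_).2)
        funext i
        simp only [Pi.add_apply, Pi.smul_apply, smul_eq_mul, Pi.zero_apply]
        linear_combination hcon i j
    have hlin : ∀ l, (x i * x' j - x j * x' i) * f z l =
        (x l * x' j - x j * x' l) * f z i + (x i * x' l - x l * x' i) * f z j := by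
      intro l
      let L : MvPolynomial (Fin (N + 1)) ℂ :=
        MvPolynomial.C (x i * x' j - x j * x' i) * MvPolynomial.X l -
        (MvPolynomial.C (x l * x' j - x j * x' l) * MvPolynomial.X i +
          MvPolynomial.C (x i * x' l - x l * x' i) * MvPolynomial.X j)
      have hL : IsForm L := by
        refine ⟨1, ?_⟩
        have h1 := (MvPolynomial.isHomogeneous_C (Fin (N + 1)) (x i * x' j - x j * x' i)).mul
          (MvPolynomial.isHomogeneous_X ℂ l)
        have h2 := (MvPolynomial.isHomogeneous_C (Fin (N + 1)) (x l * x' j - x j * x' l)).mul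
          (MvPolynomial.isHomogeneous_X ℂ i)
        have h3 := (MvPolynomial.isHomogeneous_C (Fin (N + 1)) (x i * x' l - x l * x' i)).mul
          (MvPolynomial.isHomogeneous_X ℂ j)
        simp only [zero_add] at h1 h2 h3
        exact h1.sub (h2.add h3)
      have h1 : val y L = 0 := (hx L hL).2 fun c c' => by
        unfold val
        simp only [L, map_sub, map_add, map_mul, MvPolynomial.aeval_C, MvPolynomial.aeval_X,
          Algebra.algebraMap_self, RingHom.id_apply, Pi.add_apply, Pi.smul_apply, smul_eq_mul]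
        ring
      have h2 := (hrel L hL).1 h1 z (mem_univ _)
      simp only [L, map_sub, map_add, map_mul, MvPolynomial.eval_C, MvPolynomial.eval_X] at h2
      linear_combination h2
    refine ⟨(x' j * f z i - x' i * f z j) / (x i * x' j - x j * x' i),
      (x i * f z j - x j * f z i) / (x i * x' j - x j * x' i), ?_⟩
    funext l
    simp only [Pi.add_apply, Pi.smul_apply, smul_eq_mul]
    have h1 := hlin l
    rw [← mul_right_inj' hij]
    field_simp
    linear_combination h1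

end Pool.Agent.Y216.SV
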