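import Pool.Agent.Y216.SV.Str
import Pool.Agent.Y190.GN.Main

/-!
Special closed subvarieties of the power value varieties are points or lines.
-/

set_option autoImplicit false

open FF Pool.Agent.W603.LV Pool.Agent.W602.GT Pool.Agent.Y190.BV Pool.Agent.Y190.QP

namespace Pool.Agent.Y216.SV

section defs

variable (k : Type) [Field k] {N : ℕ} {K : Type} [Field K] [Algebra k K]

/-- The projective variety with generic point `y` is the point `x`: the same forms vanish at `y` and
at `x`. -/
def IsPoint (y : Fin (N + 1) → K) : Prop :=
  ∃ x : Fin (N + 1) → k, x ≠ 0 ∧ ∀ G : MvPolynomial (Fin (N + 1)) k, IsForm G →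
    (val y G = 0 ↔ val x G = 0)

/-- The projective variety with generic point `y` is the line through two points `x`, `x'`: a form
vanishes at `y` if and only if it vanishes on this line. -/
def IsLine (y : Fin (N + 1) → K) : Prop :=
  ∃ x x' : Fin (N + 1) → k, LinearIndependent k ![x, x'] ∧
    ∀ G : MvPolynomial (Fin (N + 1)) k, IsForm G →
      (val y G = 0 ↔ ∀ c c' : k, val (c • x + c' • x') G = 0)

end defs

variable {k : Type} [Field k] {N n m w : ℕ} {K : Type} [Field K] [Algebra k K]

theorem val_algMap (x : Fin (N + 1) → k) (G : MvPolynomial (Fin (N + 1)) k) :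
    val (fun i => algebraMap k K (x i)) G = algebraMap k K (val x G) := by
  unfold val
  exact MvPolynomial.aeval_algebraMap_apply K x G

/-- points -/
theorem isPoint_of_alg [IsAlgClosed k] {y : Fin (N + 1) → K} (hy0 : y ≠ 0)
    (hdim : Algebra.trdeg k K = (0 : ℕ)) : IsPoint k y := by
  obtain ⟨j, hj⟩ := Function.ne_iff.1 hy0
  have hj' : y j ≠ 0 := hj
  have h1 : Algebra.IsAlgebraic k K := by
    rw [Nat.cast_zero, trdeg_eq_zero_iff] at hdim
    exact hdim
  have h3 : Algebra.IsIntegral k K := Algebra.isAlgebraic_iff_isIntegral.1 h1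
  have h4 := (IsAlgClosed.algebraMap_bijective_of_isIntegral (k := k) (K := K)).2
  choose x hx using fun i => h4 (y i / y j)
  refine ⟨x, fun h0 => ?_, fun G hG => ?_⟩
  · have := hx j
    rw [h0, div_self hj', Pi.zero_apply, map_zero] at this
    exact zero_ne_one this
  · obtain ⟨d, hd⟩ := hG
    have h5 : y = fun i => y j * algebraMap k K (x i) := by
      funext i
      rw [hx]
      field_simp
    have h6 : val y G = y j ^ d * algebraMap k K (val x G) := by
      conv_lhs => rw [h5]
      rw [val_smul hd, val_algMap]
    rw [h6]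
    simp [hj']

/-- the relation between two coordinates -/
noncomputable def relXY (x : Fin (N + 1) → k) (i j : Fin (N + 1)) : MvPolynomial (Fin (N + 1)) k :=
  MvPolynomial.C (x j) * MvPolynomial.X i - MvPolynomial.C (x i) * MvPolynomial.X j

theorem relXY_form (x : Fin (N + 1) → k) (i j : Fin (N + 1)) : IsForm (relXY x i j) := by
  refine ⟨1, ?_⟩
  have h1 := (MvPolynomial.isHomogeneous_C (Fin (N + 1)) (x j)).mul
    (MvPolynomial.isHomogeneous_X k i)
  have h2 := (MvPolynomial.isHomogeneous_C (Fin (N + 1)) (x i)).mul
    (MvPolynomial.isHomogeneous_X k j)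
  simp only [zero_add] at h1 h2
  exact h1.sub h2

theorem val_relXY (x : Fin (N + 1) → k) (i j : Fin (N + 1)) (y : Fin (N + 1) → K) :
    val y (relXY x i j) = algebraMap k K (x j) * y i - algebraMap k K (x i) * y j := by
  unfold val relXY
  simp

theorem IsPoint.dim_zero {y : Fin (N + 1) → K} (h : IsPoint k y)
    (hgen : coords k y = ⊤) : Algebra.trdeg k K = (0 : ℕ) := by
  obtain ⟨x, hx0, hx⟩ := h
  obtain ⟨j, hj⟩ := Function.ne_iff.1 hx0
  have hj' : x j ≠ 0 := hj
  have h1 : ∀ i, y i = algebraMap k K (x i / x j) * y j := by
    intro i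
    have h2 := (hx (relXY x i j) (relXY_form x i j)).2 (by
      rw [val_relXY, Algebra.algebraMap_self, RingHom.id_apply, RingHom.id_apply]
      ring)
    rw [val_relXY] at h2
    have h3 : algebraMap k K (x j) ≠ 0 := by rw [Ne, map_eq_zero]; exact hj'
    rw [map_div₀]
    field_simp
    linear_combination h2
  have h2 : coords k y = ⊥ := by
    rw [eq_bot_iff]
    unfold coords
    rw [IntermediateField.adjoin_le_iff]
    rintro _ ⟨i, l, hl, rfl⟩
    have hyj : y j ≠ 0 := by
      intro h0
      apply hl
      rw [h1 l, h0, mul_zero]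
    rw [h1 i, h1 l, mul_div_mul_right _ _ hyj, ← map_div₀]
    exact IntermediateField.algebraMap_mem _ _
  rw [hgen] at h2
  rw [Nat.cast_zero, trdeg_eq_zero_iff]
  refine ⟨fun x => ?_⟩
  have h3 : x ∈ (⊥ : IntermediateField k K) := by
    rw [← h2]
    exact IntermediateField.mem_top
  obtain ⟨c, rfl⟩ := IntermediateField.mem_bot.1 h3
  exact isAlgebraic_algebraMap c

/-- lines from the structure -/
theorem isLine_of_str [Infinite k] {a : Fin (N + 1) → k} (ha : Function.Injective a)
    {y z : Fin (N + 1) → K} {t : K} (hyz : ∀ i, y i = (algebraMap k K (a i) - t) * z i)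
    (hij : ∃ i j, i ≠ j ∧ z i ≠ 0 ∧ z j ≠ 0) (ht : Transcendental k t)
    (hz : ∀ i j, z j ≠ 0 → ∃ c : k, z i = algebraMap k K c * z j) : IsLine k y := by
  obtain ⟨i0, j0, hij0, hi0, hj0⟩ := hij
  choose c hc using fun i => hz i i0 hi0
  have hci : c i0 = 1 := by
    have h1 := hc i0
    have h2 : algebraMap k K (c i0) = 1 := by
      have h3 : (algebraMap k K (c i0) - 1) * z i0 = 0 := by linear_combination -h1
      exact sub_eq_zero.1 ((mul_eq_zero.1 h3).resolve_right hi0)
    exact (algebraMap k K).injective (by rw [h2, map_one])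
  have hcj : c j0 ≠ 0 := by
    intro h0
    apply hj0
    rw [hc j0, h0, map_zero, zero_mul]
  refine ⟨fun i => a i * c i, c, ?_, fun G hG => ?_⟩
  · rw [LinearIndependent.pair_iff]
    intro s s' hs
    have h1 := congrFun hs i0
    have h2 := congrFun hs j0
    simp only [Pi.add_apply, Pi.smul_apply, smul_eq_mul, Pi.zero_apply, hci, mul_one] at h1 h2
    have h3 : (s * a j0 + s') * c j0 = 0 := by linear_combination h2
    have h4 := (mul_eq_zero.1 h3).resolve_right hcj
    have h5 : s * (a i0 - a j0) = 0 := by linear_combination h1 - h4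
    have h6 : s = 0 := (mul_eq_zero.1 h5).resolve_right (sub_ne_zero.2 fun h => hij0 (ha h))
    refine ⟨h6, ?_⟩
    rw [h6] at h1
    simpa using h1
  · obtain ⟨d, hd⟩ := hG
    let P : Fin (N + 1) → Polynomial k := fun i =>
      Polynomial.C (a i * c i) + Polynomial.X * Polynomial.C (-c i)
    let Q : Polynomial k := MvPolynomial.aeval P G
    have hQK : val y G = z i0 ^ d * Polynomial.aeval t Q := by
      have h1 : Polynomial.aeval t Q = val (fun i => (algebraMap k K (a i) - t) *
          algebraMap k K (c i)) G := by
        have h2 : (Polynomial.aeval t : Polynomial k →ₐ[k] K).comp (MvPolynomial.aeval P) =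
            MvPolynomial.aeval (fun i => (algebraMap k K (a i) - t) * algebraMap k K (c i)) := by
          apply MvPolynomial.algHom_ext
          intro i
          simp only [AlgHom.comp_apply, MvPolynomial.aeval_X, P, map_add, map_mul,
            Polynomial.aeval_C, Polynomial.aeval_X, map_neg]
          ring
        unfold val
        rw [← h2]
        rfl
      rw [h1, ← val_smul hd]
      congr 1
      funext i
      rw [hyz i, hc i]
      ring
    have hQk : ∀ s : k, Q.eval s = val (fun i => (a i - s) * c i) G := by
      intro s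
      have h2 : (Polynomial.aeval s : Polynomial k →ₐ[k] k).comp (MvPolynomial.aeval P) =
          MvPolynomial.aeval (fun i => (a i - s) * c i) := by
        apply MvPolynomial.algHom_ext
        intro i
        simp only [AlgHom.comp_apply, MvPolynomial.aeval_X, P, map_add, map_mul,
          Polynomial.aeval_C, Polynomial.aeval_X, map_neg, Algebra.algebraMap_self,
          RingHom.id_apply]
        ring
      unfold val
      rw [← h2, ← Polynomial.coe_aeval_eq_eval]
      rfl
    have h1 : val y G = 0 ↔ Q = 0 := by
      rw [hQK]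
      constructor
      · intro h0
        by_contra hne
        exact ht ⟨Q, hne, (mul_eq_zero.1 h0).resolve_left (pow_ne_zero _ hi0)⟩
      · intro h0
        rw [h0, map_zero, mul_zero]
    rw [h1]
    constructor
    · intro h0 s s'
      refine line_all (fun s s' hs _ => ?_) s s'
      have h2 := hQk (-s' / s)
      rw [h0, Polynomial.eval_zero] at h2
      have e : s • (fun i => a i * c i) + s' • c = fun i => s * ((a i - -s' / s) * c i) := by
        funext i
        simp only [Pi.add_apply, Pi.smul_apply, smul_eq_mul]
        field_simp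
        ring
      rw [e, val_smul hd, ← h2, mul_zero]
    · intro h0
      refine Polynomial.funext fun s => ?_
      rw [hQk, Polynomial.eval_zero]
      have e : (fun i => (a i - s) * c i) = (1 : k) • (fun i => a i * c i) + (-s) • c := by
        funext i
        simp only [Pi.add_apply, Pi.smul_apply, smul_eq_mul]
        ring
      rw [e]
      exact h0 _ _

/-- the function field of a line -/
theorem IsLine.rat [IsAlgClosed k] {y : Fin (N + 1) → K} (h : IsLine k y)
    (hgen : coords k y = ⊤) : ∃ s : K, Transcendental k s ∧ IntermediateField.adjoin k {s} = ⊤ := by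
  classical
  obtain ⟨x, x', hli, hx⟩ := h
  have hli' := LinearIndependent.pair_iff.1 hli
  obtain ⟨i, j, hij⟩ : ∃ i j, x i * x' j - x j * x' i ≠ 0 := by
    by_contra hcon
    push Not at hcon
    by_cases hx0 : x = 0
    · exact one_ne_zero (hli' 1 0 (by rw [hx0]; simp)).1
    · obtain ⟨j, hj⟩ := Function.ne_iff.1 hx0
      refine hj (neg_eq_zero.1 (hli' (x' j) (-(x j)) ?_).2)
      funext i
      simp only [Pi.add_apply, Pi.smul_apply, smul_eq_mul, Pi.zero_apply]
      linear_combination hcon i j
  set δ : k := x i * x' j - x j * x' i with hδ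
  -- the linear relations
  let L : Fin (N + 1) → MvPolynomial (Fin (N + 1)) k := fun l =>
    MvPolynomial.C δ * MvPolynomial.X l -
      (MvPolynomial.C (x l * x' j - x j * x' l) * MvPolynomial.X i +
        MvPolynomial.C (x i * x' l - x l * x' i) * MvPolynomial.X j)
  have hL : ∀ l, IsForm (L l) := by
    intro l
    refine ⟨1, ?_⟩
    have h1 := (MvPolynomial.isHomogeneous_C (Fin (N + 1)) δ).mul (MvPolynomial.isHomogeneous_X k l)
    have h2 := (MvPolynomial.isHomogeneous_C (Fin (N + 1)) (x l * x' j - x j * x' l)).mul
      (MvPolynomial.isHomogeneous_X k i)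
    have h3 := (MvPolynomial.isHomogeneous_C (Fin (N + 1)) (x i * x' l - x l * x' i)).mul
      (MvPolynomial.isHomogeneous_X k j)
    simp only [zero_add] at h1 h2 h3
    exact h1.sub (h2.add h3)
  have hval : ∀ {M : Type} [Field M] [Algebra k M] (v : Fin (N + 1) → M) l, val v (L l) =
      algebraMap k M δ * v l - (algebraMap k M (x l * x' j - x j * x' l) * v i +
        algebraMap k M (x i * x' l - x l * x' i) * v j) := by
    intro M _ _ v l
    unfold val
    simp only [L, map_sub, map_add, map_mul, MvPolynomial.aeval_C, MvPolynomial.aeval_X]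
  have hyl : ∀ l, algebraMap k K δ * y l = algebraMap k K (x l * x' j - x j * x' l) * y i +
      algebraMap k K (x i * x' l - x l * x' i) * y j := by
    intro l
    have h1 := (hx (L l) (hL l)).2 (fun c c' => by
      rw [hval]
      simp only [Algebra.algebraMap_self, RingHom.id_apply, Pi.add_apply, Pi.smul_apply,
        smul_eq_mul, hδ]
      ring)
    rw [hval] at h1
    exact sub_eq_zero.1 h1
  have hδK : algebraMap k K δ ≠ 0 := by rw [Ne, map_eq_zero]; exact hij
  have hval2 : ∀ (v : Fin (N + 1) → K) (G : MvPolynomial (Fin (N + 1)) k) (c c' : k),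
      G = MvPolynomial.C c * MvPolynomial.X i + MvPolynomial.C c' * MvPolynomial.X j →
      val v G = algebraMap k K c * v i + algebraMap k K c' * v j := by
    rintro v G c c' rfl
    unfold val
    simp
  -- no linear relation between `y i` and `y j`
  have hno : ∀ c c' : k, algebraMap k K c * y i + algebraMap k K c' * y j = 0 →
      c = 0 ∧ c' = 0 := by
    intro c c' h0
    have hform : IsForm (MvPolynomial.C c * MvPolynomial.X i +
        MvPolynomial.C c' * MvPolynomial.X j : MvPolynomial (Fin (N + 1)) k) := by
      refine ⟨1, ?_⟩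
      have h2 := (MvPolynomial.isHomogeneous_C (Fin (N + 1)) c).mul
        (MvPolynomial.isHomogeneous_X k i)
      have h3 := (MvPolynomial.isHomogeneous_C (Fin (N + 1)) c').mul
        (MvPolynomial.isHomogeneous_X k j)
      simp only [zero_add] at h2 h3
      exact h2.add h3
    have h1 := (hx _ hform).1 (by rw [hval2 y _ c c' rfl, h0])
    have h2 : ∀ s s' : k, c * (s * x i + s' * x' i) + c' * (s * x j + s' * x' j) = 0 := by
      intro s s'
      have h3 := h1 s s'
      unfold val at h3
      simpa using h3
    have e1 := h2 (x' j) (-(x j))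
    have e2 := h2 (x' i) (-(x i))
    constructor
    · have h3 : c * δ = 0 := by rw [hδ]; linear_combination e1
      exact (mul_eq_zero.1 h3).resolve_right hij
    · have h3 : c' * δ = 0 := by rw [hδ]; linear_combination -e2
      exact (mul_eq_zero.1 h3).resolve_right hij
  have hyj : y j ≠ 0 := by
    intro h0
    have h1 := (hno 0 1 (by rw [h0]; simp)).2
    exact one_ne_zero h1
  refine ⟨y i / y j, ?_, ?_⟩
  · intro halg
    obtain ⟨c, hc⟩ : ∃ c : k, algebraMap k K c = y i / y j := by
      have h1 : IsIntegral k (y i / y j) := halg.isIntegral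
      obtain ⟨c, hc⟩ := IsAlgClosed.exists_aeval_eq_zero k (minpoly k (y i / y j))
        (by
          intro h0
          exact (minpoly.degree_pos h1).ne' h0)
      have h2 : (minpoly k (y i / y j)).IsRoot c := by
        rw [Polynomial.IsRoot, ← Polynomial.coe_aeval_eq_eval]
        exact hc
      have h3 := Polynomial.degree_eq_one_of_irreducible_of_root (minpoly.irreducible h1) h2
      exact minpoly.mem_range_of_degree_eq_one k _ h3
    have h1 : algebraMap k K 1 * y i + algebraMap k K (-c) * y j = 0 := by
      rw [map_one, map_neg, hc]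
      field_simp
      ring
    exact one_ne_zero (hno 1 (-c) h1).1
  · rw [eq_top_iff, ← hgen]
    unfold coords
    rw [IntermediateField.adjoin_le_iff]
    have h1 : ∀ l, y l / y j ∈ IntermediateField.adjoin k {y i / y j} := by
      intro l
      have h2 : y l / y j = (algebraMap k K (x l * x' j - x j * x' l) * (y i / y j) +
          algebraMap k K (x i * x' l - x l * x' i)) / algebraMap k K δ := by
        rw [eq_div_iff hδK]
        have h3 := hyl l
        generalize algebraMap k K (x l * x' j - x j * x' l) = A at h3 ⊢
        generalize algebraMap k K (x i * x' l - x l * x' i) = B at h3 ⊢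
        field_simp
        linear_combination h3
      rw [h2]
      refine div_mem (add_mem (mul_mem (IntermediateField.algebraMap_mem _ _)
        (IntermediateField.mem_adjoin_simple_self k _)) (IntermediateField.algebraMap_mem _ _))
        (IntermediateField.algebraMap_mem _ _)
    rintro _ ⟨l, l', hl', rfl⟩
    have h3 := div_mem (h1 l) (h1 l')
    rwa [div_div_div_cancel_right₀ hyj] at h3

/-- the dimension of a line -/
theorem dim_of_rat {s : K} (hs : Transcendental k s)
    (htop : IntermediateField.adjoin k {s} = ⊤) : Algebra.trdeg k K = (1 : ℕ) := by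
  have hfin : FiniteDimensional (IntermediateField.adjoin k {s}) K := by
    rw [htop]
    apply FiniteDimensional.of_finrank_pos
    rw [IntermediateField.finrank_top]
    exact one_pos
  have hFF : IsFF k K := IsFF.of_finite hs hfin
  rw [Nat.cast_one]
  exact IsFF.trdeg (k := k) (K := K)

variable [IsAlgClosed k] [CharZero k]

/-- **Special subvarieties.** -/
theorem special_iff (hm : 2 ≤ m) (hnm : n < 2 * m) (hN : 4 * n + (n + 1) ^ 2 < 2 * (N + 1))
    {a : Fin (N + 1) → k} (ha : Function.Injective a) {U : Set (Fin (N + 1))}
    {y : Fin (N + 1) → K} (hy : SubVar (buchi a n m) K w y) (hyU : ∀ j ∈ U, y j ≠ 0) :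
    Special k K w (OffU U y) ↔ IsPoint k y ∨ (U.ncard ≤ 2 ∧ IsLine k y) := by
  classical
  have hinf : Infinite k := inferInstance
  constructor
  · intro hs
    rcases special_core hm hnm hN ha hy hyU hs with rfl | ⟨rfl, hU, t, z, hyz, hij, ht, hz⟩
    · exact Or.inl (isPoint_of_alg hy.ne hy.dim)
    · exact Or.inr ⟨hU, isLine_of_str ha hyz hij ht hz⟩
  · rintro (h | ⟨hU, h⟩) p hp hb
    · have h1 := h.dim_zero hy.gen
      rw [hy.dim] at h1
      have h2 : w = 0 := by exact_mod_cast h1
      have h3 := bog_le hy.dim hb
      omega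
    · obtain ⟨s, hs, htop⟩ := h.rat hy.gen
      have h1 := dim_of_rat hs htop
      rw [hy.dim] at h1
      obtain rfl : w = 1 := by exact_mod_cast h1
      have h3 := bog_le hy.dim hb
      obtain rfl : p = 1 := by omega
      have h4 := lgt_of_bog hy.dim hb
      have hs' : Transcendental (⊥ : IntermediateField k K) s := by
        intro halg
        apply hs
        have h5 : Algebra.IsAlgebraic k (⊥ : IntermediateField k K) := inferInstance
        exact halg.restrictScalars k
      have hgt : ¬ GeneralType k K 1 := not_gt_ruled hs' (adjoin_mono_top' htop) 1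
      obtain ⟨-, t, z, hyz, -, -, htr, htop'⟩ := structure_thm hm hnm hN ha hy hgt
      rcases U_cases U with hj | ⟨j1, j2, hU'⟩
      · have := (three_iff U).2 hj
        omega
      · exact not_lgt_str hU' ha hyz hyU htr htop' 1 h4

end Pool.Agent.Y216.SV
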