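import Mathlib

/-!
Polynomials without multiple roots of high order; minors.
-/

set_option autoImplicit false

open Polynomial

namespace Pool.Agent.Y216.SV

section poly

variable {k : Type} [Field k] {m : ℕ}

theorem lin_or {l : k[X]} (hl : l.natDegree ≤ 1) (h0 : l ≠ 0) :
    (∃ c : k, c ≠ 0 ∧ l = C c) ∨ (l.natDegree = 1 ∧ Irreducible l) := by
  rcases Nat.lt_or_ge 0 l.natDegree with h | h
  · have h1 : l.natDegree = 1 := by omega
    refine Or.inr ⟨h1, ?_⟩
    exact irreducible_of_degree_eq_one (by rw [degree_eq_natDegree h0, h1]; rfl)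
  · have h1 : l.natDegree = 0 := by omega
    obtain ⟨c, hc⟩ := natDegree_eq_zero.1 h1
    refine Or.inl ⟨c, ?_, hc.symm⟩
    rintro rfl
    apply h0
    rw [← hc, C_0]

/-- uniqueness of the part without `m`-fold roots -/
theorem free_part (hm : 1 ≤ m) {l1 l2 G1 G2 : k[X]} (h1 : l1.natDegree ≤ 1)
    (h2 : l2.natDegree ≤ 1) (hG1 : G1.natDegree < m) (hG2 : G2.natDegree < m)
    (h : l1 ^ m * G1 = l2 ^ m * G2) (hne : l1 ^ m * G1 ≠ 0) :
    ∃ c : k, c ≠ 0 ∧ G2 = C c * G1 := by
  have hl1 : l1 ≠ 0 := by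
    rintro rfl
    rw [zero_pow (by omega), zero_mul] at hne
    exact hne rfl
  have hG1' : G1 ≠ 0 := right_ne_zero_of_mul hne
  have hne2 : l2 ^ m * G2 ≠ 0 := h ▸ hne
  have hl2 : l2 ≠ 0 := by
    rintro rfl
    rw [zero_pow (by omega), zero_mul] at hne2
    exact hne2 rfl
  have hG2' : G2 ≠ 0 := right_ne_zero_of_mul hne2
  have hdeg : m * l1.natDegree + G1.natDegree = m * l2.natDegree + G2.natDegree := by
    rw [← natDegree_pow, ← natDegree_pow, ← natDegree_mul (pow_ne_zero _ hl1) hG1',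
      ← natDegree_mul (pow_ne_zero _ hl2) hG2', h]
  rcases lin_or h1 hl1 with ⟨c1, hc1, rfl⟩ | ⟨hd1, hi1⟩
  · rcases lin_or h2 hl2 with ⟨c2, hc2, rfl⟩ | ⟨hd2, hi2⟩
    · refine ⟨c1 ^ m / c2 ^ m, div_ne_zero (pow_ne_zero _ hc1) (pow_ne_zero _ hc2), ?_⟩
      have h3 : C (c2 ^ m) * G2 = C (c1 ^ m) * G1 := by rw [C_pow, C_pow]; exact h.symm
      have h4 : G2 = C (c2 ^ m)⁻¹ * (C (c2 ^ m) * G2) := by
        rw [← mul_assoc, ← C_mul, inv_mul_cancel₀ (pow_ne_zero _ hc2), C_1, one_mul]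
      rw [h4, h3, ← mul_assoc, ← C_mul]
      congr 2
      rw [div_eq_inv_mul]
    · exfalso
      rw [natDegree_C, hd2] at hdeg
      omega
  · rcases lin_or h2 hl2 with ⟨c2, hc2, rfl⟩ | ⟨hd2, hi2⟩
    · exfalso
      rw [natDegree_C, hd1] at hdeg
      omega
    · by_cases hdvd : l1 ∣ l2
      · obtain ⟨q, rfl⟩ := hdvd
        have hq0 : q ≠ 0 := right_ne_zero_of_mul hl2
        have hq : q.natDegree = 0 := by
          rw [natDegree_mul hl1 hq0, hd1] at hd2
          omega
        obtain ⟨c, rfl⟩ := natDegree_eq_zero.1 hq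
        have hc : c ≠ 0 := by
          rintro rfl
          exact hq0 C_0
        have h3 : G1 = C (c ^ m) * G2 := by
          apply mul_left_cancel₀ (pow_ne_zero m hl1)
          rw [h, mul_pow, C_pow]
          ring
        refine ⟨(c ^ m)⁻¹, inv_ne_zero (pow_ne_zero _ hc), ?_⟩
        rw [h3, ← mul_assoc, ← C_mul, inv_mul_cancel₀ (pow_ne_zero _ hc), C_1, one_mul]
      · exfalso
        have h3 : IsCoprime (l1 ^ m) (l2 ^ m) := ((hi1.coprime_iff_not_dvd).2 hdvd).pow
        have h4 : l1 ^ m ∣ G2 := h3.dvd_of_dvd_mul_left ⟨G1, h.symm⟩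
        have h5 := natDegree_le_of_dvd h4 hG2'
        rw [natDegree_pow, hd1] at h5
        omega

/-- two polynomials whose products with `m`-th powers of different linear polynomials agree up to
factors of degree at most `m` -/
theorem free_pair {A B G0 G1 : k[X]} (hA : A.natDegree ≤ m) (hB : B.natDegree ≤ m)
    (hAB : A ≠ 0 ∨ B ≠ 0) {t0 t1 : k} (ht : t0 ≠ t1) (h0 : G0.eval t1 ≠ 0) (h1 : G1.eval t0 ≠ 0)
    (h : A * ((X - C t0) ^ m * G0) = B * ((X - C t1) ^ m * G1)) :
    ∃ c : k, c ≠ 0 ∧ G1 = C c * G0 := by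
  have hG0 : G0 ≠ 0 := by rintro rfl; simp at h0
  have hG1 : G1 ≠ 0 := by rintro rfl; simp at h1
  have hx0 : (X - C t0) ^ m ≠ (0 : k[X]) := pow_ne_zero _ (X_sub_C_ne_zero t0)
  have hx1 : (X - C t1) ^ m ≠ (0 : k[X]) := pow_ne_zero _ (X_sub_C_ne_zero t1)
  have hcop : IsCoprime (X - C t1 : k[X]) (X - C t0) := by
    apply isCoprime_X_sub_C_of_isUnit_sub
    exact (sub_ne_zero.2 ht.symm).isUnit
  have hcop0 : IsCoprime (X - C t1 : k[X]) G0 := by
    rw [(irreducible_X_sub_C t1).coprime_iff_not_dvd, dvd_iff_isRoot]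
    exact h0
  have hcop1 : IsCoprime (X - C t0 : k[X]) G1 := by
    rw [(irreducible_X_sub_C t0).coprime_iff_not_dvd, dvd_iff_isRoot]
    exact h1
  have hdA : (X - C t1) ^ m ∣ A := by
    have h2 : IsCoprime ((X - C t1) ^ m : k[X]) ((X - C t0) ^ m * G0) :=
      (hcop.pow (m := m) (n := m)).mul_right hcop0.pow_left
    exact h2.dvd_of_dvd_mul_right ⟨B * G1, by rw [h]; ring⟩
  have hdB : (X - C t0) ^ m ∣ B := by
    have h2 : IsCoprime ((X - C t0) ^ m : k[X]) ((X - C t1) ^ m * G1) :=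
      (hcop.symm.pow (m := m) (n := m)).mul_right hcop1.pow_left
    exact h2.dvd_of_dvd_mul_right ⟨A * G0, by rw [← h]; ring⟩
  obtain ⟨A', rfl⟩ := hdA
  obtain ⟨B', rfl⟩ := hdB
  have h3 : A' * G0 = B' * G1 := by
    apply mul_left_cancel₀ (mul_ne_zero hx0 hx1)
    linear_combination h
  have hA' : ∃ c, A' = C c := by
    by_cases h0 : A' = 0
    · exact ⟨0, by rw [h0, C_0]⟩
    · rw [natDegree_mul hx1 h0, natDegree_pow, natDegree_X_sub_C] at hA
      obtain ⟨c, hc⟩ := natDegree_eq_zero.1 (show A'.natDegree = 0 by omega)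
      exact ⟨c, hc.symm⟩
  have hB' : ∃ c, B' = C c := by
    by_cases h0 : B' = 0
    · exact ⟨0, by rw [h0, C_0]⟩
    · rw [natDegree_mul hx0 h0, natDegree_pow, natDegree_X_sub_C] at hB
      obtain ⟨c, hc⟩ := natDegree_eq_zero.1 (show B'.natDegree = 0 by omega)
      exact ⟨c, hc.symm⟩
  obtain ⟨α, rfl⟩ := hA'
  obtain ⟨β, rfl⟩ := hB'
  have hα : α ≠ 0 := by
    rintro rfl
    rw [C_0, zero_mul] at h3
    have h4 := (mul_eq_zero.1 h3.symm).resolve_right hG1
    rcases hAB with h5 | h5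
    · exact h5 (by rw [C_0, mul_zero])
    · exact h5 (by rw [h4, mul_zero])
  have hβ : β ≠ 0 := by
    rintro rfl
    rw [C_0, zero_mul] at h3
    have h4 := (mul_eq_zero.1 h3).resolve_right hG0
    exact hα (C_eq_zero.1 h4)
  refine ⟨α / β, div_ne_zero hα hβ, ?_⟩
  have h4 : G1 = C β⁻¹ * (C β * G1) := by
    rw [← mul_assoc, ← C_mul, inv_mul_cancel₀ hβ, C_1, one_mul]
  rw [h4, ← h3, ← mul_assoc, ← C_mul, div_eq_inv_mul]

end poly

/-- if all maximal minors vanish, then the columns are linearly dependent -/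
theorem kernel_of_minors {R D : Type} [Fintype R] [Fintype D] [DecidableEq D]
    (M : Matrix R D ℂ) (h : ∀ e : D → R, (M.submatrix e id).det = 0) :
    ∃ v : D → ℂ, v ≠ 0 ∧ M.mulVec v = 0 := by
  classical
  by_contra hcon
  push Not at hcon
  -- the rows span
  have hspan : Submodule.span ℂ (Set.range fun i => M i) = ⊤ := by
    by_contra hne
    obtain ⟨φ, hφ0, hφ⟩ := Submodule.exists_le_ker_of_lt_top _ (lt_top_iff_ne_top.2 hne)
    let v : D → ℂ := fun j => φ (Pi.single j 1)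
    have hv : ∀ x : D → ℂ, φ x = ∑ j, x j * v j := by
      intro x
      have h1 : x = ∑ j, x j • (Pi.single j (1 : ℂ) : D → ℂ) := by
        funext j
        simp [Finset.sum_apply, Pi.single_apply]
      conv_lhs => rw [h1]
      rw [map_sum]
      refine Finset.sum_congr rfl fun j _ => ?_
      rw [map_smul, smul_eq_mul]
    apply hcon v
    · intro h0
      apply hφ0
      ext x
      simp only [LinearMap.coe_comp, LinearMap.coe_single, Function.comp_apply,
        LinearMap.zero_apply]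
      exact congrFun h0 x
    · funext i
      have h1 : φ (M i) = 0 := hφ (Submodule.subset_span ⟨i, rfl⟩)
      rw [hv] at h1
      exact h1
  obtain ⟨b, hb, hbs, hbl⟩ := exists_linearIndependent ℂ (Set.range fun i => M i)
  rw [hspan] at hbs
  have hbfin : b.Finite := (Set.finite_range _).subset hb
  have hbf : Fintype b := hbfin.fintype
  let B : Module.Basis b ℂ (D → ℂ) := Module.Basis.mk hbl (by
    rw [Subtype.range_coe_subtype, Set.ofPred_mem_eq, hbs])
  have hcard : Fintype.card b = Fintype.card D := by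
    rw [← Module.finrank_eq_card_basis B, Module.finrank_fintype_fun_eq_card]
  obtain ⟨eq⟩ : Nonempty (D ≃ b) := ⟨Fintype.equivOfCardEq hcard.symm⟩
  have hch : ∀ j : D, ∃ i, M i = (eq j : D → ℂ) := fun j => hb (eq j).2
  choose e he using hch
  have h1 := h e
  obtain ⟨w, hw0, hw⟩ := Matrix.exists_vecMul_eq_zero_iff.2 h1
  apply hw0
  have h2 : LinearIndependent ℂ fun j : D => ((eq j : b) : D → ℂ) :=
    hbl.comp eq eq.injective
  have h3 := Fintype.linearIndependent_iff.1 h2 w (by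
    funext l
    have h4 := congrFun hw l
    simp only [Matrix.vecMul, dotProduct, Matrix.submatrix_apply, id, Pi.zero_apply] at h4
    simp only [Finset.sum_apply, Pi.smul_apply, smul_eq_mul, Pi.zero_apply]
    rw [← h4]
    refine Finset.sum_congr rfl fun j _ => ?_
    rw [he j])
  funext j
  exact h3 j

end Pool.Agent.Y216.SV
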