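import Pool.Agent.Y216.SV.Geo
import Pool.Agent.TH143.GT.Fam

/-!
Closed subvarieties of the power value varieties with a dense set of rational points over a finitely
generated field.
-/

set_option autoImplicit false

open FF Pool.Agent.W603.LV Pool.Agent.W602.GT Pool.Agent.Y190.BV Pool.Agent.Y190.QP
  Pool.Agent.Y190.GN

namespace Pool.Agent.Y216.SV

/-- The points of the projective variety with generic point `y` with coordinates in the field
generated by some finite set over `k0` are dense. -/
def DenseOver {k : Type} [Field k] {N : ℕ} {K : Type} [Field K] [Algebra k K]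
    (y : Fin (N + 1) → K) (k0 : Subfield k) : Prop :=
  ∃ T : Finset k, ∀ G : MvPolynomial (Fin (N + 1)) k, IsForm G →
    (∀ x ∈ VarPts k y, (∀ i, x i ∈ Subfield.closure ((k0 : Set k) ∪ (T : Set k))) →
      val x G = 0) → val y G = 0

variable {k : Type} [Field k] {N n m w : ℕ} {K : Type} [Field K] [Algebra k K]

theorem Moving.mono {k0 : Subfield k} {a : Fin (N + 1) → k} {n' : ℕ} (h : Moving k0 a n)
    (hn : n' ≤ n) : Moving k0 a n' := by
  obtain ⟨s, C, S, hs, hC, hCk, hS, hSk⟩ := h
  exact ⟨s, C, S, hs, by omega, hCk, by omega, hSk⟩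

theorem val_mulf (y : Fin (N + 1) → K) (G H : MvPolynomial (Fin (N + 1)) k) :
    val y (G * H) = val y G * val y H := map_mul _ _ _

theorem IsForm.mul' {G H : MvPolynomial (Fin (N + 1)) k} (hG : IsForm G) (hH : IsForm H) :
    IsForm (G * H) := by
  obtain ⟨d, hd⟩ := hG
  obtain ⟨e, he⟩ := hH
  exact ⟨d + e, hd.mul he⟩

theorem IsForm.prod' {ι : Type} (s : Finset ι) (G : ι → MvPolynomial (Fin (N + 1)) k)
    (h : ∀ i ∈ s, IsForm (G i)) : IsForm (∏ i ∈ s, G i) := by
  classical
  induction s using Finset.induction_on with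
  | empty => exact ⟨0, by simpa using MvPolynomial.isHomogeneous_one (Fin (N + 1)) k⟩
  | insert i s hi ih =>
    rw [Finset.prod_insert hi]
    exact IsForm.mul' (h i (Finset.mem_insert_self i s))
      (ih fun j hj => h j (Finset.mem_insert_of_mem hj))

/-- a point of a variety of positive dimension is the zero of a form that does not vanish on the
variety -/
theorem sep_point {y : Fin (N + 1) → K} (hgen : coords k y = ⊤)
    (hdim : Algebra.trdeg k K ≠ (0 : ℕ)) {x : Fin (N + 1) → k} (hx : x ≠ 0) :
    ∃ i j, val y (relXY x i j) ≠ 0 := by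
  by_contra hcon
  push Not at hcon
  apply hdim
  obtain ⟨j, hj⟩ := Function.ne_iff.1 hx
  have hj' : x j ≠ 0 := hj
  have h1 : ∀ i, y i = algebraMap k K (x i / x j) * y j := by
    intro i
    have h2 := hcon i j
    rw [val_relXY] at h2
    have h3 : algebraMap k K (x j) ≠ 0 := by rw [Ne, map_eq_zero]; exact hj'
    rw [map_div₀]
    field_simp
    linear_combination h2
  have h2 : coords k y = ⊥ := by
    rw [eq_bot_iff]
    unfold coords
    rw [IntermediateField.adjoin_le_iff]
    rintro _ ⟨i, l, hl, rfl⟩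
    have hyj : y j ≠ 0 := by
      intro h0
      apply hl
      rw [h1 l, h0, mul_zero]
    rw [h1 i, h1 l, mul_div_mul_right _ _ hyj, ← map_div₀]
    exact IntermediateField.algebraMap_mem _ _
  rw [hgen] at h2
  rw [Nat.cast_zero, trdeg_eq_zero_iff]
  refine ⟨fun x => ?_⟩
  have h3 : x ∈ (⊥ : IntermediateField k K) := by
    rw [← h2]
    exact IntermediateField.mem_top
  obtain ⟨c, rfl⟩ := IntermediateField.mem_bot.1 h3
  exact isAlgebraic_algebraMap c

/-- a form that vanishes at finitely many points -/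
theorem sep_fin {y : Fin (N + 1) → K} (hgen : coords k y = ⊤)
    (hdim : Algebra.trdeg k K ≠ (0 : ℕ)) {S : Set (Projectivization k (Fin (N + 1) → k))}
    (hS : S.Finite) : ∃ Q : MvPolynomial (Fin (N + 1)) k, IsForm Q ∧ val y Q ≠ 0 ∧
      ∀ (x : Fin (N + 1) → k) (hx : x ≠ 0), Projectivization.mk k x hx ∈ S → val x Q = 0 := by
  classical
  have h1 : ∀ p : Projectivization k (Fin (N + 1) → k), ∃ i j,
      val y (relXY p.rep i j) ≠ 0 := fun p => sep_point hgen hdim p.rep_nonzero
  choose i j hij using h1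
  refine ⟨∏ p ∈ hS.toFinset, relXY p.rep (i p) (j p),
    IsForm.prod' _ _ fun p _ => relXY_form _ _ _, ?_, ?_⟩
  · unfold val
    rw [map_prod]
    exact Finset.prod_ne_zero_iff.2 fun p _ => hij p
  · intro x hx hxS
    unfold val
    rw [map_prod]
    refine Finset.prod_eq_zero (hS.mem_toFinset.2 hxS) ?_
    obtain ⟨c, hc⟩ := Projectivization.exists_smul_eq_mk_rep k x hx
    have h2 := val_relXY (Projectivization.mk k x hx).rep (i (Projectivization.mk k x hx))
      (j (Projectivization.mk k x hx)) x
    unfold val at h2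
    rw [h2, ← hc]
    simp only [Algebra.algebraMap_self, RingHom.id_apply, Pi.smul_apply]
    rw [Units.smul_def, Units.smul_def, smul_eq_mul, smul_eq_mul]
    ring

variable [IsAlgClosed k] [CharZero k]

set_option linter.unusedSectionVars false

theorem cone_sub {a : Fin (N + 1) → k} (ha : Function.Injective a) (hn : n ≤ N)
    {y : Fin (N + 1) → K} (hy : ∀ l : Rel a n, val y (buchi a n m l) = 0) :
    Cone (eqs (K := k) y) ⊆ PowVal a n m := by
  rw [← cone_buchi ha hn]
  rintro x ⟨hx0, hx⟩
  exact ⟨hx0, fun l => hx ⟨buchi a n m l, isForm_buchi a n m l, hy l⟩⟩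

/-- a line contained in the variety, from the structure -/
theorem line_of_core [Infinite k] {a : Fin (N + 1) → k} (ha : Function.Injective a)
    {y z : Fin (N + 1) → K} {t : K} (hyz : ∀ i, y i = (algebraMap k K (a i) - t) * z i)
    (hij : ∃ i j, i ≠ j ∧ z i ≠ 0 ∧ z j ≠ 0) (htr : Transcendental (coords k z) t)
    (h0 : Algebra.trdeg k (coords k z) = (0 : ℕ)) : IsLine k y := by
  refine isLine_of_str ha hyz hij (fun halg => htr (halg.tower_top (coords k z))) ?_
  intro i j hj
  have h1 : Algebra.IsAlgebraic k (coords k z) := by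
    rw [Nat.cast_zero, trdeg_eq_zero_iff] at h0
    exact h0
  have h2 : z i / z j ∈ coords k z := IntermediateField.subset_adjoin k _ ⟨i, j, hj, rfl⟩
  have h3 : Algebra.IsIntegral k (coords k z) := Algebra.isAlgebraic_iff_isIntegral.1 h1
  obtain ⟨c, hc⟩ := (IsAlgClosed.algebraMap_bijective_of_isIntegral (k := k)
    (K := coords k z)).2 ⟨_, h2⟩
  refine ⟨c, ?_⟩
  have h4 := congrArg (fun x : coords k z => (x : K)) hc
  simp only at h4
  have h5 : algebraMap k K c = z i / z j := h4
  rw [h5]
  field_simp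

/-- **Dense rational points.** A closed subvariety of a generic power value variety whose rational
points over some finitely generated extension of `k0` are dense is a point or a line. -/
theorem point_or_line_of_dense (hm : 2 ≤ m) (hn1 : 1 ≤ n) (hnm : n < 2 * m)
    (hN : 4 * n + (n + 1) ^ 2 < 2 * (N + 1)) {a : Fin (N + 1) → k} (ha : Function.Injective a)
    {k0 : Subfield k} (hk : Moving k0 a n) {y : Fin (N + 1) → K}
    (hy : SubVar (buchi a n m) K w y) (hd : DenseOver y k0) : IsPoint k y ∨ IsLine k y := by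
  classical
  have hinf : Infinite k := inferInstance
  have hn : n ≤ N := by nlinarith
  rcases Nat.eq_zero_or_pos w with hw | hw
  · subst hw
    exact Or.inl (isPoint_of_alg hy.ne hy.dim)
  right
  have hdim : Algebra.trdeg k K ≠ (0 : ℕ) := by
    rw [hy.dim]
    intro h
    have h1 : w = 0 := by exact_mod_cast h
    omega
  obtain ⟨T, hT⟩ := hd
  have hsub := cone_sub ha hn (m := m) hy.mem
  have hF : ∀ e, IsForm (eqs (K := k) y e) := fun e => e.2.1
  have hsv : SubVar (eqs (K := k) y) K w y := ⟨hy.ne, fun e => e.2.2, hy.gen, hy.dim⟩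
  -- it is not of general type
  have hgt : ¬ GeneralType k K w := by
    intro h
    have heq := lang_equiv hm hnm hN ha hF (by rw [cone_buchi ha hn]; exact hsub) hw hsv
      (fun G hG => gen_eqs hy.ne G hG)
    have h1 := (heq.out 0 3).1 h
    obtain ⟨x, hx, hxn⟩ : ∃ x ∈ Cone (eqs (K := k) y), x ∉ SpLine (eqs (K := k) y) := by
      by_contra hcon
      push Not at hcon
      exact h1 (Set.Subset.antisymm (fun x hx => hx.1) hcon)
    obtain ⟨G, hG, hall, hGx⟩ : ∃ G : MvPolynomial (Fin (N + 1)) k, IsForm G ∧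
        (∀ p q, Line (eqs (K := k) y) p q → ∀ c c' : k, val (c • p + c' • q) G = 0) ∧
        val x G ≠ 0 := by
      by_contra hcon
      push Not at hcon
      exact hxn ⟨hx, fun G hG h => hcon G hG h⟩
    obtain ⟨Q, hQ, hQy, hQS⟩ := sep_fin hy.gen hdim (off_fin hm hn1 hnm ha hk hF hsub T)
    have h2 : val y (G * Q) = 0 := by
      refine hT _ (IsForm.mul' hG hQ) fun x' hx' hxT => ?_
      rw [val_mulf]
      by_cases hon : OnLine (eqs (K := k) y) x'
      · obtain ⟨p, q, hpq, c, c', rfl⟩ := hon
        rw [hall p q hpq c c', zero_mul]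
      · rw [hQS x' hx'.1 ⟨x', by rw [cone_eqs]; exact hx', hon, hxT, hx'.1, rfl⟩, mul_zero]
    rw [val_mulf] at h2
    have h3 := (mul_eq_zero.1 h2).resolve_right hQy
    exact hGx ((gen_eqs hy.ne G hG).1 h3 x hx)
  obtain ⟨hmn, w', t, z, rfl, hyz, hz, ⟨i0, j0, hij0, hi0, hj0⟩, htr, -, hgtM, -⟩ :=
    core hm hnm hN ha hy hgt
  refine line_of_core ha hyz ⟨i0, j0, hij0, hi0, hj0⟩ htr ?_
  by_contra hne
  obtain ⟨u, hu, hu0, hgen, hgen'⟩ := coords_fg (k := k) hi0
  have hval : ∀ G : MvPolynomial (Fin (N + 1)) k, ((val u G : coords k z) : K) =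
      val (fun i => (u i : K)) G := by
    intro G
    unfold val
    exact (MvPolynomial.aeval_algebraMap_apply (R := k) (A := coords k z) (B := K) u G).symm
  have hune : u ≠ 0 := fun h0 => by
    have := congrFun h0 i0
    rw [hu0] at this
    exact one_ne_zero this
  have hum : ∀ l : Rel a (n - m), val u (buchi a (n - m) m l) = 0 := by
    intro l
    apply Subtype.ext
    have h2 := hz l
    have h3 : z = fun l => z i0 * (u l : K) := funext hu
    obtain ⟨d, hd⟩ := isForm_buchi a (n - m) m l
    rw [h3, val_smul hd] at h2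
    rw [hval]
    exact (mul_eq_zero.1 h2).resolve_left (pow_ne_zero _ hi0)
  -- the base lies in a power value variety without lines
  set n' := max 1 (n - m) with hn'
  have hn'1 : 1 ≤ n' := le_max_left _ _
  have hn'm : n' < m := by
    rw [hn', max_lt_iff]
    omega
  have hn'n : n' ≤ n := by omega
  have hW : Cone (eqs (K := k) u) ⊆ PowVal a n' m := by
    refine (cone_sub ha (by omega) hum).trans ?_
    rintro x ⟨hx0, H, hH, hx⟩
    exact ⟨hx0, H, hH.trans (le_max_right _ _), hx⟩
  have hN' : 4 * n' + (n' + 1) ^ 2 < 2 * (N + 1) := by nlinarith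
  have hFu : ∀ e, IsForm (eqs (K := k) u e) := fun e => e.2.1
  have hnl : ∀ p q, ¬ Line (eqs (K := k) u) p q := by
    refine (general_iff hm (by omega) hN' ha hFu hW).1 ?_
    intro L _ _ w'' v _ hv
    by_contra hcon
    have hv' : SubVar (buchi a n' m) L w'' v := ⟨hv.ne, sub_ext (by
      rw [cone_buchi ha (by omega)]; exact hW) hv.ne hv.mem, hv.gen, hv.dim⟩
    have := (structure_thm hm (by omega) hN' ha hv' hcon).1
    omega
  -- the rational map to the base
  have hfr : ∀ l, ∃ (d : ℕ) (A B : MvPolynomial (Fin (N + 1)) k), A.IsHomogeneous d ∧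
      B.IsHomogeneous d ∧ val y B ≠ 0 ∧ (u l : K) = val y A / val y B := fun l =>
    Pool.Agent.TH143.GT.exists_frac hy.gen _
  choose d A B hA hB hBy hAB using hfr
  let E : MvPolynomial (Fin (N + 1)) k := ∏ l, B l
  let C : Fin (N + 1) → MvPolynomial (Fin (N + 1)) k := fun l =>
    A l * ∏ l' ∈ Finset.univ.erase l, B l'
  have hE : val y E ≠ 0 := by
    unfold val
    simp only [E]
    rw [map_prod]
    exact Finset.prod_ne_zero_iff.2 fun p _ => hBy p
  have hBE : ∀ l, B l * ∏ l' ∈ Finset.univ.erase l, B l' = E := fun l =>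
    Finset.mul_prod_erase _ _ (Finset.mem_univ l)
  have hCy : ∀ l, val y (C l) = val y E * (u l : K) := by
    intro l
    rw [hAB l, ← hBE l]
    simp only [C]
    rw [val_mulf, val_mulf]
    field_simp [hBy l]
  have hCh : ∀ l, (C l).IsHomogeneous (∑ l, d l) := by
    intro l
    have h1 := (hA l).mul (MvPolynomial.IsHomogeneous.prod (Finset.univ.erase l) B d
      fun i _ => hB i)
    rwa [Finset.add_sum_erase _ _ (Finset.mem_univ l)] at h1
  have hEh : IsForm E := ⟨_, MvPolynomial.IsHomogeneous.prod Finset.univ B d fun i _ => hB i⟩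
  -- composition
  let cmp : MvPolynomial (Fin (N + 1)) k → MvPolynomial (Fin (N + 1)) k := fun G =>
    MvPolynomial.aeval C G
  have hcmpf : ∀ G : MvPolynomial (Fin (N + 1)) k, IsForm G → IsForm (cmp G) := by
    rintro G ⟨e, he⟩
    exact ⟨_, he.aeval (fun i => C i) hCh⟩
  have hcmpv : ∀ {R : Type} [Field R] [Algebra k R] (v : Fin (N + 1) → R)
      (G : MvPolynomial (Fin (N + 1)) k), val v (cmp G) = val (fun l => val v (C l)) G := by
    intro R _ _ v G
    unfold val
    simp only [cmp]
    have h2 : (MvPolynomial.aeval v : MvPolynomial (Fin (N + 1)) k →ₐ[k] R).comp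
        (MvPolynomial.aeval C) = MvPolynomial.aeval fun l => MvPolynomial.aeval v (C l) := by
      apply MvPolynomial.algHom_ext
      intro i
      simp only [AlgHom.comp_apply, MvPolynomial.aeval_X]
    rw [← h2]
    rfl
  have hcmpy : ∀ G : MvPolynomial (Fin (N + 1)) k, IsForm G →
      (val y (cmp G) = 0 ↔ val u G = 0) := by
    rintro G ⟨e, he⟩
    rw [hcmpv]
    have h1 : (fun l => val y (C l)) = fun l => val y E * (u l : K) := funext hCy
    rw [h1, val_smul he, ← hval]
    simp [hE]
  -- the points of the base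
  let T' : Finset k := T ∪ Finset.univ.biUnion fun l => (C l).support.image fun e => (C l).coeff e
  have hTT : ∀ x : k, x ∈ Subfield.closure ((k0 : Set k) ∪ (T : Set k)) →
      x ∈ Subfield.closure ((k0 : Set k) ∪ (T' : Set k)) := by
    intro x hx
    refine Subfield.closure_mono (Set.union_subset_union_right _ ?_) hx
    intro c hc
    exact Finset.mem_coe.2 (Finset.mem_union_left _ (Finset.mem_coe.1 hc))
  have hCT : ∀ (x : Fin (N + 1) → k), (∀ i, x i ∈ Subfield.closure ((k0 : Set k) ∪ (T : Set k))) →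
      ∀ l, val x (C l) ∈ Subfield.closure ((k0 : Set k) ∪ (T' : Set k)) := by
    intro x hx l
    unfold val
    rw [MvPolynomial.aeval_def, MvPolynomial.eval₂_eq]
    refine sum_mem fun e he => mul_mem ?_ (prod_mem fun i _ => pow_mem (hTT _ (hx i)) _)
    apply Subfield.subset_closure
    right
    exact Finset.mem_coe.2 (Finset.mem_union_right _ (Finset.mem_biUnion.2
      ⟨l, Finset.mem_univ _, Finset.mem_image.2 ⟨e, he, rfl⟩⟩))
  have hdimM : Algebra.trdeg k (coords k z) ≠ (0 : ℕ) := hne
  obtain ⟨Q, hQ, hQu, hQS⟩ := sep_fin hgen' hdimM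
    (off_fin hm hn'1 (by omega) ha (Moving.mono hk hn'n) hFu hW T')
  have h1 : val y (E * cmp Q) = 0 := by
    refine hT _ (IsForm.mul' hEh (hcmpf Q hQ)) fun x hx hxT => ?_
    rw [val_mulf]
    by_cases hEx : val x E = 0
    · rw [hEx, zero_mul]
    rw [hcmpv]
    have hx' : (fun l => val x (C l)) ∈ VarPts k u := by
      refine ⟨?_, fun G hG h0 => ?_⟩
      · intro h0
        apply hEx
        have h2 : val y (C i0 - E) = 0 := by
          have h3 : val y (C i0 - E) = val y (C i0) - val y E := map_sub _ _ _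
          rw [h3, hCy, hu0]
          simp
        have h3 := hx.2 (C i0 - E) ⟨∑ l, d l, (hCh i0).sub
          (MvPolynomial.IsHomogeneous.prod Finset.univ B d fun i _ => hB i)⟩ h2
        have h4 : val x (C i0 - E) = val x (C i0) - val x E := map_sub _ _ _
        rw [h4] at h3
        have h5 := congrFun h0 i0
        simp only [Pi.zero_apply] at h5
        rw [h5, zero_sub, neg_eq_zero] at h3
        exact h3
      · rw [← hcmpv]
        exact hx.2 _ (hcmpf G hG) ((hcmpy G hG).2 h0)
    rw [hQS _ hx'.1 ⟨_, by rw [cone_eqs]; exact hx', fun ⟨p, q, hpq, _⟩ => hnl p q hpq,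
      hCT x hxT, hx'.1, rfl⟩, mul_zero]
  rw [val_mulf] at h1
  rcases mul_eq_zero.1 h1 with h2 | h2
  · exact hE h2
  · exact hQu ((hcmpy Q hQ).1 h2)

end Pool.Agent.Y216.SV
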