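import Pool.Agent.Y216.SV.Fin
import Pool.Agent.Y216.SV.Hpol
import Pool.Agent.Y216.SV.Pd

/-!
Chains of entire curves in the closed subvarieties of the power value varieties.
-/

set_option autoImplicit false

open Filter Topology Set Metric

namespace Pool.Agent.Y216.SV

open FF Pool.Agent.W603.LV Pool.Agent.W603.BP Pool.Agent.W601.PH Pool.Agent.Y190.BV
  Pool.Agent.W602.GT Pool.Agent.Y190.AN Pool.Agent.Y190.QP Pool.Agent.H159R3.GGLLog
  Pool.Agent.H159R3.NV Pool.Agent.Y190.GN

variable {N n m w : ℕ}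

section defs

variable (U : Set (Fin (N + 1))) {K : Type} [Field K] [Algebra ℂ K] (y : Fin (N + 1) → K)

/-- The cone over the quasi-projective variety `V \ {x_j = 0 for some j in U}`, where `V` is the
projective variety with generic point `y`. -/
def XC : Set (Fin (N + 1) → ℂ) :=
  {x | x ∈ VarPts ℂ y ∧ ∀ j ∈ U, x j ≠ 0}

/-- `x` and `x'` lie in the Zariski closure, in `V \ {x_j = 0 for some j in U}`, of the image of some
holomorphic map from the plane to this variety. -/
def Joined (x x' : Fin (N + 1) → ℂ) : Prop :=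
  x ∈ XC U y ∧ x' ∈ XC U y ∧ ∃ f : ℂ → Fin (N + 1) → ℂ, Differentiable ℂ f ∧
    (∀ z, f z ∈ XC U y) ∧ ∀ G : MvPolynomial (Fin (N + 1)) ℂ, IsForm G →
      (∀ z, val (f z) G = 0) → val x G = 0 ∧ val x' G = 0

/-- The variety `X = V \ {x_j = 0 for some j in U}` is h-special: the set of the pairs of points which
are joined by a chain of entire curves (each point of the chain and the next one lie in the Zariski
closure of the same entire curve) is Zariski dense in `X × X`. -/
def HSpecial : Prop :=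
  ∀ P : MvPolynomial (Fin (N + 1) ⊕ Fin (N + 1)) ℂ,
    (∀ x x', Relation.TransGen (Joined U y) x x' → MvPolynomial.aeval (Sum.elim x x') P = 0) →
    ∀ x ∈ XC U y, ∀ x' ∈ XC U y, MvPolynomial.aeval (Sum.elim x x') P = 0

end defs

/-- the structure of the lines -/
theorem line_str {k : Type} [Field k] [IsAlgClosed k] [CharZero k] {K : Type} [Field K]
    [Algebra k K] (hm : 2 ≤ m) (hnm : n < 2 * m) (hN : 4 * n + (n + 1) ^ 2 < 2 * (N + 1))
    {a : Fin (N + 1) → k} (ha : Function.Injective a) {y : Fin (N + 1) → K}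
    (hy : SubVar (buchi a n m) K w y) (h : IsLine k y) :
    m ≤ n ∧ ∃ (c : Fin (N + 1) → k) (G : Polynomial k), G.natDegree ≤ n - m ∧
      (∀ i, c i ^ m = G.eval (a i)) ∧
      ∀ x ∈ VarPts k y, ∃ α β : k, ∀ i, x i = (α * a i + β) * c i := by
  classical
  have hn : n ≤ N := by nlinarith
  obtain ⟨s, hs, htop⟩ := h.rat hy.gen
  have h1 := dim_of_rat hs htop
  rw [hy.dim] at h1
  obtain rfl : w = 1 := by exact_mod_cast h1
  have hs' : Transcendental (⊥ : IntermediateField k K) s := by
    intro halg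
    apply hs
    have h5 : Algebra.IsAlgebraic k (⊥ : IntermediateField k K) := inferInstance
    exact halg.restrictScalars k
  have hgt : ¬ GeneralType k K 1 := not_gt_ruled hs' (adjoin_mono_top' htop) 1
  obtain ⟨hmn, w', t, z, hw', hyz, hz, ⟨i0, j0, hij0, hi0, hj0⟩, htr, -, hgtM, -⟩ :=
    core hm hnm hN ha hy hgt
  obtain rfl : w' = 0 := by omega
  have halg : Algebra.IsAlgebraic k (coords k z) := by
    have h2 := hgtM.1
    rw [Nat.cast_zero, trdeg_eq_zero_iff] at h2
    exact h2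
  have hint : Algebra.IsIntegral k (coords k z) := Algebra.isAlgebraic_iff_isIntegral.1 halg
  have hc : ∀ i, ∃ c : k, z i = z i0 * algebraMap k K c := by
    intro i
    have h2 : z i / z i0 ∈ coords k z := IntermediateField.subset_adjoin k _ ⟨i, i0, hi0, rfl⟩
    obtain ⟨c, hc⟩ := (IsAlgClosed.algebraMap_bijective_of_isIntegral (k := k)
      (K := coords k z)).2 ⟨_, h2⟩
    refine ⟨c, ?_⟩
    have h4 := congrArg (fun x : coords k z => (x : K)) hc
    simp only at h4
    have h5 : algebraMap k K c = z i / z i0 := h4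
    rw [h5]
    field_simp
  choose c hc using hc
  have hc0 : c i0 ≠ 0 := by
    intro h0
    apply hi0
    rw [hc i0, h0, map_zero, mul_zero]
  have hcj : c j0 ≠ 0 := by
    intro h0
    apply hj0
    rw [hc j0, h0, map_zero, mul_zero]
  have hcone : c ∈ Cone (buchi a (n - m) m) := by
    refine ⟨fun h0 => hc0 (congrFun h0 i0), fun l => ?_⟩
    obtain ⟨d, hd⟩ := isForm_buchi a (n - m) m l
    have h2 := hz l
    have h3 : z = fun i => z i0 * algebraMap k K (c i) := funext hc
    rw [h3, val_smul hd, val_algMap] at h2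
    have h4 := (mul_eq_zero.1 h2).resolve_left (pow_ne_zero _ hi0)
    exact (map_eq_zero _).1 h4
  rw [cone_buchi ha (by omega)] at hcone
  obtain ⟨-, G, hG, hcG⟩ := hcone
  refine ⟨hmn, c, G, hG, hcG, fun x hx => ?_⟩
  have hij : a i0 - a j0 ≠ 0 := sub_ne_zero.2 fun h => hij0 (ha h)
  -- the linear relations
  have hrel : ∀ i, x i * (c i0 * c j0 * (a i0 - a j0)) =
      c i * ((a i - a j0) * c j0 * x i0 - (a i - a i0) * c i0 * x j0) := by
    intro i
    let L : MvPolynomial (Fin (N + 1)) k :=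
      MvPolynomial.C (c i0 * c j0 * (a i0 - a j0)) * MvPolynomial.X i -
        (MvPolynomial.C (c i * (a i - a j0) * c j0) * MvPolynomial.X i0 -
          MvPolynomial.C (c i * (a i - a i0) * c i0) * MvPolynomial.X j0)
    have hL : IsForm L := by
      refine ⟨1, ?_⟩
      have h1 := (MvPolynomial.isHomogeneous_C (Fin (N + 1)) (c i0 * c j0 * (a i0 - a j0))).mul
        (MvPolynomial.isHomogeneous_X k i)
      have h2 := (MvPolynomial.isHomogeneous_C (Fin (N + 1)) (c i * (a i - a j0) * c j0)).mul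
        (MvPolynomial.isHomogeneous_X k i0)
      have h3 := (MvPolynomial.isHomogeneous_C (Fin (N + 1)) (c i * (a i - a i0) * c i0)).mul
        (MvPolynomial.isHomogeneous_X k j0)
      simp only [zero_add] at h1 h2 h3
      exact h1.sub (h2.sub h3)
    have hval : ∀ {R : Type} [Field R] [Algebra k R] (v : Fin (N + 1) → R), val v L =
        algebraMap k R (c i0 * c j0 * (a i0 - a j0)) * v i -
          (algebraMap k R (c i * (a i - a j0) * c j0) * v i0 -
            algebraMap k R (c i * (a i - a i0) * c i0) * v j0) := by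
      intro R _ _ v
      unfold val
      simp only [L, map_sub, map_mul, MvPolynomial.aeval_C, MvPolynomial.aeval_X]
    have hLy : val y L = 0 := by
      rw [hval, hyz i, hyz i0, hyz j0, hc i, hc j0]
      have e : z i0 = z i0 * algebraMap k K (c i0) := hc i0
      simp only [map_mul, map_sub]
      generalize algebraMap k K (c i) = ci
      generalize algebraMap k K (c j0) = cj
      generalize algebraMap k K (a i) = ai
      generalize algebraMap k K (a j0) = aj
      generalize algebraMap k K (a i0) = a0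
      generalize algebraMap k K (c i0) = c0 at e ⊢
      linear_combination (ci * (ai - aj) * cj * (a0 - t)) * (-e)
    have h2 := hx.2 L hL hLy
    rw [hval] at h2
    simp only [Algebra.algebraMap_self, RingHom.id_apply] at h2
    linear_combination h2
  refine ⟨(c j0 * x i0 - c i0 * x j0) / (c i0 * c j0 * (a i0 - a j0)),
    (a i0 * c i0 * x j0 - a j0 * c j0 * x i0) / (c i0 * c j0 * (a i0 - a j0)), fun i => ?_⟩
  have hD : c i0 * c j0 * (a i0 - a j0) ≠ 0 := mul_ne_zero (mul_ne_zero hc0 hcj) hij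
  have h2 := hrel i
  have h3 : x i = c i * ((a i - a j0) * c j0 * x i0 - (a i - a i0) * c i0 * x j0) /
      (c i0 * c j0 * (a i0 - a j0)) := by rw [eq_div_iff hD, ← h2]
  rw [h3]
  ring

/-- `x` and `x'` are proportional, or lie on lines with the same factor `G` -/
def Lk (n m : ℕ) (a : Fin (N + 1) → ℂ) (x x' : Fin (N + 1) → ℂ) : Prop :=
  x ≠ 0 ∧ x' ≠ 0 ∧ ((∃ c : ℂ, x' = c • x) ∨ (m ≤ n ∧ ∃ (G l l' : Polynomial ℂ),
    G.natDegree ≤ n - m ∧ l.natDegree ≤ 1 ∧ l'.natDegree ≤ 1 ∧
    (∀ i, x i ^ m = (l ^ m * G).eval (a i)) ∧ ∀ i, x' i ^ m = (l' ^ m * G).eval (a i)))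

theorem Lk.ne {a : Fin (N + 1) → ℂ} {x : Fin (N + 1) → ℂ} (hm : m ≠ 0) (hx : x ≠ 0)
    {l G : Polynomial ℂ} (h : ∀ i, x i ^ m = (l ^ m * G).eval (a i)) : l ^ m * G ≠ 0 := by
  intro h0
  apply hx
  funext i
  have h1 := h i
  rw [h0, Polynomial.eval_zero] at h1
  exact (pow_eq_zero_iff hm).1 h1

theorem Lk.trans (hm : 2 ≤ m) (hnm : n < 2 * m) (hN : n ≤ N) {a : Fin (N + 1) → ℂ}
    (ha : Function.Injective a) {x x' x'' : Fin (N + 1) → ℂ} (h1 : Lk n m a x x')
    (h2 : Lk n m a x' x'') : Lk n m a x x'' := by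
  obtain ⟨hx, hx', h1⟩ := h1
  obtain ⟨-, hx'', h2⟩ := h2
  refine ⟨hx, hx'', ?_⟩
  rcases h1 with ⟨c, hc⟩ | ⟨hmn, G, l, l', hG, hl, hl', hxl, hxl'⟩
  · rcases h2 with ⟨c', hc'⟩ | ⟨hmn, G, l, l', hG, hl, hl', hxl, hxl'⟩
    · left
      exact ⟨c' * c, by rw [hc', hc, smul_smul]⟩
    · right
      have hc0 : c ≠ 0 := by
        rintro rfl
        apply hx'
        rw [hc, zero_smul]
      refine ⟨hmn, G, Polynomial.C c⁻¹ * l, l', hG, ?_, hl', fun i => ?_, hxl'⟩
      · exact (Polynomial.natDegree_C_mul_le _ _).trans hl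
      · have h3 := hxl i
        rw [hc, Pi.smul_apply, smul_eq_mul, mul_pow] at h3
        rw [mul_pow, mul_assoc, Polynomial.eval_mul, ← h3, ← Polynomial.C_pow,
          Polynomial.eval_C, inv_pow]
        field_simp
  · rcases h2 with ⟨c, hc⟩ | ⟨-, G2, l2, l2', hG2, hl2, hl2', hxl2, hxl2'⟩
    · right
      refine ⟨hmn, G, l, Polynomial.C c * l', hG, hl, ?_, hxl, fun i => ?_⟩
      · exact (Polynomial.natDegree_C_mul_le _ _).trans hl'
      · rw [hc, Pi.smul_apply, smul_eq_mul, mul_pow, hxl' i, mul_pow, mul_assoc,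
          ← Polynomial.C_pow, Polynomial.eval_C_mul]
    · right
      have hdeg : ∀ {l G : Polynomial ℂ}, l.natDegree ≤ 1 → G.natDegree ≤ n - m →
          (l ^ m * G).natDegree ≤ n := by
        intro l G hl hG
        refine Polynomial.natDegree_mul_le.trans ?_
        have h3 : (l ^ m).natDegree ≤ m := by
          refine Polynomial.natDegree_pow_le.trans ?_
          calc m * l.natDegree ≤ m * 1 := Nat.mul_le_mul_left _ hl
            _ = m := mul_one m
        omega
      have heq : l' ^ m * G = l2 ^ m * G2 := by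
        refine Polynomial.eq_of_natDegree_lt_card_of_eval_eq _ _ ha (fun i => ?_) ?_
        · rw [← hxl' i, ← hxl2 i]
        · rw [Fintype.card_fin]
          have h3 := hdeg hl' hG
          have h4 := hdeg hl2 hG2
          exact lt_of_le_of_lt (max_le h3 h4) (by omega)
      obtain ⟨c, hc, hGc⟩ := free_part (by omega) hl' hl2 (by omega) (by omega) heq
        (Lk.ne (by omega) hx' hxl')
      obtain ⟨c', hc'⟩ : ∃ c' : ℂ, c' ^ m = c := IsAlgClosed.exists_pow_nat_eq _ (by omega)
      refine ⟨hmn, G, l, Polynomial.C c' * l2', hG, hl, ?_, hxl, fun i => ?_⟩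
      · exact (Polynomial.natDegree_C_mul_le _ _).trans hl2'
      · rw [hxl2' i, hGc, mul_pow, ← Polynomial.C_pow, hc']
        congr 1
        ring

/-- **Chains of entire curves.** -/
theorem lk_of_joined (hm : 2 ≤ m) (hnm : n < 2 * m) (hN : 4 * n + (n + 1) ^ 2 < 2 * (N + 1))
    {a : Fin (N + 1) → ℂ} (ha : Function.Injective a) {U : Set (Fin (N + 1))} {K : Type} [Field K]
    [Algebra ℂ K] {y : Fin (N + 1) → K} (hy : ∀ l : Rel a n, val y (buchi a n m l) = 0)
    {x x' : Fin (N + 1) → ℂ} (h : Joined U y x x') : Lk n m a x x' := by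
  classical
  obtain ⟨hx, hx', f, hfd, hfm, hG⟩ := h
  have hfi : ∀ j, AnalyticOnNhd ℂ (fun w => f w j) univ := fun j z _ =>
    Differentiable.analyticAt (fun z => (differentiableAt_pi.1 (hfd z)) j) z
  obtain ⟨j0, hj0⟩ := Function.ne_iff.1 (hfm 0).1.1
  obtain ⟨K1, i1, i2, w1, y1, hy0, hgen, hdim, hrel, hzero⟩ :=
    Pool.Agent.TH143.GT.exists_closure f isPreconnected_univ hfi ⟨0, mem_univ _, hj0⟩
  have hrel' : ∀ G : MvPolynomial (Fin (N + 1)) ℂ, IsForm G →
      (val y1 G = 0 ↔ ∀ z, val (f z) G = 0) := by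
    intro G hG
    rw [hrel G hG]
    constructor
    · intro h z
      rw [val_eq]
      exact h z (mem_univ _)
    · intro h z _
      rw [← val_eq]
      exact h z
  have hyU : ∀ j ∈ U, y1 j ≠ 0 := by
    intro j hj h0
    have hX : IsForm (MvPolynomial.X j : MvPolynomial (Fin (N + 1)) ℂ) :=
      ⟨1, MvPolynomial.isHomogeneous_X _ _⟩
    have h1 := (hrel' _ hX).1 (by unfold val; rw [MvPolynomial.aeval_X, h0]) 0
    unfold val at h1
    rw [MvPolynomial.aeval_X] at h1
    exact (hfm 0).2 j hj h1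
  have hsv : SubVar (buchi a n m) K1 w1 y1 := ⟨hy0, fun l => (hrel' _ (isForm_buchi a n m l)).2
    fun z => (hfm z).1.2 _ (isForm_buchi a n m l) (hy l), hgen, hdim⟩
  have hdc : DenseCurve U y1 f := by
    refine ⟨hfd, fun z => ⟨⟨(hfm z).1.1, fun G hG h0 => ?_⟩, (hfm z).2⟩, fun G hG h0 => ?_⟩
    · exact (hrel' G hG).1 h0 z
    · exact (hrel' G hG).2 h0
  have hx1 : x ∈ VarPts ℂ y1 := ⟨hx.1.1, fun G' hG' h0 => (hG G' hG' ((hrel' G' hG').1 h0)).1⟩
  have hx1' : x' ∈ VarPts ℂ y1 :=
    ⟨hx'.1.1, fun G' hG' h0 => (hG G' hG' ((hrel' G' hG').1 h0)).2⟩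
  refine ⟨hx.1.1, hx'.1.1, ?_⟩
  rcases dense_core hm hnm hN ha hsv hyU hdc with ⟨p, hp0, hp⟩ | ⟨-, hL⟩
  · left
    obtain ⟨j, hj⟩ := Function.ne_iff.1 hp0
    have hj' : p j ≠ 0 := hj
    have hpt : ∀ v ∈ VarPts ℂ y1, v = (v j / p j) • p := by
      intro v hv
      funext i
      have h1 := hv.2 (relXY p i j) (relXY_form p i j) ((hp _ (relXY_form p i j)).2 (by
        rw [val_relXY]
        simp only [Algebra.algebraMap_self, RingHom.id_apply]
        ring))
      rw [val_relXY] at h1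
      simp only [Algebra.algebraMap_self, RingHom.id_apply] at h1
      rw [Pi.smul_apply, smul_eq_mul, div_mul_eq_mul_div, eq_div_iff hj']
      linear_combination h1
    have h1 := hpt x hx1
    have h2 := hpt x' hx1'
    have hxj : x j ≠ 0 := by
      intro h0
      apply hx.1.1
      rw [h1, h0, zero_div, zero_smul]
    refine ⟨x' j / x j, ?_⟩
    rw [h1, smul_smul]
    conv_lhs => rw [h2]
    congr 1
    rw [Pi.smul_apply, smul_eq_mul]
    field_simp
  · right
    obtain ⟨hmn, c, G, hGd, hcG, hpts⟩ := line_str hm hnm hN ha hsv hL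
    obtain ⟨α, β, h1⟩ := hpts x hx1
    obtain ⟨α', β', h2⟩ := hpts x' hx1'
    have hev : ∀ (v : Fin (N + 1) → ℂ) (α β : ℂ), (∀ i, v i = (α * a i + β) * c i) →
        (Polynomial.C α * Polynomial.X + Polynomial.C β).natDegree ≤ 1 ∧
        ∀ i, v i ^ m = ((Polynomial.C α * Polynomial.X + Polynomial.C β) ^ m * G).eval (a i) := by
      intro v α β hv
      refine ⟨Polynomial.natDegree_linear_le, fun i => ?_⟩
      rw [hv i, mul_pow, hcG i]
      simp
    exact ⟨hmn, G, _, _, hGd, (hev x α β h1).1, (hev x' α' β' h2).1, (hev x α β h1).2,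
      (hev x' α' β' h2).2⟩

end Pool.Agent.Y216.SV
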