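import Pool.Agent.Y216.SV.Hsp

/-!
h-special closed subvarieties of the power value varieties.
-/

set_option autoImplicit false

open Filter Topology Set Metric

namespace Pool.Agent.Y216.SV

open FF Pool.Agent.W603.LV Pool.Agent.W603.BP Pool.Agent.W601.PH Pool.Agent.Y190.BV
  Pool.Agent.W602.GT Pool.Agent.Y190.AN Pool.Agent.Y190.QP Pool.Agent.H159R3.GGLLog
  Pool.Agent.H159R3.NV Pool.Agent.Y190.GN

variable {N n m w : ℕ}

theorem xc_eq {U : Set (Fin (N + 1))} {K : Type} [Field K] [Algebra ℂ K]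
    (y : Fin (N + 1) → K) : XC U y = ConeU U (eqs (K := ℂ) y) := by
  ext x
  constructor
  · rintro ⟨⟨hx0, hx⟩, hU⟩
    exact ⟨hx0, hU, fun e => hx _ e.2.1 e.2.2⟩
  · rintro ⟨hx0, hU, hx⟩
    exact ⟨⟨hx0, fun G hG h0 => hx ⟨G, hG, h0⟩⟩, hU⟩

theorem val_of_xc {U : Set (Fin (N + 1))} {K : Type} [Field K] [Algebra ℂ K]
    {y : Fin (N + 1) → K} (hy0 : y ≠ 0) (hyU : ∀ j ∈ U, y j ≠ 0)
    {G : MvPolynomial (Fin (N + 1)) ℂ} (h : ∀ x ∈ XC U y, val x G = 0) : val y G = 0 := by
  refine val_of_cone (F := eqs (K := ℂ) y) hy0 hyU (fun e => e.2.2) ?_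
  rw [← xc_eq]
  exact h

theorem lk_of_chain (hm : 2 ≤ m) (hnm : n < 2 * m) (hN : 4 * n + (n + 1) ^ 2 < 2 * (N + 1))
    {a : Fin (N + 1) → ℂ} (ha : Function.Injective a) {U : Set (Fin (N + 1))} {K : Type} [Field K]
    [Algebra ℂ K] {y : Fin (N + 1) → K} (hy : ∀ l : Rel a n, val y (buchi a n m l) = 0)
    {x x' : Fin (N + 1) → ℂ} (h : Relation.TransGen (Joined U y) x x') : Lk n m a x x' := by
  have hn : n ≤ N := by nlinarith
  induction h with
  | single h => exact lk_of_joined hm hnm hN ha hy h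
  | tail _ h ih => exact Lk.trans hm hnm hn ha ih (lk_of_joined hm hnm hN ha hy h)

/-- points proportional to a point -/
theorem prop_of_rel {p v : Fin (N + 1) → ℂ} {j : Fin (N + 1)} (hj : p j ≠ 0)
    (h : ∀ i, val v (relXY p i j) = 0) : v = (v j / p j) • p := by
  funext i
  have h1 := h i
  rw [val_relXY] at h1
  simp only [Algebra.algebraMap_self, RingHom.id_apply] at h1
  rw [Pi.smul_apply, smul_eq_mul, div_mul_eq_mul_div, eq_div_iff hj]
  linear_combination h1

/-- h-special varieties of positive dimension are not of log general type -/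
theorem not_lgt_of_hsp (hm : 2 ≤ m) (hnm : n < 2 * m)
    (hN : 4 * n + (n + 1) ^ 2 < 2 * (N + 1)) {a : Fin (N + 1) → ℂ} (ha : Function.Injective a)
    {U : Set (Fin (N + 1))} {K : Type} [Field K] [Algebra ℂ K] {y : Fin (N + 1) → K}
    (hy : SubVar (buchi a n m) K w y) (hyU : ∀ j ∈ U, y j ≠ 0) (hw : 1 ≤ w)
    (hs : HSpecial U y) : ¬ LogGeneralType ℂ K w (OffU U y) := by
  classical
  intro hl
  have hsub : ConeU U (eqs (K := ℂ) y) ⊆ Cone (buchi a n m) := by
    rintro x ⟨hx0, -, hx⟩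
    exact ⟨hx0, fun l => hx ⟨_, isForm_buchi a n m l, hy.mem l⟩⟩
  have hyF : SubVarU U (eqs (K := ℂ) y) K w y := ⟨hy.ne, hyU, fun e => e.2.2, hy.gen, hy.dim⟩
  have hgen : ∀ G : MvPolynomial (Fin (N + 1)) ℂ, IsForm G →
      (val y G = 0 ↔ ∀ x ∈ ConeU U (eqs (K := ℂ) y), val x G = 0) := by
    intro G hG
    constructor
    · intro h x hx
      exact hx.2.2 ⟨G, hG, h⟩
    · intro h
      exact val_of_cone hy.ne hyU (fun e => e.2.2) h
  have hF : ∀ e, IsForm (eqs (K := ℂ) y e) := fun e => e.2.1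
  have h1 := ((lang_equivU hm hnm hN ha hF hsub hw hyF hgen).out 0 1).1 hl
  obtain ⟨e1, -, e3, -, -⟩ := special_six hm hnm hN ha hF hsub
  obtain ⟨x0, hx0, G, hG, hall, hGx⟩ : ∃ x0 ∈ Pts U (eqs (K := ℂ) y),
      ∃ G : MvPolynomial (Fin (N + 1)) ℂ, IsForm G ∧
        (∀ f, EntireCurve U (eqs (K := ℂ) y) f → ∀ z, MvPolynomial.eval (f z) G = 0) ∧
        MvPolynomial.eval x0 G ≠ 0 := by
    by_contra hcon
    push Not at hcon
    apply h1
    rw [e1, ← e3, Pool.Agent.Y190.QP.coneU_eq]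
    exact Set.Subset.antisymm (fun x hx => hx.1) fun x hx => ⟨hx, fun G hG hall =>
      hcon x hx G hG hall⟩
  rw [← Pool.Agent.Y190.QP.coneU_eq, ← xc_eq] at hx0
  rw [← val_eq] at hGx
  -- chains
  have hstep : ∀ x x', Joined U y x x' → val x G = 0 ∨ ∃ c : ℂ, x' = c • x := by
    rintro x x' ⟨hx, hx', f, hfd, hfm, hcl⟩
    by_cases hcon : ∀ z w, ∃ c : ℂ, f z = c • f w
    · right
      obtain ⟨j, hj⟩ := Function.ne_iff.1 (hfm 0).1.1
      have hj' : f 0 j ≠ 0 := hj
      have hr : ∀ i, ∀ z, val (f z) (relXY (f 0) i j) = 0 := by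
        intro i z
        obtain ⟨c, hc⟩ := hcon z 0
        rw [val_relXY, hc]
        simp only [Algebra.algebraMap_self, RingHom.id_apply, Pi.smul_apply, smul_eq_mul]
        ring
      have h2 := prop_of_rel hj' fun i => (hcl _ (relXY_form _ i j) (hr i)).1
      have h3 := prop_of_rel hj' fun i => (hcl _ (relXY_form _ i j) (hr i)).2
      have hxj : x j ≠ 0 := by
        intro h0
        apply hx.1.1
        rw [h2, h0, zero_div, zero_smul]
      refine ⟨x' j / x j, ?_⟩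
      rw [h2, smul_smul]
      conv_lhs => rw [h3]
      congr 1
      rw [Pi.smul_apply, smul_eq_mul]
      field_simp
    · left
      push Not at hcon
      refine (hcl G hG fun z => ?_).1
      rw [val_eq]
      refine hall f ⟨hfd, fun z => ?_, hcon⟩ z
      rw [← Pool.Agent.Y190.QP.coneU_eq, ← xc_eq]
      exact hfm z
  have hne : ∀ x x', Joined U y x x' → x' ≠ 0 := fun x x' h => h.2.1.1.1
  have hchain : ∀ x x', Relation.TransGen (Joined U y) x x' →
      x' ≠ 0 ∧ (val x G = 0 ∨ ∃ c : ℂ, x' = c • x) := by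
    intro x x' h
    induction h with
    | single h => exact ⟨hne _ _ h, hstep _ _ h⟩
    | tail _ h ih =>
      refine ⟨hne _ _ h, ?_⟩
      obtain ⟨hb, h2 | ⟨c, hc⟩⟩ := ih
      · exact Or.inl h2
      · rcases hstep _ _ h with h3 | ⟨c', hc'⟩
        · left
          obtain ⟨d, hd⟩ := id hG
          have hc0 : c ≠ 0 := by
            rintro rfl
            apply hb
            rw [hc, zero_smul]
          rw [hc] at h3
          have e : val (c • x) G = c ^ d * val x G := val_smul hd c x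
          rw [e] at h3
          exact (mul_eq_zero.1 h3).resolve_left (pow_ne_zero _ hc0)
        · exact Or.inr ⟨c' * c, by rw [hc', hc, smul_smul]⟩
  -- the relation
  have hall2 : ∀ x' ∈ XC U y, ∀ i j, x0 i * x' j - x0 j * x' i = 0 := by
    intro x' hx' i j
    let P : MvPolynomial (Fin (N + 1) ⊕ Fin (N + 1)) ℂ :=
      MvPolynomial.rename Sum.inl G * (MvPolynomial.X (Sum.inl i) * MvPolynomial.X (Sum.inr j) -
        MvPolynomial.X (Sum.inl j) * MvPolynomial.X (Sum.inr i))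
    have hP : ∀ v v' : Fin (N + 1) → ℂ, MvPolynomial.aeval (Sum.elim v v') P =
        val v G * (v i * v' j - v j * v' i) := by
      intro v v'
      simp only [P, map_mul, map_sub, MvPolynomial.aeval_X, MvPolynomial.aeval_rename,
        Sum.elim_inl, Sum.elim_inr]
      rfl
    have h2 := hs P (fun v v' hv => by
      rw [hP]
      rcases (hchain v v' hv).2 with h3 | ⟨c, rfl⟩
      · rw [h3, zero_mul]
      · simp only [Pi.smul_apply, smul_eq_mul]
        ring) x0 hx0 x' hx'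
    rw [hP] at h2
    exact (mul_eq_zero.1 h2).resolve_left hGx
  have hdim : Algebra.trdeg ℂ K ≠ (0 : ℕ) := by
    rw [hy.dim]
    intro h
    have h1 : w = 0 := by exact_mod_cast h
    omega
  obtain ⟨i, j, hij⟩ := sep_point (x := x0) hy.gen hdim hx0.1.1
  apply hij
  refine val_of_xc hy.ne hyU fun x' hx' => ?_
  rw [val_relXY]
  simp only [Algebra.algebraMap_self, RingHom.id_apply]
  linear_combination -hall2 x' hx' i j

/-- the matrix of a pair of points -/
def Mx (m : ℕ) (a x x' : Fin (N + 1) → ℂ) :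
    Matrix (Fin (N + 1)) (Fin (m + 1) ⊕ Fin (m + 1)) ℂ :=
  Matrix.of fun i => Sum.elim (fun l => a i ^ (l : ℕ) * x i ^ m)
    (fun l => a i ^ (l : ℕ) * x' i ^ m)

/-- its minors -/
noncomputable def minorP (m : ℕ) (a : Fin (N + 1) → ℂ)
    (e : Fin (m + 1) ⊕ Fin (m + 1) → Fin (N + 1)) :
    MvPolynomial (Fin (N + 1) ⊕ Fin (N + 1)) ℂ :=
  (Matrix.of fun r => Sum.elim
    (fun l : Fin (m + 1) => MvPolynomial.C (a (e r) ^ (l : ℕ)) *
      MvPolynomial.X (Sum.inl (e r)) ^ m)
    (fun l : Fin (m + 1) => MvPolynomial.C (a (e r) ^ (l : ℕ)) *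
      MvPolynomial.X (Sum.inr (e r)) ^ m)).det

theorem aeval_minorP (a : Fin (N + 1) → ℂ) (e : Fin (m + 1) ⊕ Fin (m + 1) → Fin (N + 1))
    (x x' : Fin (N + 1) → ℂ) : MvPolynomial.aeval (Sum.elim x x') (minorP m a e) =
      ((Mx m a x x').submatrix e id).det := by
  unfold minorP
  rw [AlgHom.map_det]
  congr 1
  ext r c
  rcases c with l | l
  · simp [Mx]
  · simp [Mx]

theorem sum_coeff {A : Polynomial ℂ} (hA : A.natDegree ≤ m) (t : ℂ) :
    ∑ l : Fin (m + 1), t ^ (l : ℕ) * A.coeff l = A.eval t := by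
  rw [Polynomial.eval_eq_sum_range' (Nat.lt_succ_of_le hA), ← Fin.sum_univ_eq_sum_range
    (fun l => A.coeff l * t ^ l)]
  exact Finset.sum_congr rfl fun l _ => mul_comm _ _

/-- a relation gives vanishing minors -/
theorem minor_of_rel {a x x' : Fin (N + 1) → ℂ} {A B : Polynomial ℂ} (hA : A.natDegree ≤ m)
    (hB : B.natDegree ≤ m) (hAB : A ≠ 0 ∨ B ≠ 0)
    (h : ∀ i, A.eval (a i) * x i ^ m = B.eval (a i) * x' i ^ m)
    (e : Fin (m + 1) ⊕ Fin (m + 1) → Fin (N + 1)) :
    ((Mx m a x x').submatrix e id).det = 0 := by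
  classical
  refine Matrix.exists_mulVec_eq_zero_iff.1
    ⟨Sum.elim (fun l => A.coeff l) (fun l => - B.coeff l), ?_, ?_⟩
  · intro h0
    have h1 : ∀ l : Fin (m + 1), A.coeff l = 0 := fun l => congrFun h0 (Sum.inl l)
    have h2 : ∀ l : Fin (m + 1), B.coeff l = 0 := fun l =>
      neg_eq_zero.1 (congrFun h0 (Sum.inr l))
    rcases hAB with h3 | h3
    · apply h3
      ext l
      by_cases hl : l < m + 1
      · exact h1 ⟨l, hl⟩
      · exact Polynomial.coeff_eq_zero_of_natDegree_lt (by omega)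
    · apply h3
      ext l
      by_cases hl : l < m + 1
      · exact h2 ⟨l, hl⟩
      · exact Polynomial.coeff_eq_zero_of_natDegree_lt (by omega)
  · funext r
    have h1 := h (e r)
    have h2 := sum_coeff hA (a (e r))
    have h3 := sum_coeff hB (a (e r))
    simp only [Matrix.mulVec, dotProduct, Matrix.submatrix_apply, id, Fintype.sum_sum_type,
      Mx, Matrix.of_apply, Sum.elim_inl, Sum.elim_inr, Pi.zero_apply]
    have h4 : ∑ l : Fin (m + 1), a (e r) ^ (l : ℕ) * x (e r) ^ m * A.coeff l =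
        A.eval (a (e r)) * x (e r) ^ m := by
      rw [← h2, Finset.sum_mul]
      exact Finset.sum_congr rfl fun l _ => by ring
    have h5 : ∑ l : Fin (m + 1), a (e r) ^ (l : ℕ) * x' (e r) ^ m * -B.coeff l =
        - (B.eval (a (e r)) * x' (e r) ^ m) := by
      rw [← h3, Finset.sum_mul, ← Finset.sum_neg_distrib]
      exact Finset.sum_congr rfl fun l _ => by ring
    rw [h4, h5, h1]
    ring

/-- vanishing minors give a relation -/
theorem rel_of_minor {a x x' : Fin (N + 1) → ℂ}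
    (h : ∀ e : Fin (m + 1) ⊕ Fin (m + 1) → Fin (N + 1), ((Mx m a x x').submatrix e id).det = 0) :
    ∃ A B : Polynomial ℂ, A.natDegree ≤ m ∧ B.natDegree ≤ m ∧ (A ≠ 0 ∨ B ≠ 0) ∧
      ∀ i, A.eval (a i) * x i ^ m = B.eval (a i) * x' i ^ m := by
  classical
  obtain ⟨v, hv0, hv⟩ := kernel_of_minors (Mx m a x x') h
  let A : Polynomial ℂ := ∑ l : Fin (m + 1), Polynomial.monomial (l : ℕ) (v (Sum.inl l))
  let B : Polynomial ℂ := ∑ l : Fin (m + 1), Polynomial.monomial (l : ℕ) (- v (Sum.inr l))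
  have hdeg : ∀ u : Fin (m + 1) → ℂ,
      (∑ l : Fin (m + 1), Polynomial.monomial (l : ℕ) (u l)).natDegree ≤ m := by
    intro u
    refine Polynomial.natDegree_sum_le_of_forall_le _ _ fun l _ => ?_
    exact (Polynomial.natDegree_monomial_le _).trans (Nat.lt_succ_iff.1 l.2)
  have hcoeff : ∀ (u : Fin (m + 1) → ℂ) (l : Fin (m + 1)),
      (∑ l : Fin (m + 1), Polynomial.monomial (l : ℕ) (u l)).coeff l = u l := by
    intro u l
    rw [Polynomial.finsetSum_coeff, Finset.sum_eq_single l]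
    · rw [Polynomial.coeff_monomial, if_pos rfl]
    · intro l' _ hl'
      rw [Polynomial.coeff_monomial, if_neg fun h => hl' (Fin.ext h)]
    · intro h
      exact absurd (Finset.mem_univ _) h
  refine ⟨A, B, hdeg _, hdeg _, ?_, fun i => ?_⟩
  · by_contra hcon
    push Not at hcon
    apply hv0
    funext c
    rcases c with l | l
    · rw [← hcoeff (fun l => v (Sum.inl l)) l]
      change A.coeff l = 0
      rw [hcon.1, Polynomial.coeff_zero]
    · have h1 := hcoeff (fun l => - v (Sum.inr l)) l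
      change B.coeff l = _ at h1
      rw [hcon.2, Polynomial.coeff_zero] at h1
      exact neg_eq_zero.1 h1.symm
  · have h1 := congrFun hv i
    simp only [Matrix.mulVec, dotProduct, Fintype.sum_sum_type, Mx, Matrix.of_apply,
      Sum.elim_inl, Sum.elim_inr, Pi.zero_apply] at h1
    have h2 : A.eval (a i) * x i ^ m = ∑ l : Fin (m + 1), a i ^ (l : ℕ) * x i ^ m *
        v (Sum.inl l) := by
      simp only [A, Polynomial.eval_finsetSum, Polynomial.eval_monomial, Finset.sum_mul]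
      exact Finset.sum_congr rfl fun l _ => by ring
    have h3 : B.eval (a i) * x' i ^ m = - ∑ l : Fin (m + 1), a i ^ (l : ℕ) * x' i ^ m *
        v (Sum.inr l) := by
      simp only [B, Polynomial.eval_finsetSum, Polynomial.eval_monomial, Finset.sum_mul,
        ← Finset.sum_neg_distrib]
      exact Finset.sum_congr rfl fun l _ => by ring
    rw [h2, h3]
    linear_combination h1

theorem rel_of_lk (hm : 2 ≤ m) {a x x' : Fin (N + 1) → ℂ} (h : Lk n m a x x') :
    ∃ A B : Polynomial ℂ, A.natDegree ≤ m ∧ B.natDegree ≤ m ∧ (A ≠ 0 ∨ B ≠ 0) ∧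
      ∀ i, A.eval (a i) * x i ^ m = B.eval (a i) * x' i ^ m := by
  obtain ⟨hx, hx', ⟨c, hc⟩ | ⟨hmn, G, l, l', hG, hl, hl', h1, h2⟩⟩ := h
  · refine ⟨Polynomial.C (c ^ m), 1, by simp, by simp, Or.inr one_ne_zero, fun i => ?_⟩
    rw [hc]
    simp [mul_pow]
  · have hdeg : ∀ {l : Polynomial ℂ}, l.natDegree ≤ 1 → (l ^ m).natDegree ≤ m := by
      intro l hl
      refine Polynomial.natDegree_pow_le.trans ?_
      calc m * l.natDegree ≤ m * 1 := Nat.mul_le_mul_left _ hl
        _ = m := mul_one m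
    refine ⟨l' ^ m, l ^ m, hdeg hl', hdeg hl, Or.inr ?_, fun i => ?_⟩
    · exact left_ne_zero_of_mul (Lk.ne (by omega) hx h1)
    · rw [h1, h2]
      simp only [Polynomial.eval_mul]
      ring

theorem rel_of_hsp (hm : 2 ≤ m) (hnm : n < 2 * m) (hN : 4 * n + (n + 1) ^ 2 < 2 * (N + 1))
    {a : Fin (N + 1) → ℂ} (ha : Function.Injective a) {U : Set (Fin (N + 1))} {K : Type} [Field K]
    [Algebra ℂ K] {y : Fin (N + 1) → K} (hy : ∀ l : Rel a n, val y (buchi a n m l) = 0)
    (hs : HSpecial U y) {x x' : Fin (N + 1) → ℂ} (hx : x ∈ XC U y) (hx' : x' ∈ XC U y) :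
    ∃ A B : Polynomial ℂ, A.natDegree ≤ m ∧ B.natDegree ≤ m ∧ (A ≠ 0 ∨ B ≠ 0) ∧
      ∀ i, A.eval (a i) * x i ^ m = B.eval (a i) * x' i ^ m := by
  refine rel_of_minor fun e => ?_
  rw [← aeval_minorP]
  refine hs _ (fun v v' hv => ?_) x hx x' hx'
  rw [aeval_minorP]
  obtain ⟨A, B, hA, hB, hAB, h⟩ := rel_of_lk hm (lk_of_chain hm hnm hN ha hy hv)
  exact minor_of_rel hA hB hAB h e

end Pool.Agent.Y216.SV
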