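import Pool.Agent.Y216.SV.Hsp2
import Pool.Agent.TH710.SP.Res

/-!
h-special closed subvarieties of the power value varieties are points or lines; fundamental groups.
-/

set_option autoImplicit false

open Filter Topology Set Metric

namespace Pool.Agent.Y216.SV

open FF Pool.Agent.W603.LV Pool.Agent.W603.BP Pool.Agent.W601.PH Pool.Agent.Y190.BV
  Pool.Agent.W602.GT Pool.Agent.Y190.AN Pool.Agent.Y190.QP Pool.Agent.H159R3.GGLLog
  Pool.Agent.H159R3.NV Pool.Agent.Y190.GN

variable {N n m w : ℕ}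

/-- the points of the variety over a point of the base -/
theorem mem_xc {U : Set (Fin (N + 1))} {K : Type} [Field K] [Algebra ℂ K]
    {a : Fin (N + 1) → ℂ} {y z : Fin (N + 1) → K} {t : K}
    (hyz : ∀ i, y i = (algebraMap ℂ K (a i) - t) * z i) {i0 : Fin (N + 1)} (hi0 : z i0 ≠ 0)
    (htr : Transcendental (coords ℂ z) t) {z0 : Fin (N + 1) → ℂ} (hz0 : z0 ∈ XC U z) {t0 : ℂ}
    (ht0 : ∀ i, a i ≠ t0) : (fun i => (a i - t0) * z0 i) ∈ XC U y := by
  classical
  have hcK : CharZero K := charZero_of_injective_algebraMap (algebraMap ℂ K).injective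
  have hinf : Infinite K := inferInstance
  refine ⟨⟨?_, fun G hG h0 => ?_⟩, fun j hj =>
    mul_ne_zero (sub_ne_zero.2 (ht0 j)) (hz0.2 j hj)⟩
  · intro h0
    apply hz0.1.1
    funext i
    exact (mul_eq_zero.1 (congrFun h0 i)).resolve_left (sub_ne_zero.2 (ht0 i))
  · have h1 := line_vanish hyz hi0 htr hG h0 1 (t - algebraMap ℂ K t0)
    have h2 : (fun i => 1 * y i + (t - algebraMap ℂ K t0) * z i) =
        fun i => algebraMap ℂ K (a i - t0) * z i := by
      funext i
      rw [hyz i, map_sub]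
      ring
    rw [h2] at h1
    let D : Fin (N + 1) → MvPolynomial (Fin (N + 1)) ℂ := fun i =>
      MvPolynomial.C (a i - t0) * MvPolynomial.X i
    have hD : ∀ i, (D i).IsHomogeneous 1 := by
      intro i
      have h3 := (MvPolynomial.isHomogeneous_C (Fin (N + 1)) (a i - t0)).mul
        (MvPolynomial.isHomogeneous_X ℂ i)
      rwa [zero_add] at h3
    have hval : ∀ {R : Type} [Field R] [Algebra ℂ R] (v : Fin (N + 1) → R),
        val v (MvPolynomial.aeval D G) = val (fun i => algebraMap ℂ R (a i - t0) * v i) G := by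
      intro R _ _ v
      unfold val
      have h3 : (MvPolynomial.aeval v : MvPolynomial (Fin (N + 1)) ℂ →ₐ[ℂ] R).comp
          (MvPolynomial.aeval D) = MvPolynomial.aeval fun i => algebraMap ℂ R (a i - t0) * v i := by
        apply MvPolynomial.algHom_ext
        intro i
        simp only [AlgHom.comp_apply, MvPolynomial.aeval_X, D, map_mul, MvPolynomial.aeval_C]
      rw [← h3]
      rfl
    rw [← hval] at h1
    obtain ⟨d, hd⟩ := hG
    have h4 := hz0.1.2 _ ⟨_, hd.aeval D hD⟩ h1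
    rw [hval] at h4
    exact h4

/-- **h-special subvarieties.** -/
theorem hsp_core (hm : 2 ≤ m) (hnm : n < 2 * m) (hN : 4 * n + (n + 1) ^ 2 < 2 * (N + 1))
    {a : Fin (N + 1) → ℂ} (ha : Function.Injective a) {U : Set (Fin (N + 1))} {K : Type} [Field K]
    [Algebra ℂ K] {y : Fin (N + 1) → K} (hy : SubVar (buchi a n m) K w y)
    (hyU : ∀ j ∈ U, y j ≠ 0) (hs : HSpecial U y) : IsPoint ℂ y ∨ (U.ncard ≤ 2 ∧ IsLine ℂ y) := by
  classical
  rcases Nat.eq_zero_or_pos w with hw | hw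
  · subst hw
    exact Or.inl (isPoint_of_alg hy.ne hy.dim)
  right
  have hnl := not_lgt_of_hsp hm hnm hN ha hy hyU hw hs
  have hU : U.ncard ≤ 2 := by
    by_contra hcon
    obtain ⟨jj, hjj, hjU⟩ := (three_iff U).1 (by omega)
    exact hnl (lgt_three hm hnm hN ha hy hyU hjj hjU)
  have hgt : ¬ GeneralType ℂ K w := fun h => hnl (lgt_of_gt h)
  obtain ⟨hmn, w', t, z, -, hyz, hz, ⟨i0, j0, hij0, hi0, hj0⟩, htr, -, -, -⟩ :=
    core hm hnm hN ha hy hgt
  refine ⟨hU, line_of_core ha hyz ⟨i0, j0, hij0, hi0, hj0⟩ htr ?_⟩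
  have hz0 : z ≠ 0 := fun h => hi0 (congrFun h i0)
  have hzU : ∀ j ∈ U, z j ≠ 0 := by
    intro j hj h0
    apply hyU j hj
    rw [hyz j, h0, mul_zero]
  -- the polynomial of a point of the base
  have hpol : ∀ v ∈ XC U z, ∃ G : Polynomial ℂ, G ≠ 0 ∧ G.natDegree ≤ n - m ∧
      ∀ i, v i ^ m = G.eval (a i) := by
    intro v hv
    have h1 : v ∈ Cone (buchi a (n - m) m) :=
      ⟨hv.1.1, fun l => hv.1.2 _ (isForm_buchi a (n - m) m l) (hz l)⟩
    have hn : n ≤ N := by nlinarith
    have hn' : n - m ≤ N := by omega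
    rw [cone_buchi ha hn'] at h1
    obtain ⟨-, G, hG, hvG⟩ := h1
    refine ⟨G, ?_, hG, hvG⟩
    rintro rfl
    apply hv.1.1
    funext i
    have h2 := hvG i
    rw [Polynomial.eval_zero] at h2
    exact (pow_eq_zero_iff (by omega)).1 h2
  -- all points of the base have proportional polynomials
  have hprop : ∀ v0 ∈ XC U z, ∀ v1 ∈ XC U z, ∃ c : ℂ, ∀ i, v1 i ^ m = c * v0 i ^ m := by
    intro v0 hv0 v1 hv1
    obtain ⟨G0, hG0, hd0, h0⟩ := hpol v0 hv0
    obtain ⟨G1, hG1, hd1, h1⟩ := hpol v1 hv1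
    let S1 : Finset ℂ := Finset.univ.image a ∪ G0.roots.toFinset
    obtain ⟨t1, ht1⟩ := Infinite.exists_notMem_finset S1
    let S0 : Finset ℂ := Finset.univ.image a ∪ G1.roots.toFinset ∪ {t1}
    obtain ⟨t0, ht0⟩ := Infinite.exists_notMem_finset S0
    have ha1 : ∀ i, a i ≠ t1 := fun i h => ht1 (Finset.mem_union_left _
      (Finset.mem_image.2 ⟨i, Finset.mem_univ _, h⟩))
    have ha0 : ∀ i, a i ≠ t0 := fun i h => ht0 (Finset.mem_union_left _
      (Finset.mem_union_left _ (Finset.mem_image.2 ⟨i, Finset.mem_univ _, h⟩)))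
    have he1 : G0.eval t1 ≠ 0 := fun h => ht1 (Finset.mem_union_right _
      (Multiset.mem_toFinset.2 ((Polynomial.mem_roots hG0).2 h)))
    have he0 : G1.eval t0 ≠ 0 := fun h => ht0 (Finset.mem_union_left _
      (Finset.mem_union_right _ (Multiset.mem_toFinset.2 ((Polynomial.mem_roots hG1).2 h))))
    have hne : t0 ≠ t1 := fun h => ht0 (Finset.mem_union_right _ (Finset.mem_singleton.2 h))
    obtain ⟨A, B, hA, hB, hAB, hrel⟩ := rel_of_hsp hm hnm hN ha hy.mem hs
      (mem_xc hyz hi0 htr hv0 ha0) (mem_xc hyz hi0 htr hv1 ha1)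
    have hpoly : A * ((Polynomial.X - Polynomial.C t0) ^ m * G0) =
        B * ((Polynomial.X - Polynomial.C t1) ^ m * G1) := by
      have hdeg : ∀ {A G : Polynomial ℂ} (t : ℂ), A.natDegree ≤ m → G.natDegree ≤ n - m →
          (A * ((Polynomial.X - Polynomial.C t) ^ m * G)).natDegree ≤ n + m := by
        intro A G t hA hG
        refine Polynomial.natDegree_mul_le.trans ?_
        have h2 := Polynomial.natDegree_mul_le (p := (Polynomial.X - Polynomial.C t) ^ m) (q := G)
        rw [Polynomial.natDegree_pow, Polynomial.natDegree_X_sub_C] at h2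
        omega
      refine Polynomial.eq_of_natDegree_lt_card_of_eval_eq _ _ ha (fun i => ?_) ?_
      · have h2 := hrel i
        simp only [mul_pow] at h2
        rw [h0, h1] at h2
        simp only [Polynomial.eval_mul, Polynomial.eval_pow, Polynomial.eval_sub,
          Polynomial.eval_X, Polynomial.eval_C]
        linear_combination h2
      · rw [Fintype.card_fin]
        have h3 := hdeg t0 hA hd0
        have h4 := hdeg t1 hB hd1
        exact lt_of_le_of_lt (max_le h3 h4) (by nlinarith)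
    obtain ⟨c, -, hc⟩ := free_pair hA hB hAB hne he1 he0 hpoly
    refine ⟨c, fun i => ?_⟩
    rw [h1, h0, hc, Polynomial.eval_C_mul]
  -- a point of the base
  obtain ⟨v0, hv0⟩ : (XC U z).Nonempty := by
    by_contra hcon
    rw [Set.not_nonempty_iff_eq_empty] at hcon
    have h1 : val z (1 : MvPolynomial (Fin (N + 1)) ℂ) = 0 :=
      val_of_xc hz0 hzU fun x hx => by rw [hcon] at hx; exact absurd hx (Set.notMem_empty _)
    unfold val at h1
    rw [map_one] at h1
    exact one_ne_zero h1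
  obtain ⟨j1, hj1⟩ := Function.ne_iff.1 hv0.1.1
  have hj1' : v0 j1 ≠ 0 := hj1
  have hmm : m ≠ 0 := by omega
  have hzrel : ∀ i, algebraMap ℂ K (v0 j1 ^ m) * z i ^ m = algebraMap ℂ K (v0 i ^ m) * z j1 ^ m := by
    intro i
    let Q : MvPolynomial (Fin (N + 1)) ℂ := MvPolynomial.C (v0 j1 ^ m) * MvPolynomial.X i ^ m -
      MvPolynomial.C (v0 i ^ m) * MvPolynomial.X j1 ^ m
    have hQ : ∀ {R : Type} [Field R] [Algebra ℂ R] (v : Fin (N + 1) → R), val v Q =
        algebraMap ℂ R (v0 j1 ^ m) * v i ^ m - algebraMap ℂ R (v0 i ^ m) * v j1 ^ m := by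
      intro R _ _ v
      unfold val
      simp only [Q, map_sub, map_mul, MvPolynomial.aeval_C, MvPolynomial.aeval_X, map_pow]
    have h1 : val z Q = 0 := val_of_xc hz0 hzU fun v1 hv1 => by
      obtain ⟨c, hc⟩ := hprop v0 hv0 v1 hv1
      rw [hQ, hc i, hc j1]
      simp only [Algebra.algebraMap_self, RingHom.id_apply]
      ring
    rw [hQ] at h1
    exact sub_eq_zero.1 h1
  have hv0K : algebraMap ℂ K (v0 j1 ^ m) ≠ 0 := by
    rw [Ne, map_eq_zero]
    exact pow_ne_zero _ hj1'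
  have hzj1 : z j1 ≠ 0 := by
    intro h0
    apply hi0
    have h1 := hzrel i0
    rw [h0, zero_pow hmm, mul_zero] at h1
    exact (pow_eq_zero_iff hmm).1 ((mul_eq_zero.1 h1).resolve_left hv0K)
  have halg : ∀ i, IsIntegral ℂ (z i / z j1) := by
    intro i
    refine IsIntegral.of_pow (n := m) (by omega) ?_
    have h1 : (z i / z j1) ^ m = algebraMap ℂ K (v0 i ^ m / v0 j1 ^ m) := by
      rw [div_pow, map_div₀, div_eq_div_iff (pow_ne_zero _ hzj1) hv0K]
      linear_combination hzrel i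
    rw [h1]
    exact isIntegral_algebraMap
  have hcoords : Algebra.IsAlgebraic ℂ (coords ℂ z) := by
    have h1 : coords ℂ z ≤ IntermediateField.adjoin ℂ (Set.range fun i => z i / z j1) := by
      unfold coords
      rw [IntermediateField.adjoin_le_iff]
      rintro _ ⟨i, l, hl, rfl⟩
      have h2 : ∀ i, z i / z j1 ∈ IntermediateField.adjoin ℂ (Set.range fun i => z i / z j1) :=
        fun i => IntermediateField.subset_adjoin ℂ _ ⟨i, rfl⟩
      have h3 := div_mem (h2 i) (h2 l)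
      rwa [div_div_div_cancel_right₀ hzj1] at h3
    have h2 : Algebra.IsAlgebraic ℂ
        (IntermediateField.adjoin ℂ (Set.range fun i => z i / z j1)) :=
      IntermediateField.isAlgebraic_adjoin (by
        rintro _ ⟨i, rfl⟩
        exact halg i)
    refine ⟨fun x => ?_⟩
    have h3 := h2.isAlgebraic ⟨(x : K), h1 x.2⟩
    rw [IntermediateField.isAlgebraic_iff] at h3 ⊢
    exact h3
  rw [Nat.cast_zero, trdeg_eq_zero_iff]
  exact hcoords

/-- dense entire curves -/
theorem hsp_of_dense {U : Set (Fin (N + 1))} {K : Type} [Field K] [Algebra ℂ K]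
    {y : Fin (N + 1) → K} {f : ℂ → Fin (N + 1) → ℂ} (hf : DenseCurve U y f) : HSpecial U y := by
  intro P hP x hx x' hx'
  refine hP x x' (Relation.TransGen.single ⟨hx, hx', f, hf.1, fun z => ⟨(hf.2.1 z).1,
    (hf.2.1 z).2⟩, fun G hG h0 => ?_⟩)
  have h1 := hf.2.2 G hG h0
  exact ⟨hx.1.2 G hG h1, hx'.1.2 G hG h1⟩

theorem hsp_iff (hm : 2 ≤ m) (hnm : n < 2 * m) (hN : 4 * n + (n + 1) ^ 2 < 2 * (N + 1))
    {a : Fin (N + 1) → ℂ} (ha : Function.Injective a) {U : Set (Fin (N + 1))} {K : Type} [Field K]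
    [Algebra ℂ K] {y : Fin (N + 1) → K} (hy : SubVar (buchi a n m) K w y)
    (hyU : ∀ j ∈ U, y j ≠ 0) : HSpecial U y ↔ IsPoint ℂ y ∨ (U.ncard ≤ 2 ∧ IsLine ℂ y) := by
  refine ⟨hsp_core hm hnm hN ha hy hyU, fun h => ?_⟩
  obtain ⟨f, hf⟩ := dense_conv hyU h
  exact hsp_of_dense hf

end Pool.Agent.Y216.SV
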