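import Pool.Agent.Y216.SV.Img
import Pool.Agent.Y190.SN.Fibg

/-!
Special subvarieties of the power value varieties, polynomials of any degree: they are contained
in linear subspaces.
-/

set_option autoImplicit false

open FF Pool.Agent.W603.LV Pool.Agent.W602.GT Pool.Agent.Y190.BV Pool.Agent.Y190.QP
  Pool.Agent.Y190.SN Polynomial

namespace Pool.Agent.Y216.SV

variable {k : Type} [Field k] {N n m w : ℕ} {K : Type} [Field K] [Algebra k K]

/-- two polynomials with the same values at the nodes -/
theorem eq_of_nodes {a : Fin (N + 1) → k} (ha : Function.Injective a) {P Q : K[X]}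
    (hP : P.natDegree ≤ N) (hQ : Q.natDegree ≤ N)
    (h : ∀ i, P.eval (algebraMap k K (a i)) = Q.eval (algebraMap k K (a i))) : P = Q := by
  rw [← sub_eq_zero]
  by_contra hne
  apply hne
  refine Polynomial.eq_zero_of_natDegree_lt_card_of_eval_eq_zero _
    (f := fun i : Fin (N + 1) => algebraMap k K (a i))
    (fun i j h => ha ((algebraMap k K).injective h)) (fun i => ?_) ?_
  · rw [Polynomial.eval_sub, h, sub_self]
  · rw [Fintype.card_fin]
    have h5 := Polynomial.natDegree_sub_le P Q
    omega

/-- **Points whose polynomial has no factor of multiplicity `m`.** -/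
theorem gt_free [IsAlgClosed k] [CharZero k] (hm : 2 ≤ m)
    (hN : 4 * n + (n + 1) ^ 2 < 2 * (N + 1))
    {a : Fin (N + 1) → k} (ha : Function.Injective a) {z : Fin (N + 1) → K} {w' : ℕ}
    {G : K[X]} (hG : G ≠ 0) (hdeg : G.natDegree ≤ n)
    (hz : ∀ i, z i ^ m = G.eval (algebraMap k K (a i)))
    (hmult : ∀ p : K[X], Irreducible p → ¬ p ^ m ∣ G)
    (hw : Algebra.trdeg k (coords k z) = w') : GeneralType k (coords k z) w' := by
  classical
  have hn : n ≤ N := by nlinarith
  have hz0 : z ≠ 0 := by
    rintro rfl
    apply hG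
    refine eq_of_nodes ha (hdeg.trans hn) (by simp) fun i => ?_
    rw [← hz i, Polynomial.eval_zero]
    exact zero_pow (by omega)
  obtain ⟨u, c, hc, hu, hsub, -⟩ := image_sub hz0 (mem_of_poly a n m z G hdeg
    (fun i => (hz i).symm)) hw
  set G' : (coords k z)[X] := intp a hn (fun i => u i ^ m) with hG'
  have hev := intp_eval ha hn m hsub.mem
  have hmap : G'.map (algebraMap (coords k z) K) = C (c ^ m)⁻¹ * G := by
    have h0 : G'.map (algebraMap (coords k z) K) =
        intp a hn (fun i => ((u i ^ m : coords k z) : K)) := by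
      rw [hG']
      unfold intp
      rw [Polynomial.map_sum]
      refine Finset.sum_congr rfl fun l _ => ?_
      rw [Polynomial.map_mul, Polynomial.map_C, Polynomial.map_map,
        ← IsScalarTower.algebraMap_eq]
      rfl
    refine eq_of_nodes ha ?_ ?_ fun i => ?_
    · rw [h0]
      exact (intp_natDegree ha hn _).trans hn
    · exact (natDegree_C_mul_le _ _).trans (hdeg.trans hn)
    · have h2 : algebraMap (coords k z) K (G'.eval (algebraMap k (coords k z) (a i))) =
          (G'.map (algebraMap (coords k z) K)).eval (algebraMap k K (a i)) := by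
        rw [Polynomial.eval_map]
        exact (Polynomial.eval₂_at_apply (algebraMap (coords k z) K)
          (algebraMap k (coords k z) (a i))).symm
      rw [← h2, hev i, eval_mul, eval_C, ← hz i, hu i]
      change ((u i ^ m : coords k z) : K) = _
      rw [mul_pow, ← mul_assoc, inv_mul_cancel₀ (pow_ne_zero _ hc), one_mul]
      rfl
  have hG'0 : G' ≠ 0 := by
    intro h0
    rw [h0, Polynomial.map_zero] at hmap
    exact mul_ne_zero (C_ne_zero.2 (inv_ne_zero (pow_ne_zero m hc))) hG hmap.symm
  obtain ⟨j0, hj0⟩ : ∃ j0, G'.coeff j0 ≠ 0 := by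
    by_contra hcon
    push Not at hcon
    exact hG'0 (Polynomial.ext fun j => by rw [hcon j, Polynomial.coeff_zero])
  refine gt_top hsub.dim hm hN a ha G' hG'0 (intp_natDegree ha hn _) (fun i => ⟨u i, (hev i).symm⟩)
    ?_ ?_
  · intro p hp hdvd
    have h1 : p.map (algebraMap (coords k z) K) ^ m ∣ G := by
      have h2 : p.map (algebraMap (coords k z) K) ^ m ∣ C (c ^ m)⁻¹ * G := by
        rw [← hmap, ← Polynomial.map_pow]
        exact Polynomial.map_dvd _ hdvd
      have h3 := h2.mul_left (C (c ^ m))
      rwa [← mul_assoc, ← C_mul, mul_inv_cancel₀ (pow_ne_zero _ hc), C_1, one_mul] at h3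
    have hp0 : p.map (algebraMap (coords k z) K) ≠ 0 := Polynomial.map_ne_zero hp.ne_zero
    obtain ⟨p', q', hp', hpq⟩ := exists_irr hp0 (by
      rw [natDegree_map]
      exact hp.natDegree_pos)
    apply hmult p' hp'
    refine (pow_dvd_pow_of_dvd ?_ m).trans h1
    rw [hpq]
    exact Dvd.intro _ rfl
  · have hle : coords k u ≤ cl k G' := by
      unfold coords
      rw [IntermediateField.adjoin_le_iff]
      rintro _ ⟨i, j, hj, rfl⟩
      apply cl_closed
      have h3 : (u i / u j) ^ m ∈ cl k G' := by
        rw [div_pow, ← hev i, ← hev j]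
        have e : G'.eval (algebraMap k (coords k z) (a i)) /
            G'.eval (algebraMap k (coords k z) (a j)) =
            (G'.eval (algebraMap k (coords k z) (a i)) / G'.coeff j0) /
            (G'.eval (algebraMap k (coords k z) (a j)) / G'.coeff j0) := by
          rw [div_div_div_cancel_right₀ hj0]
        rw [e]
        exact cf_le_cl ((cf k G').div_mem (eval_mem _ _) (eval_mem _ _))
      have h2 : IsAlgebraic (cl k G') ((u i / u j) ^ m) :=
        isAlgebraic_algebraMap (⟨_, h3⟩ : cl k G')
      exact IsAlgebraic.of_pow (by omega) h2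
    intro x
    apply hle
    rw [hsub.gen]
    exact IntermediateField.mem_top

/-- **Special varieties in the power value varieties, any degree.** Rational maps from special
varieties have their image in a linear subspace of the power value variety. -/
theorem hull_of_special [IsAlgClosed k] [CharZero k] (hm : 2 ≤ m)
    (hN : 4 * n + (n + 1) ^ 2 < 2 * (N + 1))
    {a : Fin (N + 1) → k} (ha : Function.Injective a) (hK : Algebra.trdeg k K = w)
    {Bd : Place k K → Prop} (hs : Special k K w Bd) {y : Fin (N + 1) → K} (hy0 : y ≠ 0)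
    (hy : ∀ l : Rel a n, val y (buchi a n m l) = 0) :
    ∃ (q : K[X]) (c : K) (G0 : k[X]) (ζ : Fin (N + 1) → k), q.Monic ∧ c ≠ 0 ∧ G0 ≠ 0 ∧
      q.natDegree * m + G0.natDegree ≤ n ∧ (∀ i, ζ i ^ m = G0.eval (a i)) ∧
      ∀ i, y i = c * q.eval (algebraMap k K (a i)) * algebraMap k K (ζ i) := by
  classical
  have hn : n ≤ N := by nlinarith
  set H : K[X] := intp a hn (fun i => y i ^ m) with hH
  have hyH : ∀ i, y i ^ m = H.eval (algebraMap k K (a i)) := fun i => (intp_eval ha hn m hy i).symm
  have hHd : H.natDegree ≤ n := intp_natDegree ha hn _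
  have hH0 : H ≠ 0 := by
    intro h0
    apply hy0
    funext i
    have h1 := hyH i
    rw [h0, eval_zero] at h1
    exact eq_zero_of_pow_eq_zero h1
  obtain ⟨q, G, hq, hqG, hG⟩ := exists_split (by omega : 1 ≤ m) H.natDegree hH0 le_rfl
  have hG0 : G ≠ 0 := by
    rintro rfl
    exact hH0 (by rw [hqG, mul_zero])
  have hdeg : q.natDegree * m + G.natDegree ≤ n := by
    have h1 := congrArg natDegree hqG
    rw [natDegree_mul (pow_ne_zero _ hq.ne_zero) hG0, natDegree_pow] at h1
    rw [mul_comm]
    omega
  set r := q.natDegree with hr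
  have hrm : r * 2 ≤ r * m := Nat.mul_le_mul_left r hm
  -- the nodes where `q` does not vanish
  set S := Finset.univ.filter (fun i : Fin (N + 1) => q.eval (algebraMap k K (a i)) ≠ 0) with hS
  have hcard : N - r + 1 ≤ S.card := by
    have h1 : (Finset.univ.filter
        (fun i : Fin (N + 1) => ¬ q.eval (algebraMap k K (a i)) ≠ 0)).card ≤ r := by
      have h2 : ((Finset.univ.filter
          (fun i : Fin (N + 1) => ¬ q.eval (algebraMap k K (a i)) ≠ 0)).image
            (fun i => algebraMap k K (a i))).card ≤ r := by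
        refine (Finset.card_le_card (t := q.roots.toFinset) ?_).trans
          ((Multiset.toFinset_card_le _).trans (card_roots' q))
        intro x hx
        rw [Finset.mem_image] at hx
        obtain ⟨i, hi, rfl⟩ := hx
        rw [Finset.mem_filter] at hi
        rw [Multiset.mem_toFinset, mem_roots hq.ne_zero]
        exact not_not.1 hi.2
      rwa [Finset.card_image_of_injective _
        (fun i j h => ha ((algebraMap k K).injective h))] at h2
    have h3 := Finset.card_filter_add_card_filter_not (s := (Finset.univ : Finset (Fin (N + 1))))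
      (fun i : Fin (N + 1) => q.eval (algebraMap k K (a i)) ≠ 0)
    rw [Finset.card_univ, Fintype.card_fin] at h3
    have h4 : r ≤ N := by nlinarith
    rw [← hS] at h3
    omega
  have hev : ∀ i, q.eval (algebraMap k K (a i)) ^ m * G.eval (algebraMap k K (a i)) = y i ^ m := by
    intro i
    rw [hyH i, hqG, eval_mul, eval_pow]
  have hN' : 4 * (n - r * m) + (n - r * m + 1) ^ 2 < 2 * (N - r + 1) := by
    obtain ⟨s, hs⟩ := Nat.exists_eq_add_of_le (by omega : r * m ≤ n)
    rw [hs, Nat.add_sub_cancel_left]
    rw [hs] at hN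
    have h4 : r ≤ N := by nlinarith
    have h5 : 2 * (N - r + 1) + 2 * r = 2 * (N + 1) := by omega
    have h6 : (s + 1) ^ 2 ≤ (r * m + s + 1) ^ 2 := Nat.pow_le_pow_left (by omega) 2
    omega
  have hGd : G.natDegree ≤ n - r * m := by omega
  set e := S.orderEmbOfCardLe hcard with he
  have hqe : ∀ j, q.eval (algebraMap k K (a (e j))) ≠ 0 := fun j =>
    (Finset.mem_filter.1 (S.orderEmbOfCardLe_mem hcard j)).2
  let z : Fin (N - r + 1) → K := fun j => y (e j) / q.eval (algebraMap k K (a (e j)))
  have hz : ∀ j, z j ^ m = G.eval (algebraMap k K (a (e j))) := by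
    intro j
    rw [div_pow, ← hev, mul_div_assoc, mul_div_cancel₀ _ (pow_ne_zero _ (hqe j))]
  have hinj' : Function.Injective (fun j => a (e j)) := fun x x' h => e.injective (ha h)
  have hz0 : ∃ j0, z j0 ≠ 0 := by
    by_contra hcon
    push Not at hcon
    apply hG0
    refine eq_of_nodes (a := fun j => a (e j)) hinj' (by nlinarith) (by simp) fun j => ?_
    rw [← hz j, hcon j, zero_pow (by omega), eval_zero]
  obtain ⟨j0, hj0⟩ := hz0
  obtain ⟨w', hw'⟩ := trdeg_nat (z := z) hK
  have hgt : GeneralType k (coords k z) w' :=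
    gt_free (n := n - r * m) (a := fun j => a (e j)) hm hN' hinj' hG0 hGd hz hG hw'
  obtain ⟨u0, -, -, hgen⟩ := coords_fg (k := k) hj0
  obtain ⟨hgen, -⟩ := hgen
  have hw0 : w' = 0 := by
    by_contra hne
    exact hs w' (Nat.pos_of_ne_zero hne) (bog_of_sub (coords k z) hK (Set.finite_range u0) hgen
      hgt Bd)
  subst hw0
  -- the ratios are constants
  have hconst : ∀ j, ∃ κ : k, z j = z j0 * algebraMap k K κ := by
    intro j
    have h1 : Algebra.IsAlgebraic k (coords k z) := by
      have h2 := hw'
      rw [Nat.cast_zero, trdeg_eq_zero_iff] at h2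
      exact h2
    have h2 : z j / z j0 ∈ coords k z := IntermediateField.subset_adjoin k _ ⟨j, j0, hj0, rfl⟩
    have h3 : Algebra.IsIntegral k (coords k z) := Algebra.isAlgebraic_iff_isIntegral.1 h1
    obtain ⟨κ, hκ⟩ := (IsAlgClosed.algebraMap_bijective_of_isIntegral (k := k)
      (K := coords k z)).2 ⟨_, h2⟩
    refine ⟨κ, ?_⟩
    have h4 := congrArg (fun x : coords k z => (x : K)) hκ
    simp only at h4
    have h5 : algebraMap k K κ = z j / z j0 := h4
    rw [h5]
    field_simp
  choose κ hκ using hconst
  set c : K := z j0 with hc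
  have hcm : c ^ m ≠ 0 := pow_ne_zero _ hj0
  have hnr : n - r * m ≤ N - r := by nlinarith
  set G0 : k[X] := intp (fun j => a (e j)) hnr (fun j => κ j ^ m) with hG0d
  have hG0deg : G0.natDegree ≤ n - r * m := intp_natDegree hinj' hnr _
  have hmem : ∀ l : Rel (fun j => a (e j)) (n - r * m),
      val (fun j => κ j) (buchi (fun j => a (e j)) (n - r * m) m l) = 0 := by
    intro l
    have h1 := mem_of_poly (fun j => a (e j)) (n - r * m) m z G hGd (fun j => (hz j).symm) l
    obtain ⟨d, hd⟩ := isForm_buchi (fun j => a (e j)) (n - r * m) m l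
    have h2 : z = fun j => c * algebraMap k K (κ j) := funext hκ
    rw [h2, val_smul hd, mul_eq_zero, or_iff_right (pow_ne_zero _ hj0)] at h1
    have h3 : val (fun j => algebraMap k K (κ j)) (buchi (fun j => a (e j)) (n - r * m) m l) =
        algebraMap k K (val κ (buchi (fun j => a (e j)) (n - r * m) m l)) := by
      unfold val
      exact MvPolynomial.aeval_algebraMap_apply (R := k) (A := k) (B := K) κ _
    rw [h3] at h1
    exact (algebraMap k K).injective (by rw [h1, map_zero])
  have hG0ev : ∀ j, G0.eval (a (e j)) = κ j ^ m := by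
    intro j
    have h1 := intp_eval (K := k) hinj' hnr m hmem j
    exact h1
  have hG0map : G0.map (algebraMap k K) = C (c ^ m)⁻¹ * G := by
    refine eq_of_nodes (a := fun j => a (e j)) hinj' ?_ ?_ fun j => ?_
    · rw [natDegree_map]
      exact hG0deg.trans hnr
    · exact (natDegree_C_mul_le _ _).trans (hGd.trans hnr)
    · rw [eval_map_algebraMap, aeval_algebraMap_apply, coe_aeval_eq_eval, hG0ev, eval_mul,
        eval_C, ← hz j, hκ j, mul_pow, ← mul_assoc, inv_mul_cancel₀ hcm, one_mul, map_pow]
  have hG00 : G0 ≠ 0 := by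
    intro h0
    rw [h0, Polynomial.map_zero] at hG0map
    exact mul_ne_zero (C_ne_zero.2 (inv_ne_zero hcm)) hG0 hG0map.symm
  -- the constants at all nodes
  have hζ : ∀ i, ∃ ζ : k, ζ ^ m = G0.eval (a i) ∧
      y i = c * q.eval (algebraMap k K (a i)) * algebraMap k K ζ := by
    intro i
    by_cases hi : q.eval (algebraMap k K (a i)) = 0
    · obtain ⟨ζ, hζ⟩ := IsAlgClosed.exists_pow_nat_eq (G0.eval (a i)) (by omega : 0 < m)
      refine ⟨ζ, hζ, ?_⟩
      rw [hi, mul_zero, zero_mul]
      have h1 := hev i
      rw [hi, zero_pow (by omega), zero_mul] at h1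
      exact eq_zero_of_pow_eq_zero h1.symm
    · have h1 : (y i / q.eval (algebraMap k K (a i)) / c) ^ m =
          algebraMap k K (G0.eval (a i)) := by
        have h2 : algebraMap k K (G0.eval (a i)) =
            (G0.map (algebraMap k K)).eval (algebraMap k K (a i)) := by
          rw [eval_map_algebraMap, aeval_algebraMap_apply, coe_aeval_eq_eval]
        rw [h2, hG0map, eval_mul, eval_C, div_pow, div_pow, ← hev i, mul_div_right_comm,
          div_self (pow_ne_zero _ hi), one_mul, div_eq_mul_inv, mul_comm]
      -- all roots are constants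
      have h3 : ∃ ζ' : k, algebraMap k K ζ' = y i / q.eval (algebraMap k K (a i)) / c := by
        have h4 : IsAlgebraic k (y i / q.eval (algebraMap k K (a i)) / c) := by
          apply IsAlgebraic.of_pow (by omega : 0 < m)
          rw [h1]
          exact isAlgebraic_algebraMap _
        set x := y i / q.eval (algebraMap k K (a i)) / c
        have h5 : Algebra.IsAlgebraic k (IntermediateField.adjoin k {x}) :=
          IntermediateField.isAlgebraic_adjoin_simple h4.isIntegral
        have h6 : Algebra.IsIntegral k (IntermediateField.adjoin k {x}) :=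
          Algebra.isAlgebraic_iff_isIntegral.1 h5
        obtain ⟨ζ', hζ'⟩ := (IsAlgClosed.algebraMap_bijective_of_isIntegral (k := k)
          (K := IntermediateField.adjoin k {x})).2
          ⟨x, IntermediateField.mem_adjoin_simple_self k x⟩
        exact ⟨ζ', congrArg (fun x : IntermediateField.adjoin k {x} => (x : K)) hζ'⟩
      obtain ⟨ζ', hζ'⟩ := h3
      refine ⟨ζ', ?_, ?_⟩
      · apply (algebraMap k K).injective
        rw [map_pow, hζ', h1]
      · rw [hζ']
        field_simp
  choose ζ hζ1 hζ2 using hζ
  exact ⟨q, c, G0, ζ, hq, hj0, hG00, by rw [← hr]; omega, hζ1, hζ2⟩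

end Pool.Agent.Y216.SV
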