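import Pool.Agent.Y216.SV.Img
import Pool.Agent.TH710.SP.Tens
import Mathlib.FieldTheory.RatFunc.IntermediateField

/-!
Tensor differentials and rational connectedness for subvarieties of the power value varieties.
-/

set_option autoImplicit false

open FF Pool.Agent.W603.LV Pool.Agent.W602.GT Pool.Agent.Y190.BV Pool.Agent.Y190.QP
  Pool.Agent.TH710.WH Pool.Agent.TH710.SP

namespace Pool.Agent.Y216.SV

variable {k : Type} [Field k] {N n m w : ℕ} {K : Type} [Field K] [Algebra k K]

/-- a power of an alternating form, as a tensor -/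
def powT {p : ℕ} (θ : AlternatingMap K (Derivation k K K) K (Fin p)) (M : ℕ) (g : K) :
    MultilinearMap K (fun _ : Fin (M * p) => Derivation k K K) K where
  toFun D := g * ∏ a : Fin M, θ (fun i => D (finProdFinEquiv (a, i)))
  map_update_add' := by
    intro _ D j x x'
    obtain ⟨⟨a0, i0⟩, rfl⟩ := finProdFinEquiv.surjective j
    have h1 : ∀ z, ∏ a : Fin M, θ (fun i => Function.update D (finProdFinEquiv (a0, i0)) z
        (finProdFinEquiv (a, i))) =
        θ (Function.update (fun i => D (finProdFinEquiv (a0, i))) i0 z) *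
          ∏ a ∈ Finset.univ.erase a0, θ (fun i => D (finProdFinEquiv (a, i))) := by
      intro z
      rw [← Finset.mul_prod_erase Finset.univ _ (Finset.mem_univ a0)]
      congr 1
      · congr 1
        funext i
        by_cases hi : i = i0
        · rw [hi, Function.update_self, Function.update_self]
        · rw [Function.update_of_ne hi, Function.update_of_ne]
          intro h2
          have h3 := finProdFinEquiv.injective h2
          exact hi (Prod.ext_iff.1 h3).2
      · refine Finset.prod_congr rfl fun a ha => ?_
        congr 1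
        funext i
        rw [Function.update_of_ne]
        intro h2
        have h3 := finProdFinEquiv.injective h2
        exact Finset.ne_of_mem_erase ha (Prod.ext_iff.1 h3).1
    rw [h1, h1, h1, θ.map_update_add]
    ring
  map_update_smul' := by
    intro _ D j c x
    obtain ⟨⟨a0, i0⟩, rfl⟩ := finProdFinEquiv.surjective j
    have h1 : ∀ z, ∏ a : Fin M, θ (fun i => Function.update D (finProdFinEquiv (a0, i0)) z
        (finProdFinEquiv (a, i))) =
        θ (Function.update (fun i => D (finProdFinEquiv (a0, i))) i0 z) *
          ∏ a ∈ Finset.univ.erase a0, θ (fun i => D (finProdFinEquiv (a, i))) := by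
      intro z
      rw [← Finset.mul_prod_erase Finset.univ _ (Finset.mem_univ a0)]
      congr 1
      · congr 1
        funext i
        by_cases hi : i = i0
        · rw [hi, Function.update_self, Function.update_self]
        · rw [Function.update_of_ne hi, Function.update_of_ne]
          intro h2
          have h3 := finProdFinEquiv.injective h2
          exact hi (Prod.ext_iff.1 h3).2
      · refine Finset.prod_congr rfl fun a ha => ?_
        congr 1
        funext i
        rw [Function.update_of_ne]
        intro h2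
        have h3 := finProdFinEquiv.injective h2
        exact Finset.ne_of_mem_erase ha (Prod.ext_iff.1 h3).1
    rw [h1, h1, θ.map_update_smul]
    simp only [smul_eq_mul]
    ring

theorem powT_apply {p : ℕ} (θ : AlternatingMap K (Derivation k K K) K (Fin p)) (M : ℕ) (g : K)
    (D : Fin (M * p) → Derivation k K K) :
    powT θ M g D = g * ∏ a : Fin M, θ (fun i => D (finProdFinEquiv (a, i))) := rfl

/-- **Bogomolov sheaves give tensor differentials.** -/
theorem special_of_noTensors (hs : ∀ B, NoTensors k K w B) :
    Special k K w (fun _ => False) := by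
  classical
  rintro p hp ⟨θ, hθ, M, hM, f, -, hreg, hf0, -⟩
  have h1 := hs (M * p) (M * p) (Nat.mul_pos hM hp) le_rfl (powT θ M (f 0)) (by
    intro P hPd D hD
    rw [powT_apply]
    have h2 : ∀ a : Fin M, P.Reg (f 0 * θ (fun i => D (finProdFinEquiv (a, i))) ^ M) :=
      fun a => hreg P hPd (fun h => h) _ (fun i => hD _) 0
    by_cases hz : ∃ a : Fin M, θ (fun i => D (finProdFinEquiv (a, i))) = 0
    · obtain ⟨a, ha⟩ := hz
      rw [Finset.prod_eq_zero (Finset.mem_univ a) ha, mul_zero]
      exact Or.inl rfl
    · push Not at hz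
      have hpr : ∏ a : Fin M, θ (fun i => D (finProdFinEquiv (a, i))) ≠ 0 :=
        Finset.prod_ne_zero_iff.2 fun a _ => hz a
      right
      rw [P.ord_mul hf0 hpr, ord_prod' P _ _ fun a _ => hz a]
      have h3 : ∀ a : Fin M, 0 ≤ P.ord (f 0) +
          M * P.ord (θ (fun i => D (finProdFinEquiv (a, i)))) := by
        intro a
        rcases h2 a with h4 | h4
        · exact absurd h4 (mul_ne_zero hf0 (pow_ne_zero _ (hz a)))
        · rwa [P.ord_mul hf0 (pow_ne_zero _ (hz a)), P.ord_pow] at h4
      have h5 : (0 : ℤ) ≤ ∑ a : Fin M, (P.ord (f 0) +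
          M * P.ord (θ (fun i => D (finProdFinEquiv (a, i))))) :=
        Finset.sum_nonneg fun a _ => h3 a
      rw [Finset.sum_add_distrib, ← Finset.mul_sum, Finset.sum_const, Finset.card_univ,
        Fintype.card_fin, nsmul_eq_mul, ← mul_add] at h5
      exact nonneg_of_mul_nonneg_right h5 (by exact_mod_cast hM))
  apply hθ
  ext D
  have h2 := congrArg (fun ω => ω (fun j => D (finProdFinEquiv.symm j).2)) h1
  simp only [powT_apply, Equiv.symm_apply_apply, Finset.prod_const, Finset.card_univ,
    Fintype.card_fin, zero_apply] at h2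
  simpa using (eq_zero_of_pow_eq_zero ((mul_eq_zero.1 h2).resolve_left hf0))

/-- **The projective line** has no tensor differentials. -/
theorem noTensors_line [CharZero k] {s : K} (ht : Transcendental k s)
    (htop : IntermediateField.adjoin k {s} = ⊤) (B : ℕ) : NoTensors k K 1 B := by
  classical
  intro r hr _ ω hreg
  have hfin : FiniteDimensional (IntermediateField.adjoin k {s}) K := by
    rw [htop]
    apply FiniteDimensional.of_finrank_pos
    rw [IntermediateField.finrank_top]
    exact one_pos
  have hFF : IsFF k K := IsFF.of_finite ht hfin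
  have hbas : IsTranscendenceBasis k (fun _ : Unit => s) := IsFF.basis (k := k) ht
  obtain ⟨E, hE⟩ := W602.GT.exists_der (fun _ : Unit => s) hbas (fun _ => 1)
  have hEs : E s = 1 := hE ()
  have hD : ∀ D : Derivation k K K, D = D s • E := by
    intro D
    apply der_ext (fun _ : Unit => s) hbas
    intro _
    rw [Derivation.smul_apply, hEs, smul_eq_mul, mul_one]
  set g := ω (fun _ => E) with hg
  have hωD : ∀ D, ω D = (∏ i, D i s) * g := by
    intro D
    have h1 : D = fun i => D i s • E := funext fun i => hD (D i)
    conv_lhs => rw [h1]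
    rw [ω.map_smul_univ, smul_eq_mul]
  suffices hg0 : g = 0 by
    ext D
    rw [hωD, hg0, mul_zero]
    rfl
  by_contra hg0
  have hdiv : ∀ P : Place k K, Divisorial 1 P := by
    intro P
    refine ⟨fun _ => 0, fun F hF => ?_⟩
    have he : IsEmpty (Fin (1 - 1)) := by rw [Nat.sub_self]; infer_instance
    obtain ⟨c, rfl⟩ : ∃ c, F = MvPolynomial.C c := ⟨_, MvPolynomial.eq_C_of_isEmpty F⟩
    have hc : c ≠ 0 := by
      rintro rfl
      exact hF (map_zero _)
    rw [MvPolynomial.aeval_C]
    exact ⟨by rw [Ne, map_eq_zero]; exact hc, P.ord_const hc⟩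
  have hA : ∀ P : Place k K, 0 ≤ P.ord s → 0 ≤ P.ord g := by
    intro P hP
    have h2 := hreg P (hdiv P) (fun _ => E) fun _ =>
      reg_der (k := k) (M := k) (P := P) htop (Or.inr hP) E
        (fun c => ⟨0, by rw [map_zero]; exact E.map_algebraMap c⟩) (by rw [hEs]; exact Ge.one)
    exact (h2 : Ge P 0 g).resolve_left hg0
  have hs0 : s ≠ 0 := by
    rintro rfl
    exact ht isAlgebraic_zero
  have hB : ∀ P : Place k K, P.ord s < 0 → 0 < P.ord g := by
    intro P hP
    have htop' : IntermediateField.adjoin k {s⁻¹} = ⊤ := by rw [adjoin_inv, htop]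
    have hs : Ge P 0 s⁻¹ := Or.inr (by rw [P.ord_inv]; omega)
    have h2 := hreg P (hdiv P) (fun _ => s ^ 2 • E) fun _ =>
      reg_der (k := k) (M := k) (P := P) htop' hs (s ^ 2 • E)
        (fun c => ⟨0, by
          rw [map_zero, Derivation.smul_apply, E.map_algebraMap, smul_zero]⟩) (by
        rw [Derivation.smul_apply, E.leibniz_inv, hEs]
        have : s ^ 2 • (-s⁻¹ ^ 2 • (1 : K)) = -1 := by
          rw [smul_eq_mul, smul_eq_mul]
          field_simp
        rw [this]
        exact Ge.one.neg)
    have h5 : Ge P 0 (ω (fun _ => s ^ 2 • E)) := h2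
    rw [hωD] at h5
    have h6 : (∏ _i : Fin r, (s ^ 2 • E) s) = (s ^ 2) ^ r := by
      rw [Finset.prod_const, Finset.card_univ, Fintype.card_fin, Derivation.smul_apply, hEs,
        smul_eq_mul, mul_one]
    rw [h6] at h5
    have h7 := (Ge.of_mul (pow_ne_zero r (pow_ne_zero 2 hs0)) h5).resolve_left hg0
    rw [P.ord_pow, P.ord_pow] at h7
    have h8 : (1 : ℤ) ≤ r := by exact_mod_cast hr
    push_cast at h7
    nlinarith
  obtain ⟨S, hS1, hS2⟩ := poles (k := k) (K := K) ht
  obtain ⟨P0, hP0⟩ : ∃ P0 : Place k K, P0.ord s < 0 := by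
    have h2 : 0 < Module.finrank (IntermediateField.adjoin k {s}) K := Module.finrank_pos
    rw [← hS2] at h2
    obtain ⟨P0, hP0, -⟩ := Finset.exists_ne_zero_of_sum_ne_zero h2.ne'
    exact ⟨P0, (hS1 P0).1 hP0⟩
  have h2 := ddeg_divisor (k := k) g
  have h3 : 0 < ddeg (divisor k g) := by
    unfold ddeg Finsupp.sum
    refine Finset.sum_pos' ?_ ⟨P0, ?_, ?_⟩
    · intro P _
      rw [divisor_apply]
      refine mul_nonneg ?_ (Nat.cast_nonneg _)
      rcases lt_or_ge (P.ord s) 0 with h | h
      · exact (hB P h).le
      · exact hA P h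
    · rw [Finsupp.mem_support_iff, divisor_apply]
      exact (hB P0 hP0).ne'
    · rw [divisor_apply]
      exact mul_pos (hB P0 hP0) (by exact_mod_cast P0.deg_pos)
  omega

/-- points have no tensor differentials -/
theorem noTensors_point [CharZero k] (hK : Algebra.trdeg k K = (0 : ℕ)) (B : ℕ) :
    NoTensors k K w B := by
  intro r hr _ ω _
  have halg : Algebra.IsAlgebraic k K := by
    rw [Nat.cast_zero, trdeg_eq_zero_iff] at hK
    exact hK
  have hD : ∀ D : Derivation k K K, D = 0 := by
    intro D
    have hind : AlgebraicIndependent k (fun i : Empty => (i.elim : K)) :=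
      algebraicIndependent_empty_type
    have hbas : IsTranscendenceBasis k (fun i : Empty => (i.elim : K)) := by
      rw [hind.isTranscendenceBasis_iff_isAlgebraic]
      exact ⟨fun x => (halg.isAlgebraic x).extendScalars
        (algebraMap k (Algebra.adjoin k _)).injective⟩
    exact der_ext _ hbas fun i => i.elim
  ext D
  exact ω.map_coord_zero ⟨0, hr⟩ (hD _)

end Pool.Agent.Y216.SV
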