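import Pool.Agent.Y216.SV.Pi
import Pool.Agent.Y216.SV.Tns

/-!
Rationally connected subvarieties of the power value varieties.
-/

set_option autoImplicit false

open FF MvPolynomial Pool.Agent.W603.LV Pool.Agent.W602.GT Pool.Agent.Y190.BV Pool.Agent.Y190.QP
  Pool.Agent.TH710.WH Pool.Agent.TH710.SP Pool.Agent.W603.GX

namespace Pool.Agent.Y216.SV

variable {k : Type} [Field k] {N n m w : ℕ} {K : Type} [Field K] [Algebra k K]

theorem lin_comb (l a b : Fin (N + 1) → k) (c c' : k) :
    lin l (c • a + c' • b) = c * lin l a + c' * lin l b := by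
  unfold lin
  rw [Finset.mul_sum, Finset.mul_sum, ← Finset.sum_add_distrib]
  refine Finset.sum_congr rfl fun i _ => ?_
  simp only [Pi.add_apply, Pi.smul_apply, smul_eq_mul]
  ring

/-- points and lines are linear -/
theorem linear_of_pl {y : Fin (N + 1) → K} (h : IsPoint k y ∨ IsLine k y) : IsLinear k y := by
  intro a ha b hb c c' hne
  refine ⟨hne, fun G hG hG0 => hull_var h _ ?_ G hG hG0⟩
  intro l hl
  rw [lin_comb, hull_of_var' ha l hl, hull_of_var' hb l hl, mul_zero, mul_zero, add_zero]

/-- **Rationally connected subvarieties are linear.** -/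
theorem linear_of_rc [IsAlgClosed k] [CharZero k] (hm : 2 ≤ m) (hnm : n < 2 * m)
    (hN : 4 * n + (n + 1) ^ 2 < 2 * (N + 1)) {a : Fin (N + 1) → k}
    (ha : Function.Injective a) {y : Fin (N + 1) → K} (hy : SubVar (buchi a n m) K w y)
    (hc : RationallyConnected k y) : IsLinear k y := by
  classical
  obtain ⟨Ω, _, _, f, hΩ, hf, hgp⟩ := hc
  have hn : n ≤ N := by nlinarith
  have hch : CharZero Ω := charZero_of_injective_algebraMap (algebraMap k Ω).injective
  have hinj : Function.Injective (algebraMap (Polynomial Ω) (RatFunc Ω)) :=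
    RatFunc.algebraMap_injective Ω
  let b : Fin (N + 1) → RatFunc Ω := fun i => algebraMap (Polynomial Ω) (RatFunc Ω) (f i)
  have hvalb : ∀ G : MvPolynomial (Fin (N + 1)) k, val b G =
      algebraMap (Polynomial Ω) (RatFunc Ω) (aeval f G) := by
    intro G
    exact MvPolynomial.aeval_algebraMap_apply (R := k) (A := Polynomial Ω) (B := RatFunc Ω) f G
  have hvalb' : ∀ G : MvPolynomial (Fin (N + 1)) Ω, val b G =
      algebraMap (Polynomial Ω) (RatFunc Ω) (aeval f G) := by
    intro G
    exact MvPolynomial.aeval_algebraMap_apply (R := Ω) (A := Polynomial Ω) (B := RatFunc Ω) f G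
  have hb0 : b ≠ 0 := by
    intro h0
    have hf0 : ∀ i, f i = 0 := by
      intro i
      apply hinj
      rw [map_zero]
      exact congrFun h0 i
    obtain ⟨i, hi⟩ := Function.ne_iff.1 hy.ne
    have hi' : y i ≠ 0 := hi
    obtain ⟨z0, hz1, hz2⟩ := specialise y (X i : MvPolynomial (Fin (N + 1)) k) (by
      rw [aeval_X]; exact hi')
    rw [aeval_X] at hz1
    have hz : z0 ∈ VarPts k y := ⟨fun h => hz1 (by rw [h]; rfl), fun G _ hG => hz2 G hG⟩
    have h1 := hgp (X (Sum.inl i)) (by
      rw [aeval_X, Sum.elim_inl, hf0 i, Polynomial.eval_zero]) z0 hz z0 hz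
    rw [aeval_X, Sum.elim_inl] at h1
    exact hz1 h1
  have hbk : ∀ l : Rel a n, val b (buchi a n m l) = 0 := by
    intro l
    rw [hvalb, hf _ (isForm_buchi a n m l) (hy.mem l), map_zero]
  let a' : Fin (N + 1) → Ω := fun i => algebraMap k Ω (a i)
  have ha' : Function.Injective a' := (algebraMap k Ω).injective.comp ha
  have hbΩ : ∀ l : Rel a' n, val b (buchi a' n m l) = 0 := by
    refine mem_of_poly a' n m b (intp a hn fun i => b i ^ m) (intp_natDegree ha hn _) fun i => ?_
    have h1 := intp_eval ha hn m hbk i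
    have h2 : algebraMap Ω (RatFunc Ω) (a' i) = algebraMap k (RatFunc Ω) (a i) :=
      (IsScalarTower.algebraMap_apply k Ω (RatFunc Ω) (a i)).symm
    rw [h2]
    exact h1
  have hdim : Algebra.trdeg Ω (RatFunc Ω) = (1 : ℕ) :=
    dim_of_rat RatFunc.transcendental_X RatFunc.adjoin_X
  have hpt : PurelyTranscendental Ω (RatFunc Ω) := by
    refine ⟨Unit, inferInstance, fun _ => RatFunc.X, ?_, ?_⟩
    · rw [algebraicIndependent_unique_type_iff]
      exact RatFunc.transcendental_X
    · rw [Set.range_const]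
      exact RatFunc.adjoin_X
  have hpl := image_line hm hnm hN ha' hdim (special_of_rational hdim hpt) hb0 hbΩ
  -- the points `f(0)` and `f(1)` are on the point or line
  have hhull : ∀ s : Ω, (fun i => (f i).eval s) ∈ Hull Ω b := by
    intro s l hl
    have h1 : aeval f (lf l) = 0 := by
      apply hinj
      rw [map_zero, ← hvalb', val_lf, hl]
    have h2 := congrArg (Polynomial.eval s) h1
    rw [Polynomial.eval_zero] at h2
    have h3 : (Polynomial.aeval s : Polynomial Ω →ₐ[Ω] Ω).comp (aeval f) =
        aeval (fun i => (f i).eval s) := by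
      apply MvPolynomial.algHom_ext
      intro i
      simp only [AlgHom.comp_apply, aeval_X, Polynomial.coe_aeval_eq_eval]
    rw [← val_lf]
    unfold W602.GT.val
    rw [← h3, AlgHom.comp_apply, Polynomial.coe_aeval_eq_eval]
    exact h2
  have key : ∀ (c c' : Ω) (G : MvPolynomial (Fin (N + 1)) Ω), IsForm G → aeval f G = 0 →
      W602.GT.val (c • (fun i => (f i).eval 0) + c' • (fun i => (f i).eval 1)) G = 0 := by
    intro c c' G hG hG0
    refine hull_var hpl _ ?_ G hG (by rw [hvalb', hG0, map_zero])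
    intro l hl
    rw [lin_comb, hhull 0 l hl, hhull 1 l hl, mul_zero, mul_zero, add_zero]
  intro p hp q hq c c' hne
  refine ⟨hne, fun G0 hG0 hyG0 => ?_⟩
  have h1 : aeval (fun i => algebraMap k Ω c * (f i).eval 0 + algebraMap k Ω c' * (f i).eval 1)
      G0 = 0 := by
    obtain ⟨d, hd⟩ := hG0
    have h2 := key (algebraMap k Ω c) (algebraMap k Ω c') (MvPolynomial.map (algebraMap k Ω) G0)
      ⟨d, hd.map _⟩ (by
        rw [aeval_map_algebraMap]
        exact hf G0 ⟨d, hd⟩ hyG0)
    unfold W602.GT.val at h2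
    rw [aeval_map_algebraMap] at h2
    exact h2
  have h2 := hgp (aeval (fun i => C c * X (Sum.inl i) + C c' * X (Sum.inr i) :
    Fin (N + 1) → MvPolynomial (Fin (N + 1) ⊕ Fin (N + 1)) k) G0) (by
    refine Eq.trans ?_ h1
    rw [← AlgHom.comp_apply, comp_aeval]
    congr 2
    funext i
    simp only [map_add, map_mul, aeval_C, aeval_X, Sum.elim_inl, Sum.elim_inr]) p hp q hq
  rw [← AlgHom.comp_apply, comp_aeval] at h2
  unfold W602.GT.val
  rw [← h2]
  congr 2
  funext i
  simp only [map_add, map_mul, aeval_C, aeval_X, Sum.elim_inl, Sum.elim_inr, Pi.add_apply,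
    Pi.smul_apply, smul_eq_mul, Algebra.algebraMap_self, RingHom.id_apply]

/-- **Tensor differentials and rational connectedness.** -/
theorem tensors_tfae [IsAlgClosed k] [CharZero k] (hm : 2 ≤ m) (hnm : n < 2 * m)
    (hN : 4 * n + (n + 1) ^ 2 < 2 * (N + 1)) {a : Fin (N + 1) → k}
    (ha : Function.Injective a) {y : Fin (N + 1) → K} (hy : SubVar (buchi a n m) K w y) :
    [∀ B, NoTensors k K w B, RationallyConnected k y, Unirational k y,
      PurelyTranscendental k K, IsPoint k y ∨ IsLine k y].TFAE := by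
  have hinf : Infinite k := inferInstance
  tfae_have 1 → 5 := fun h => image_line hm hnm hN ha hy.dim (special_of_noTensors h) hy.ne hy.mem
  tfae_have 5 → 1 := by
    rintro (h | h) B
    · exact noTensors_point (h.dim_zero hy.gen) B
    · obtain ⟨s, hs, htop⟩ := h.rat hy.gen
      have h1 := dim_of_rat hs htop
      rw [hy.dim] at h1
      obtain rfl : w = 1 := by exact_mod_cast h1
      exact noTensors_line hs htop B
  tfae_have 5 → 3 := fun h => unirational_of_var (var_of_linear hy.ne (linear_of_pl h))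
  tfae_have 3 → 2 := connected_of_unirational
  tfae_have 2 → 4 := fun h => rational_of_linear hy.ne hy.gen (linear_of_rc hm hnm hN ha hy h)
  tfae_have 4 → 5 := fun h =>
    image_line hm hnm hN ha hy.dim (special_of_rational hy.dim h) hy.ne hy.mem
  tfae_finish

end Pool.Agent.Y216.SV
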