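import Pool.Agent.Y216.SV.Hul
import Pool.Agent.Y216.SV.Rc

/-!
Linear subspaces of the power value varieties.
-/

set_option autoImplicit false

open FF Pool.Agent.W603.LV Pool.Agent.W602.GT Pool.Agent.Y190.BV Pool.Agent.Y190.QP
  Pool.Agent.Y190.SN Pool.Agent.TH710.WH Pool.Agent.TH710.SP Pool.Agent.W603.GX Polynomial

namespace Pool.Agent.Y216.SV

variable {k : Type} [Field k] {N n m w : ℕ} {K : Type} [Field K] [Algebra k K]

/-- The projective variety with generic point `y` is contained in a linear subspace of dimension at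
most `e` of `P^N` such that for each of its points `x` the numbers `x i ^ m` are the values at the
`a i` of a polynomial of degree at most `n`. -/
def InLinearSpace (k : Type) [Field k] {K : Type} [Field K] [Algebra k K] (a : Fin (N + 1) → k)
    (n m e : ℕ) (y : Fin (N + 1) → K) : Prop :=
  ∃ L : Submodule k (Fin (N + 1) → k), Module.finrank k L ≤ e + 1 ∧
    (∀ x ∈ L, ∃ H : k[X], H.natDegree ≤ n ∧ ∀ i, x i ^ m = H.eval (a i)) ∧
    ∀ x ∈ VarPts k y, x ∈ L

/-- the linear space of the vectors `p (a i) * ζ i` -/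
def pspan (a ζ : Fin (N + 1) → k) (r : ℕ) : Submodule k (Fin (N + 1) → k) :=
  Submodule.span k (Set.range fun j : Fin (r + 1) => fun i => a i ^ (j : ℕ) * ζ i)

theorem finrank_pspan (a ζ : Fin (N + 1) → k) (r : ℕ) :
    Module.finrank k (pspan a ζ r) ≤ r + 1 := by
  have h1 := finrank_range_le_card (R := k) (fun j : Fin (r + 1) => fun i => a i ^ (j : ℕ) * ζ i)
  rwa [Fintype.card_fin] at h1

theorem mem_pspan {a ζ : Fin (N + 1) → k} {r : ℕ} {x : Fin (N + 1) → k} (hx : x ∈ pspan a ζ r) :
    ∃ p : k[X], p.natDegree ≤ r ∧ ∀ i, x i = p.eval (a i) * ζ i := by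
  classical
  obtain ⟨c, hc⟩ := (Submodule.mem_span_range_iff_exists_fun k).1 hx
  refine ⟨∑ j : Fin (r + 1), C (c j) * X ^ (j : ℕ), ?_, fun i => ?_⟩
  · refine natDegree_sum_le_of_forall_le _ _ fun j _ => ?_
    refine (natDegree_C_mul_X_pow_le _ _).trans ?_
    omega
  · rw [← hc, eval_finsetSum, Finset.sum_mul, Finset.sum_apply]
    refine Finset.sum_congr rfl fun j _ => ?_
    rw [Pi.smul_apply, eval_mul, eval_C, eval_pow, eval_X, smul_eq_mul, mul_assoc]

/-- the point is in the space -/
theorem pspan_sub {y : Fin (N + 1) → K} {a ζ : Fin (N + 1) → k} {q : K[X]} {c : K} (_ : c ≠ 0)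
    (hy : ∀ i, y i = c * q.eval (algebraMap k K (a i)) * algebraMap k K (ζ i))
    {x : Fin (N + 1) → k} (hx : x ∈ Hull k y) : x ∈ pspan a ζ q.natDegree := by
  classical
  by_contra hcon
  obtain ⟨φ, hφx, hφ⟩ := Submodule.exists_dual_map_eq_bot_of_notMem hcon inferInstance
  let l : Fin (N + 1) → k := fun i => φ (Pi.single i 1)
  have hl : ∀ v : Fin (N + 1) → k, φ v = ∑ i, l i * v i := by
    intro v
    have h1 : v = ∑ i, v i • (Pi.single i (1 : k) : Fin (N + 1) → k) := by
      funext i
      rw [Finset.sum_apply, Finset.sum_eq_single i]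
      · simp
      · intro j _ hj
        rw [Pi.smul_apply, Pi.single_eq_of_ne (Ne.symm hj), smul_zero]
      · intro h
        exact absurd (Finset.mem_univ i) h
    conv_lhs => rw [h1]
    rw [map_sum]
    refine Finset.sum_congr rfl fun i _ => ?_
    rw [map_smul, smul_eq_mul, mul_comm]
  apply hφx
  rw [hl, ← lin_base]
  apply hx
  have hb : ∀ j : Fin (q.natDegree + 1), ∑ i, l i * (a i ^ (j : ℕ) * ζ i) = 0 := by
    intro j
    rw [← hl fun i => a i ^ (j : ℕ) * ζ i]
    have h2 : φ (fun i => a i ^ (j : ℕ) * ζ i) ∈ Submodule.map φ (pspan a ζ q.natDegree) :=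
      Submodule.mem_map_of_mem (Submodule.subset_span ⟨j, rfl⟩)
    rw [hφ] at h2
    exact (Submodule.mem_bot k).1 h2
  have h3 : lin l y = c * ∑ j ∈ Finset.range (q.natDegree + 1), q.coeff j *
      algebraMap k K (∑ i, l i * (a i ^ j * ζ i)) := by
    unfold lin
    rw [Finset.mul_sum]
    have h4 : ∀ i, algebraMap k K (l i) * y i = ∑ j ∈ Finset.range (q.natDegree + 1),
        c * (q.coeff j * algebraMap k K (l i * (a i ^ j * ζ i))) := by
      intro i
      rw [hy i, eval_eq_sum_range, Finset.mul_sum, Finset.sum_mul, Finset.mul_sum]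
      refine Finset.sum_congr rfl fun j _ => ?_
      rw [map_mul, map_mul, map_pow]
      ring
    rw [Finset.sum_congr rfl fun i _ => h4 i, Finset.sum_comm]
    refine Finset.sum_congr rfl fun j _ => ?_
    rw [map_sum, Finset.mul_sum, Finset.mul_sum]
  rw [h3]
  have h5 : ∀ j ∈ Finset.range (q.natDegree + 1), q.coeff j *
      algebraMap k K (∑ i, l i * (a i ^ j * ζ i)) = 0 := by
    intro j hj
    rw [hb ⟨j, Finset.mem_range.1 hj⟩, map_zero, mul_zero]
  rw [Finset.sum_eq_zero h5, mul_zero]

/-- **The linear space.** -/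
theorem inLinear_of_str {y : Fin (N + 1) → K} {a ζ : Fin (N + 1) → k} {q : K[X]} {c : K}
    {G0 : k[X]} (hc : c ≠ 0) (hdeg : q.natDegree * m + G0.natDegree ≤ n)
    (hζ : ∀ i, ζ i ^ m = G0.eval (a i))
    (hy : ∀ i, y i = c * q.eval (algebraMap k K (a i)) * algebraMap k K (ζ i)) :
    InLinearSpace k a n m q.natDegree y := by
  refine ⟨pspan a ζ q.natDegree, finrank_pspan _ _ _, fun x hx => ?_, fun x hx =>
    pspan_sub hc hy (hull_of_var' hx)⟩
  obtain ⟨p, hp, hx⟩ := mem_pspan hx
  refine ⟨p ^ m * G0, ?_, fun i => ?_⟩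
  · refine natDegree_mul_le.trans ?_
    have h1 := natDegree_pow_le (p := p) (n := m)
    have h2 : m * p.natDegree ≤ q.natDegree * m := by
      rw [mul_comm]
      exact Nat.mul_le_mul_right m hp
    omega
  · rw [hx, mul_pow, hζ, eval_mul, eval_pow]

/-- **The whole linear space.** -/
theorem var_of_span [Infinite k] {y : Fin (N + 1) → K} {a ζ : Fin (N + 1) → k} {q : K[X]} {c : K}
    (hq : q.Monic) (hc : c ≠ 0)
    (hy : ∀ i, y i = c * q.eval (algebraMap k K (a i)) * algebraMap k K (ζ i))
    (hind : AlgebraicIndependent k fun j : Fin q.natDegree => q.coeff j)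
    {x : Fin (N + 1) → k} (hx : x ∈ pspan a ζ q.natDegree)
    {G : MvPolynomial (Fin (N + 1)) k} (hG : IsForm G) (hG0 : val y G = 0) :
    val x G = 0 := by
  classical
  obtain ⟨D, hD⟩ := hG
  set r := q.natDegree with hr
  -- monic polynomials
  let Q : MvPolynomial (Fin r) k := MvPolynomial.aeval (fun i =>
    (∑ j : Fin r, MvPolynomial.X j * MvPolynomial.C (a i ^ (j : ℕ)) +
      MvPolynomial.C (a i ^ r)) * MvPolynomial.C (ζ i) :
        Fin (N + 1) → MvPolynomial (Fin r) k) G
  have hQev : ∀ {M : Type} [Field M] [Algebra k M] (v : Fin r → M), MvPolynomial.aeval v Q =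
      val (fun i => (∑ j : Fin r, v j * algebraMap k M (a i ^ (j : ℕ)) +
        algebraMap k M (a i ^ r)) * algebraMap k M (ζ i)) G := by
    intro M _ _ v
    unfold val
    simp only [Q]
    rw [← AlgHom.comp_apply, MvPolynomial.comp_aeval]
    congr 2
    funext i
    simp only [map_mul, map_add, map_sum, MvPolynomial.aeval_X, MvPolynomial.aeval_C]
  have hQ0 : Q = 0 := by
    apply hind
    rw [map_zero, hQev]
    have h1 : (fun i => (∑ j : Fin r, q.coeff j * algebraMap k K (a i ^ (j : ℕ)) +
        algebraMap k K (a i ^ r)) * algebraMap k K (ζ i)) =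
        fun i => q.eval (algebraMap k K (a i)) * algebraMap k K (ζ i) := by
      funext i
      congr 1
      rw [eval_eq_sum_range, ← hr, Finset.sum_range_succ, Finset.sum_range]
      have h2 : q.coeff r = 1 := hq.coeff_natDegree
      rw [h2, one_mul, map_pow]
      simp only [map_pow]
    rw [h1]
    have h2 : y = fun i => c * (q.eval (algebraMap k K (a i)) * algebraMap k K (ζ i)) := by
      funext i
      rw [hy i, mul_assoc]
    rw [h2, val_smul hD, mul_eq_zero] at hG0
    exact hG0.resolve_left (pow_ne_zero _ hc)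
  have hmonic : ∀ v : Fin r → k, val (fun i => (∑ j : Fin r, v j * a i ^ (j : ℕ) + a i ^ r) *
      ζ i) G = 0 := by
    intro v
    have h1 := hQev (M := k) v
    rw [hQ0, map_zero] at h1
    simpa using h1.symm
  obtain ⟨p, hp, hx⟩ := mem_pspan hx
  have hev : ∀ i, p.eval (a i) = ∑ j : Fin r, p.coeff j * a i ^ (j : ℕ) + p.coeff r * a i ^ r := by
    intro i
    rw [eval_eq_sum_range' (Nat.lt_succ_of_le hp), Finset.sum_range_succ, Finset.sum_range]
  -- leading coefficient not zero
  have hlead : ∀ s : k, p.coeff r + s ≠ 0 →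
      val (fun i => (p.eval (a i) + s * a i ^ r) * ζ i) G = 0 := by
    intro s hs
    have h1 : (fun i => (p.eval (a i) + s * a i ^ r) * ζ i) = fun i => (p.coeff r + s) *
        ((∑ j : Fin r, (p.coeff j / (p.coeff r + s)) * a i ^ (j : ℕ) + a i ^ r) * ζ i) := by
      funext i
      rw [hev, ← mul_assoc, mul_add, Finset.mul_sum]
      congr 1
      have h2 : ∑ j : Fin r, (p.coeff r + s) * (p.coeff j / (p.coeff r + s) * a i ^ (j : ℕ)) =
          ∑ j : Fin r, p.coeff j * a i ^ (j : ℕ) := by
        refine Finset.sum_congr rfl fun j _ => ?_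
        rw [← mul_assoc, mul_div_cancel₀ _ hs]
      rw [h2]
      ring
    rw [h1, val_smul hD, hmonic, mul_zero]
  -- all polynomials
  let Φ : k[X] := MvPolynomial.aeval (fun i => C (p.eval (a i) * ζ i) + X * C (a i ^ r * ζ i) :
    Fin (N + 1) → k[X]) G
  have hΦ : ∀ s : k, Φ.eval s = val (fun i => (p.eval (a i) + s * a i ^ r) * ζ i) G := by
    intro s
    have h1 : Polynomial.eval s Φ = Polynomial.aeval s Φ := by
      rw [Polynomial.coe_aeval_eq_eval]
    rw [h1]
    unfold val
    simp only [Φ]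
    rw [← AlgHom.comp_apply, MvPolynomial.comp_aeval]
    congr 2
    funext i
    simp only [Polynomial.coe_aeval_eq_eval, eval_add, eval_C, eval_mul, eval_X]
    ring
  have hΦ0 : Φ = 0 := by
    apply Polynomial.eq_zero_of_infinite_isRoot
    refine Set.Infinite.mono (s := {-p.coeff r}ᶜ) ?_ (Set.Finite.infinite_compl
      (Set.finite_singleton _))
    intro s hs
    change Φ.eval s = 0
    rw [hΦ]
    apply hlead
    intro h0
    apply hs
    rw [Set.mem_singleton_iff]
    linear_combination h0
  have h1 := hΦ 0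
  rw [hΦ0, eval_zero] at h1
  have h2 : (fun i => (p.eval (a i) + 0 * a i ^ r) * ζ i) = x := by
    funext i
    rw [zero_mul, add_zero, hx]
  rw [← h2]
  exact h1.symm

/-- the dimension and the degree of `q` -/
theorem dim_of_str {y : Fin (N + 1) → K} {a ζ : Fin (N + 1) → k} {q : K[X]} {c : K}
    (hq : q.Monic) (hc : c ≠ 0)
    (hy : ∀ i, y i = c * q.eval (algebraMap k K (a i)) * algebraMap k K (ζ i))
    (hw : Algebra.trdeg k (coords k y) = w) :
    w ≤ q.natDegree ∧ (w = q.natDegree →
      AlgebraicIndependent k fun j : Fin q.natDegree => q.coeff j) := by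
  classical
  set x : Fin q.natDegree → K := fun j => q.coeff j with hx
  set M : IntermediateField k K := IntermediateField.adjoin k (Set.range x) with hM
  have hxM : ∀ j, x j ∈ M := fun j => IntermediateField.subset_adjoin k _ ⟨j, rfl⟩
  have hev : ∀ i, q.eval (algebraMap k K (a i)) ∈ M := by
    intro i
    rw [Polynomial.eval_eq_sum_range]
    refine M.sum_mem fun j hj => ?_
    refine mul_mem ?_ (pow_mem (M.algebraMap_mem _) j)
    rw [Finset.mem_range, Nat.lt_succ_iff] at hj
    rcases hj.lt_or_eq with h | h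
    · exact hxM ⟨j, h⟩
    · rw [h, hq.coeff_natDegree]
      exact M.one_mem
  have hle : coords k y ≤ M := by
    unfold coords
    rw [IntermediateField.adjoin_le_iff]
    rintro _ ⟨i, j, hj, rfl⟩
    have e : y i / y j = (q.eval (algebraMap k K (a i)) * algebraMap k K (ζ i)) /
        (q.eval (algebraMap k K (a j)) * algebraMap k K (ζ j)) := by
      rw [hy i, hy j, mul_assoc, mul_assoc, mul_div_mul_left _ _ hc]
    rw [e]
    exact M.div_mem (M.mul_mem (hev i) (M.algebraMap_mem _))
      (M.mul_mem (hev j) (M.algebraMap_mem _))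
  have h1 : (w : Cardinal) ≤ Algebra.trdeg k M := by
    rw [← hw]
    exact trdeg_le_of_injective (IntermediateField.inclusion hle)
      (IntermediateField.inclusion hle).injective
  let x' : Fin q.natDegree → M := fun j => ⟨x j, hxM j⟩
  have htop : IntermediateField.adjoin k (Set.range x') = ⊤ := by
    have h2 : (IntermediateField.adjoin k (Set.range x')).map M.val = M := by
      rw [IntermediateField.adjoin_map]
      apply le_antisymm
      · rw [IntermediateField.adjoin_le_iff]
        rintro _ ⟨_, ⟨i, rfl⟩, rfl⟩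
        exact (x' i).2
      · conv_lhs => rw [hM]
        rw [IntermediateField.adjoin_le_iff]
        rintro _ ⟨i, rfl⟩
        exact IntermediateField.subset_adjoin k _ ⟨x' i, ⟨i, rfl⟩, rfl⟩
    rw [eq_top_iff]
    intro u _
    have h3 : (u : K) ∈ (IntermediateField.adjoin k (Set.range x')).map M.val := by
      rw [h2]
      exact u.2
    obtain ⟨u', hu', huu⟩ := h3
    have h4 : u' = u := Subtype.ext huu
    rwa [← h4]
  have hfin : Algebra.trdeg k M ≤ (q.natDegree : Cardinal) := by
    have h1 : Algebra.IsAlgebraic (Algebra.adjoin k (Set.range x')) M := by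
      rw [← IntermediateField.isAlgebraic_adjoin_iff_top, htop]
      infer_instance
    have h2 := Algebra.IsAlgebraic.trdeg_le_cardinalMk k (Set.range x')
    refine h2.trans ?_
    have h3 := Cardinal.mk_range_le (f := x')
    rwa [Cardinal.mk_fin] at h3
  have hwr : w ≤ q.natDegree := by
    exact_mod_cast h1.trans hfin
  refine ⟨hwr, fun h => ?_⟩
  have h2 : Algebra.IsAlgebraic (Algebra.adjoin k (Set.range x')) M := by
    rw [← IntermediateField.isAlgebraic_adjoin_iff_top, htop]
    infer_instance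
  have h3 := Algebra.IsAlgebraic.isTranscendenceBasis_of_le_trdeg_of_finite k x' (by
    rw [Cardinal.mk_fin, ← h]
    exact h1)
  exact h3.1.map' (f := M.val) M.val.toRingHom.injective

/-- **Large linear subvarieties.** -/
theorem linear_of_str [Infinite k] {y : Fin (N + 1) → K} {a ζ : Fin (N + 1) → k} {q : K[X]}
    {c : K} (hq : q.Monic) (hc : c ≠ 0)
    (hy : ∀ i, y i = c * q.eval (algebraMap k K (a i)) * algebraMap k K (ζ i))
    (hw : Algebra.trdeg k (coords k y) = w) (hqw : q.natDegree ≤ w) : IsLinear k y := by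
  obtain ⟨h1, h2⟩ := dim_of_str hq hc hy hw
  have hind := h2 (le_antisymm h1 hqw)
  intro x hx x' hx' c1 c2 hne
  refine ⟨hne, fun G hG hG0 => var_of_span hq hc hy hind ?_ hG hG0⟩
  exact Submodule.add_mem _
    (Submodule.smul_mem _ _ (pspan_sub hc hy (hull_of_var' hx)))
    (Submodule.smul_mem _ _ (pspan_sub hc hy (hull_of_var' hx')))

end Pool.Agent.Y216.SV
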