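import Pool.Agent.Y216.SV.Hul2

/-!
Rationality of the subvarieties of the power value varieties, polynomials of any degree.
-/

set_option autoImplicit false

open FF Pool.Agent.W603.LV Pool.Agent.W602.GT Pool.Agent.Y190.BV Pool.Agent.Y190.QP
  Pool.Agent.Y190.SN Pool.Agent.TH710.WH Pool.Agent.TH710.SP Pool.Agent.W603.GX Polynomial

namespace Pool.Agent.Y216.SV

variable {k : Type} [Field k] {N n m w : ℕ} {K : Type} [Field K] [Algebra k K]

/-- The projective variety with generic point `y` is the closure of the image of a rational map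
`y'` from a variety (with function field `L`) which is special, possibly after the removal of a
closed subset (the places in `Bd` are those whose centre is in this subset). -/
def SpecialDominated (k : Type) [Field k] {K : Type} [Field K] [Algebra k K]
    (y : Fin (N + 1) → K) : Prop :=
  ∃ (L : Type) (_ : Field L) (_ : Algebra k L) (v : ℕ) (Bd : Place k L → Prop)
    (y' : Fin (N + 1) → L), Algebra.trdeg k L = v ∧ Special k L v Bd ∧
    ∀ G : MvPolynomial (Fin (N + 1)) k, IsForm G → (val y G = 0 ↔ val y' G = 0)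

/-- the function field of the image -/
theorem trdeg_image {L : Type} [Field L] [Algebra k L] {y : Fin (N + 1) → K} (hy0 : y ≠ 0)
    (hgen : coords k y = ⊤) (hw : Algebra.trdeg k K = w) {y' : Fin (N + 1) → L}
    (h : ∀ G : MvPolynomial (Fin (N + 1)) k, IsForm G → (val y G = 0 ↔ val y' G = 0)) :
    y' ≠ 0 ∧ Algebra.trdeg k (coords k y') = w := by
  obtain ⟨j0, hj0⟩ := Function.ne_iff.1 hy0
  have hj0' : y j0 ≠ 0 := hj0
  have hX : IsForm (MvPolynomial.X j0 : MvPolynomial (Fin (N + 1)) k) :=
    ⟨1, MvPolynomial.isHomogeneous_X _ _⟩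
  have hvX : ∀ {M : Type} [Field M] [Algebra k M] (v : Fin (N + 1) → M),
      val v (MvPolynomial.X j0 : MvPolynomial (Fin (N + 1)) k) = v j0 := by
    intro M _ _ v
    unfold val
    rw [MvPolynomial.aeval_X]
  have hY0 : y' j0 ≠ 0 := by
    intro h0
    apply hj0'
    have h1 := (h _ hX).2 (by rw [hvX, h0])
    rwa [hvX] at h1
  obtain ⟨φ, hφ⟩ := exists_embedding hj0' hY0 hgen h
  refine ⟨fun h0 => hY0 (by rw [h0]; rfl), ?_⟩
  have hr : φ.fieldRange = coords k y' := by
    have h1 : φ.fieldRange = (coords k y).map φ := by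
      rw [hgen]
      exact AlgHom.fieldRange_eq_map φ
    rw [h1]
    unfold coords
    rw [IntermediateField.adjoin_map]
    have hz : ∀ i, y i = 0 ↔ y' i = 0 := by
      intro i
      have h2 := h (MvPolynomial.X i) ⟨1, MvPolynomial.isHomogeneous_X _ _⟩
      have h3 : ∀ {M : Type} [Field M] [Algebra k M] (v : Fin (N + 1) → M),
          val v (MvPolynomial.X i : MvPolynomial (Fin (N + 1)) k) = v i := by
        intro M _ _ v
        unfold val
        rw [MvPolynomial.aeval_X]
      rwa [h3, h3] at h2
    have hq : ∀ i j, φ (y i / y j) = y' i / y' j := by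
      intro i j
      have h2 : y i / y j = (y i / y j0) / (y j / y j0) := by
        rw [div_div_div_cancel_right₀ hj0']
      rw [h2, map_div₀, hφ, hφ, div_div_div_cancel_right₀ hY0]
    congr 1
    ext x
    constructor
    · rintro ⟨_, ⟨i, j, hj, rfl⟩, rfl⟩
      exact ⟨i, j, fun h0 => hj ((hz j).2 h0), hq i j⟩
    · rintro ⟨i, j, hj, rfl⟩
      exact ⟨y i / y j, ⟨i, j, fun h0 => hj ((hz j).1 h0), rfl⟩, hq i j⟩
  rw [← hr, ← hw]
  exact (AlgEquiv.ofInjectiveField φ).trdeg_eq.symm

/-- the field of rational functions -/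
theorem pt_fractionRing (k : Type) [Field k] (v : ℕ) :
    PurelyTranscendental k (FractionRing (MvPolynomial (Fin v) k)) ∧
    Algebra.trdeg k (FractionRing (MvPolynomial (Fin v) k)) = v := by
  classical
  set L := FractionRing (MvPolynomial (Fin v) k)
  let t : Fin v → L := fun j => algebraMap (MvPolynomial (Fin v) k) L (MvPolynomial.X j)
  have hinj : Function.Injective (algebraMap (MvPolynomial (Fin v) k) L) :=
    IsFractionRing.injective _ _
  have hind : AlgebraicIndependent k t := by
    have h1 := (MvPolynomial.algebraicIndependent_X (Fin v) k).map'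
      (f := IsScalarTower.toAlgHom k (MvPolynomial (Fin v) k) L) hinj
    exact h1
  have htop : IntermediateField.adjoin k (Set.range t) = ⊤ := by
    rw [eq_top_iff]
    intro x _
    have hpol : ∀ p : MvPolynomial (Fin v) k, algebraMap (MvPolynomial (Fin v) k) L p ∈
        IntermediateField.adjoin k (Set.range t) := by
      intro p
      induction p using MvPolynomial.induction_on with
      | C c =>
        have h1 : algebraMap (MvPolynomial (Fin v) k) L (MvPolynomial.C c) = algebraMap k L c :=
          (IsScalarTower.algebraMap_apply k (MvPolynomial (Fin v) k) L c).symm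
        rw [h1]
        exact IntermediateField.algebraMap_mem _ c
      | add p q hp hq =>
        rw [map_add]
        exact add_mem hp hq
      | mul_X p j hp =>
        rw [map_mul]
        exact mul_mem hp (IntermediateField.subset_adjoin k _ ⟨j, rfl⟩)
    obtain ⟨p, q, -, rfl⟩ := IsFractionRing.div_surjective (A := MvPolynomial (Fin v) k) x
    exact div_mem (hpol p) (hpol q)
  refine ⟨⟨Fin v, inferInstance, t, hind, htop⟩, ?_⟩
  have hbasis : IsTranscendenceBasis k t := by
    rw [hind.isTranscendenceBasis_iff_isAlgebraic, ← IntermediateField.isAlgebraic_adjoin_iff_top,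
      htop]
    infer_instance
  have h1 := hbasis.cardinalMk_eq_trdeg
  rw [Cardinal.mk_fin] at h1
  exact h1.symm

variable [IsAlgClosed k] [CharZero k]

/-- **Varieties dominated by special varieties.** -/
theorem inLinear_of_dominated (hm : 2 ≤ m) (hN : 4 * n + (n + 1) ^ 2 < 2 * (N + 1))
    {a : Fin (N + 1) → k} (ha : Function.Injective a) {y : Fin (N + 1) → K}
    (hy : SubVar (buchi a n m) K w y) (hs : SpecialDominated k y) :
    (∃ e, e * m ≤ n ∧ w ≤ e ∧ InLinearSpace k a n m e y) ∧ (n < (w + 1) * m → IsLinear k y) := by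
  classical
  have hinf : Infinite k := inferInstance
  obtain ⟨L, _, _, v, Bd, y', hL, hsp, hG⟩ := hs
  obtain ⟨hy'0, htr⟩ := trdeg_image hy.ne hy.gen hy.dim hG
  have hy' : ∀ l : Rel a n, val y' (buchi a n m l) = 0 := fun l =>
    (hG _ (isForm_buchi a n m l)).1 (hy.mem l)
  obtain ⟨q, c, G0, ζ, hq, hc, hG0, hdeg, hζ, hyz⟩ := hull_of_special hm hN ha hL hsp hy'0 hy'
  have hVar : ∀ x, x ∈ VarPts k y ↔ x ∈ VarPts k y' := by
    intro x
    constructor
    · rintro ⟨h1, h2⟩
      exact ⟨h1, fun G hGf h0 => h2 G hGf ((hG G hGf).2 h0)⟩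
    · rintro ⟨h1, h2⟩
      exact ⟨h1, fun G hGf h0 => h2 G hGf ((hG G hGf).1 h0)⟩
  have hdim := dim_of_str hq hc hyz htr
  refine ⟨⟨q.natDegree, by omega, hdim.1, ?_⟩, fun hnw => ?_⟩
  · obtain ⟨M, hM1, hM2, hM3⟩ := inLinear_of_str (n := n) (m := m) hc hdeg hζ hyz
    exact ⟨M, hM1, hM2, fun x hx => hM3 x ((hVar x).1 hx)⟩
  · have hqw : q.natDegree ≤ w := by
      by_contra hcon
      have h1 : (w + 1) * m ≤ q.natDegree * m := Nat.mul_le_mul_right m (by omega)
      omega
    have h1 := linear_of_str hq hc hyz htr hqw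
    intro x hx x' hx' c1 c2 hne
    exact (hVar _).2 (h1 x ((hVar x).1 hx) x' ((hVar x').1 hx') c1 c2 hne)

omit [IsAlgClosed k] [CharZero k] in
theorem dominated_of_special {y : Fin (N + 1) → K} (hw : Algebra.trdeg k K = w)
    {Bd : Place k K → Prop} (hs : Special k K w Bd) : SpecialDominated k y :=
  ⟨K, _, _, w, Bd, y, hw, hs, fun _ _ => Iff.rfl⟩

theorem dominated_of_unirational {y : Fin (N + 1) → K} (h : Unirational k y) :
    SpecialDominated k y := by
  obtain ⟨v, P, hP⟩ := h
  obtain ⟨h1, h2⟩ := pt_fractionRing k v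
  refine ⟨FractionRing (MvPolynomial (Fin v) k), _, _, v, fun _ => False,
    fun i => algebraMap _ _ (P i), h2, special_of_rational h2 h1, fun G hG => ?_⟩
  rw [hP G hG]
  unfold val
  have h3 : (MvPolynomial.aeval fun i => algebraMap (MvPolynomial (Fin v) k)
      (FractionRing (MvPolynomial (Fin v) k)) (P i)) G = algebraMap (MvPolynomial (Fin v) k)
      (FractionRing (MvPolynomial (Fin v) k)) (MvPolynomial.aeval P G) :=
    MvPolynomial.aeval_algebraMap_apply (R := k) (A := MvPolynomial (Fin v) k)
      (B := FractionRing (MvPolynomial (Fin v) k)) P G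
  rw [h3]
  exact (map_eq_zero_iff _ (IsFractionRing.injective (MvPolynomial (Fin v) k)
    (FractionRing (MvPolynomial (Fin v) k)))).symm

/-- **Rationality.** -/
theorem rational_tfae (hm : 2 ≤ m) (hN : 4 * n + (n + 1) ^ 2 < 2 * (N + 1))
    {a : Fin (N + 1) → k} (ha : Function.Injective a) {y : Fin (N + 1) → K}
    (hy : SubVar (buchi a n m) K w y) (hnw : n < (w + 1) * m) :
    [IsLinear k y, PurelyTranscendental k K, Unirational k y, SpecialDominated k y,
      Special k K w (fun _ => False)].TFAE := by
  have hinf : Infinite k := inferInstance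
  tfae_have 1 → 2 := rational_of_linear hy.ne hy.gen
  tfae_have 2 → 5 := special_of_rational hy.dim
  tfae_have 5 → 4 := dominated_of_special hy.dim
  tfae_have 4 → 1 := fun h => (inLinear_of_dominated hm hN ha hy h).2 hnw
  tfae_have 1 → 3 := fun h => unirational_of_var (var_of_linear hy.ne h)
  tfae_have 3 → 4 := dominated_of_unirational
  tfae_finish

end Pool.Agent.Y216.SV
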