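import Pool.Agent.Y216.SV.Pd
import Pool.Agent.Y216.SV.Geo
import Pool.Agent.TH710.WH.Five

/-!
Images of varieties in the power value varieties; tensor differentials.
-/

set_option autoImplicit false

open FF Pool.Agent.W603.LV Pool.Agent.W602.GT Pool.Agent.Y190.BV Pool.Agent.Y190.QP

namespace Pool.Agent.Y216.SV

variable {k : Type} [Field k] {N n m w : ℕ} {K : Type} [Field K] [Algebra k K]

/-- the dimension of a field generated by finitely many coordinates -/
theorem trdeg_nat {z : Fin (N + 1) → K} (hK : Algebra.trdeg k K = w) :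
    ∃ w' : ℕ, Algebra.trdeg k (coords k z) = w' := by
  have h1 : Algebra.trdeg k (coords k z) ≤ Algebra.trdeg k K :=
    trdeg_le_of_injective (coords k z).val (coords k z).val.injective
  have h2 : Algebra.trdeg k (coords k z) < Cardinal.aleph0 := by
    refine lt_of_le_of_lt h1 ?_
    rw [hK]
    exact Cardinal.natCast_lt_aleph0 (n := w)
  exact Cardinal.lt_aleph0.1 h2

/-- the generic point of the image, with coordinates in its function field -/
theorem image_sub {z : Fin (N + 1) → K} {w' : ℕ} {a : Fin (N + 1) → k} (hz0 : z ≠ 0)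
    (hz : ∀ l : Rel a n, val z (buchi a n m l) = 0) (hw : Algebra.trdeg k (coords k z) = w') :
    ∃ (u : Fin (N + 1) → coords k z) (c : K), c ≠ 0 ∧ (∀ i, z i = c * (u i : K)) ∧
      SubVar (buchi a n m) (coords k z) w' u ∧
      IntermediateField.adjoin k (Set.range u) = ⊤ := by
  obtain ⟨i, hi⟩ := Function.ne_iff.1 hz0
  have hi' : z i ≠ 0 := hi
  obtain ⟨u, hu, hu0, hgen, hgen'⟩ := coords_fg (k := k) hi'
  have hval : ∀ G : MvPolynomial (Fin (N + 1)) k, ((val u G : coords k z) : K) =
      val (fun i => (u i : K)) G := by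
    intro G
    unfold val
    exact (MvPolynomial.aeval_algebraMap_apply (R := k) (A := coords k z) (B := K) u G).symm
  refine ⟨u, z i, hi', hu, ⟨fun h0 => ?_, fun l => ?_, hgen', hw⟩, hgen⟩
  · have := congrFun h0 i
    rw [hu0] at this
    exact one_ne_zero this
  · apply Subtype.ext
    have h2 := hz l
    have h3 : z = fun l => z i * (u l : K) := funext hu
    obtain ⟨d, hd⟩ := isForm_buchi a n m l
    rw [h3, val_smul hd] at h2
    rw [hval]
    exact (mul_eq_zero.1 h2).resolve_left (pow_ne_zero _ hi')

variable [IsAlgClosed k] [CharZero k]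

/-- power value varieties of low degree -/
theorem gt_coords (hm : 2 ≤ m) (hnm : n < m) (hN : 4 * n + (n + 1) ^ 2 < 2 * (N + 1))
    {a : Fin (N + 1) → k} (ha : Function.Injective a) {z : Fin (N + 1) → K} {w' : ℕ}
    (hz0 : z ≠ 0) (hz : ∀ l : Rel a n, val z (buchi a n m l) = 0)
    (hw : Algebra.trdeg k (coords k z) = w') : GeneralType k (coords k z) w' := by
  obtain ⟨u, c, -, -, hsub, -⟩ := image_sub hz0 hz hw
  by_contra hcon
  have h2 := (structure_thm hm (by omega) hN ha hsub hcon).1
  omega

/-- **Images of special varieties.** -/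
theorem image_line (hm : 2 ≤ m) (hnm : n < 2 * m) (hN : 4 * n + (n + 1) ^ 2 < 2 * (N + 1))
    {a : Fin (N + 1) → k} (ha : Function.Injective a) (hK : Algebra.trdeg k K = w)
    {Bd : Place k K → Prop} (hs : Special k K w Bd) {b : Fin (N + 1) → K} (hb0 : b ≠ 0)
    (hb : ∀ l : Rel a n, val b (buchi a n m l) = 0) : IsPoint k b ∨ IsLine k b := by
  classical
  have hinf : Infinite k := inferInstance
  obtain ⟨w0, hw0⟩ := trdeg_nat (z := b) hK
  obtain ⟨u, c, hc, hu, hsub, hgen⟩ := image_sub hb0 hb hw0
  have hval : ∀ G : MvPolynomial (Fin (N + 1)) k, IsForm G → (val b G = 0 ↔ val u G = 0) := by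
    rintro G ⟨d, hd⟩
    have h1 : ((val u G : coords k b) : K) = val (fun i => (u i : K)) G := by
      unfold val
      exact (MvPolynomial.aeval_algebraMap_apply (R := k) (A := coords k b) (B := K) u G).symm
    have h4 : val b G = c ^ d * ((val u G : coords k b) : K) := by
      rw [h1, ← val_smul hd]
      exact congrArg (fun b => val b G) (funext hu)
    rw [h4, mul_eq_zero, or_iff_right (pow_ne_zero _ hc), ZeroMemClass.coe_eq_zero]
  by_cases hgt : GeneralType k (coords k b) w0
  · rcases Nat.eq_zero_or_pos w0 with rfl | hpos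
    · left
      obtain ⟨x, hx, hxG⟩ := isPoint_of_alg hsub.ne hsub.dim
      exact ⟨x, hx, fun G hG => (hval G hG).trans (hxG G hG)⟩
    · exact absurd (bog_of_sub (coords k b) hK (Set.finite_range u) hgen hgt Bd) (hs w0 hpos)
  · obtain ⟨-, w', t, z, rfl, hyz, hz, hij, htr, htop, hM, -⟩ := core hm hnm hN ha hsub hgt
    obtain ⟨i, j, hij', hi, hj⟩ := hij
    let z' : Fin (N + 1) → K := fun i => (z i : K)
    have hz'0 : z' ≠ 0 := by
      intro h0
      apply hi
      exact Subtype.ext (congrFun h0 i)
    have hz' : ∀ l : Rel a (n - m), val z' (buchi a (n - m) m l) = 0 := by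
      intro l
      have h1 : val z' (buchi a (n - m) m l) =
          ((val z (buchi a (n - m) m l) : coords k b) : K) := by
        unfold val
        exact MvPolynomial.aeval_algebraMap_apply (R := k) (A := coords k b) (B := K) z _
      rw [h1, hz l]
      rfl
    have hmap : coords k z' = (coords k z).map (coords k b).val := by
      unfold coords
      rw [IntermediateField.adjoin_map]
      congr 1
      ext x
      constructor
      · rintro ⟨i, j, hj, rfl⟩
        exact ⟨z i / z j, ⟨i, j, fun h0 => hj (by simp only [z', h0]; rfl), rfl⟩, rfl⟩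
      · rintro ⟨_, ⟨i, j, hj, rfl⟩, rfl⟩
        exact ⟨i, j, fun h0 => hj (Subtype.ext h0), rfl⟩
    have hdim : Algebra.trdeg k (coords k z') = w' := by
      rw [hmap, ← hM.1]
      exact (IntermediateField.equivMap (coords k z) (coords k b).val).symm.trdeg_eq
    have hle : n - m ≤ n := Nat.sub_le _ _
    have hN' : 4 * (n - m) + (n - m + 1) ^ 2 < 2 * (N + 1) := by nlinarith
    obtain ⟨u', -, -, -, -, hgen'⟩ := image_sub hz'0 hz' hdim
    have hM' : GeneralType k (coords k z') w' := gt_coords hm (by omega) hN' ha hz'0 hz' hdim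
    rcases Nat.eq_zero_or_pos w' with rfl | hpos
    · right
      obtain ⟨x, x', hxx, hxG⟩ := line_of_core ha hyz ⟨i, j, hij', hi, hj⟩ htr hM.1
      exact ⟨x, x', hxx, fun G hG => (hval G hG).trans (hxG G hG)⟩
    · exact absurd (bog_of_sub (coords k z') hK (Set.finite_range u') hgen' hM' Bd) (hs w' hpos)

end Pool.Agent.Y216.SV
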