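import Pool.Agent.Y216.SV.Bog
import Pool.Agent.Y190.QP.SpB

/-!
The core of the closed subvarieties of the power value varieties.
-/

set_option autoImplicit false

open FF Pool.Agent.W603.LV Pool.Agent.W602.GT Pool.Agent.Y190.BV Pool.Agent.Y190.QP

namespace Pool.Agent.Y216.SV

variable {k : Type} [Field k] {N n m w : ℕ} {K : Type} [Field K] [Algebra k K]

/-- the coordinates in the field of their ratios -/
theorem coords_fg {z : Fin (N + 1) → K} {j0 : Fin (N + 1)} (hj0 : z j0 ≠ 0) :
    ∃ u : Fin (N + 1) → coords k z, (∀ i, z i = z j0 * (u i : K)) ∧ u j0 = 1 ∧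
      IntermediateField.adjoin k (Set.range u) = ⊤ ∧ coords k u = ⊤ := by
  let u : Fin (N + 1) → coords k z := fun i =>
    ⟨z i / z j0, IntermediateField.subset_adjoin k _ ⟨i, j0, hj0, rfl⟩⟩
  have hu : ∀ i, (u i : K) = z i / z j0 := fun i => rfl
  have hu0 : u j0 = 1 := Subtype.ext (by rw [hu, div_self hj0]; rfl)
  have h1 : IntermediateField.adjoin k (Set.range u) = ⊤ := by
    have h2 : (IntermediateField.adjoin k (Set.range u)).map (coords k z).val = coords k z := by
      rw [IntermediateField.adjoin_map]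
      apply le_antisymm
      · rw [IntermediateField.adjoin_le_iff]
        rintro _ ⟨_, ⟨i, rfl⟩, rfl⟩
        exact (u i).2
      · unfold coords
        rw [IntermediateField.adjoin_le_iff]
        rintro _ ⟨i, j, hj, rfl⟩
        have h3 : ∀ i, z i / z j0 ∈ IntermediateField.adjoin k
            ((coords k z).val '' Set.range u) := fun i =>
          IntermediateField.subset_adjoin k _ ⟨u i, ⟨i, rfl⟩, rfl⟩
        have h4 := div_mem (h3 i) (h3 j)
        rwa [div_div_div_cancel_right₀ hj0] at h4
    rw [eq_top_iff]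
    intro x _
    have h3 : (x : K) ∈ (IntermediateField.adjoin k (Set.range u)).map (coords k z).val := by
      rw [h2]
      exact x.2
    obtain ⟨x', hx', hxx⟩ := h3
    have h4 : x' = x := Subtype.ext hxx
    rwa [← h4]
  refine ⟨u, fun i => by rw [hu]; field_simp, hu0, h1, ?_⟩
  rw [eq_top_iff, ← h1, IntermediateField.adjoin_le_iff]
  rintro _ ⟨i, rfl⟩
  apply IntermediateField.subset_adjoin
  exact ⟨i, j0, by rw [hu0]; exact one_ne_zero, by rw [hu0, div_one]⟩

variable [IsAlgClosed k] [CharZero k]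

/-- **The core.** A closed subvariety of a power value variety which is not of general type is
birational to the product of a line with a variety of general type. -/
theorem core (hm : 2 ≤ m) (hnm : n < 2 * m) (hN : 4 * n + (n + 1) ^ 2 < 2 * (N + 1))
    {a : Fin (N + 1) → k} (ha : Function.Injective a) {y : Fin (N + 1) → K}
    (hy : SubVar (buchi a n m) K w y) (hgt : ¬ GeneralType k K w) :
    m ≤ n ∧ ∃ (w' : ℕ) (t : K) (z : Fin (N + 1) → K), w = w' + 1 ∧
      (∀ i, y i = (algebraMap k K (a i) - t) * z i) ∧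
      (∀ l : Rel a (n - m), val z (buchi a (n - m) m l) = 0) ∧
      (∃ i j, i ≠ j ∧ z i ≠ 0 ∧ z j ≠ 0) ∧ Transcendental (coords k z) t ∧
      IntermediateField.adjoin (coords k z) {t} = ⊤ ∧ GeneralType k (coords k z) w' ∧
      ∃ S : Set (coords k z), S.Finite ∧ IntermediateField.adjoin k S = ⊤ := by
  classical
  obtain ⟨hmn, t, z, hyz, hz, hij, htr, htop⟩ := structure_thm hm hnm hN ha hy hgt
  obtain ⟨i, j, hij', hi, hj⟩ := hij
  obtain ⟨u, hu, hu0, hgen, hgen'⟩ := coords_fg (k := k) hi
  have hfin : FiniteDimensional (IntermediateField.adjoin (coords k z) {t}) K := by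
    rw [htop]
    apply FiniteDimensional.of_finrank_pos
    rw [IntermediateField.finrank_top]
    exact one_pos
  have hchM : CharZero (coords k z) :=
    charZero_of_injective_algebraMap (algebraMap k (coords k z)).injective
  have hFF : IsFF (coords k z) K := IsFF.of_finite htr hfin
  have h1 : Algebra.trdeg k (coords k z) + 1 = w := by
    rw [← hy.dim, ← _root_.trdeg_add_eq (R := k) (S := coords k z) (A := K),
      IsFF.trdeg (k := coords k z) (K := K)]
  obtain ⟨w', hw'⟩ : ∃ w' : ℕ, Algebra.trdeg k (coords k z) = w' := by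
    have h2 : Algebra.trdeg k (coords k z) < Cardinal.aleph0 := by
      refine lt_of_le_of_lt ?_ (Cardinal.natCast_lt_aleph0 (n := w))
      rw [← h1]
      exact self_le_add_right _ _
    exact Cardinal.lt_aleph0.1 h2
  obtain rfl : w = w' + 1 := by
    rw [hw'] at h1
    exact_mod_cast h1.symm
  have hval : ∀ G : MvPolynomial (Fin (N + 1)) k, ((val u G : coords k z) : K) =
      val (fun i => (u i : K)) G := by
    intro G
    unfold val
    exact (MvPolynomial.aeval_algebraMap_apply (R := k) (A := coords k z) (B := K) u G).symm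
  have hsub : SubVar (buchi a (n - m) m) (coords k z) w' u := by
    refine ⟨fun h0 => ?_, fun l => ?_, hgen', hw'⟩
    · have := congrFun h0 i
      rw [hu0] at this
      exact one_ne_zero this
    · apply Subtype.ext
      have h2 := hz l
      have h3 : z = fun l => z i * (u l : K) := funext hu
      obtain ⟨d, hd⟩ := isForm_buchi a (n - m) m l
      rw [h3, val_smul hd] at h2
      rw [hval]
      exact (mul_eq_zero.1 h2).resolve_left (pow_ne_zero _ hi)
  have hle : n - m ≤ n := Nat.sub_le _ _
  refine ⟨hmn, w', t, z, rfl, hyz, hz, ⟨i, j, hij', hi, hj⟩, htr, htop, ?_,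
    Set.range u, Set.finite_range u, hgen⟩
  by_contra hcon
  have h2 := (structure_thm hm (by omega) (by nlinarith) ha hsub hcon).1
  omega

omit [IsAlgClosed k] in
/-- log general type gives a Bogomolov sheaf of maximal degree -/
theorem bog_of_lgt {Bd : Place k K → Prop} (h : LogGeneralType k K w Bd) :
    BogSheaf k K w Bd w := by
  classical
  obtain ⟨htr, Nn, hN, ω, hω, hlog, hreg, D, hD, hind⟩ := h
  obtain ⟨x, hx, -⟩ := exists_basis_in htr (Set.univ : Set K) ⟨fun z => by
    have : (z : K) ∈ Algebra.adjoin k (Set.univ : Set K) :=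
      Algebra.subset_adjoin (Set.mem_univ z)
    exact isAlgebraic_algebraMap (⟨z, this⟩ : Algebra.adjoin k (Set.univ : Set K))⟩
  have hE : ∀ i : Fin w, ∃ E : Derivation k K K, ∀ j, E (x j) = if i = j then 1 else 0 :=
    fun i => exists_der x hx fun j => if i = j then 1 else 0
  choose E hE using hE
  have hDE : ∀ (D : Fin w → Derivation k K K) j, ω j D = ω j E * dform x D ^ Nn := by
    intro D j
    have h1 := hω j (Matrix.of fun i l => D i (x l)) E
    have h2 : (fun i => ∑ l, (Matrix.of fun i l => D i (x l)) i l • E l) = D := by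
      funext i
      exact (Pool.Agent.W308.PG.YLOC.expandK x E hx hE (D i)).symm
    rw [h2] at h1
    rw [h1, dform_apply, mul_comm]
  have hδ0 : dform x D ^ Nn ≠ 0 := by
    intro h0
    apply hD
    rw [hDE, h0, mul_zero]
  have hE0 : ω 0 E ≠ 0 := by
    intro h0
    apply hD
    rw [hDE, h0, zero_mul]
  have hratio : ∀ i : Fin w, ω i.succ E / ω 0 E = ω i.succ D / ω 0 D := by
    intro i
    rw [hDE D, hDE D, mul_div_mul_right _ _ hδ0]
  obtain ⟨D1, hD1⟩ := Pool.Agent.TH710.SP.dform_ne htr hx.1
  refine ⟨dform x, ?_, Nn, hN, fun j => ω j E, ?_, ?_, hE0, ?_⟩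
  · intro h0
    rw [h0] at hD1
    simp at hD1
  · intro P hP D hDl j
    rw [← hDE]
    exact hlog P hP j D hDl
  · intro P hP hB D hDr j
    rw [← hDE]
    exact hreg P hP hB j D hDr
  · simp only [hratio]
    exact hind

omit [IsAlgClosed k] [CharZero k] in
/-- Bogomolov sheaves of degree one on curves -/
theorem lgt_of_bog {Bd : Place k K → Prop} (htr : Algebra.trdeg k K = (1 : ℕ))
    (h : BogSheaf k K 1 Bd 1) : LogGeneralType k K 1 Bd := by
  classical
  obtain ⟨θ, hθ, Nn, hN, f, hlog, hreg, hf0, hind⟩ := h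
  have hdet : ∀ (A : Matrix (Fin 1) (Fin 1) K) (D : Fin 1 → Derivation k K K),
      θ (fun i => ∑ j, A i j • D j) = A.det * θ D := by
    intro A D
    have h1 : (fun i => ∑ j, A i j • D j) = Function.update D 0 (A 0 0 • D 0) := by
      funext i
      fin_cases i
      simp
    rw [h1, AlternatingMap.map_update_smul, Function.update_eq_self, Matrix.det_fin_one,
      smul_eq_mul]
  obtain ⟨D, hD⟩ : ∃ D, θ D ≠ 0 := by
    by_contra hcon
    push Not at hcon
    exact hθ (AlternatingMap.ext hcon)
  refine ⟨htr, Nn, hN, fun j D => f j * θ D ^ Nn, ?_, ?_, ?_, D, ?_, ?_⟩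
  · intro j A D
    simp only
    rw [hdet, mul_pow]
    ring
  · intro P hP j D hDl
    exact hlog P hP D hDl j
  · intro P hP hB j D hDr
    exact hreg P hP hB D hDr j
  · exact mul_ne_zero hf0 (pow_ne_zero _ hD)
  · have h1 : (fun i : Fin 1 => f i.succ * θ D ^ Nn / (f 0 * θ D ^ Nn)) =
        fun i : Fin 1 => f i.succ / f 0 := by
      funext i
      rw [mul_div_mul_right _ _ (pow_ne_zero _ hD)]
    simp only
    rw [h1]
    exact hind

omit [IsAlgClosed k] [CharZero k] in
/-- Bogomolov sheaves have degree at most the dimension -/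
theorem bog_le {Bd : Place k K → Prop} {p : ℕ} (htr : Algebra.trdeg k K = w)
    (h : BogSheaf k K w Bd p) : p ≤ w := by
  obtain ⟨θ, hθ, Nn, hN, f, hlog, hreg, hf0, hind⟩ := h
  have h1 := hind.lift_cardinalMk_le_trdeg
  rw [htr] at h1
  simpa using h1

/-- **Special subvarieties.** -/
theorem special_core (hm : 2 ≤ m) (hnm : n < 2 * m) (hN : 4 * n + (n + 1) ^ 2 < 2 * (N + 1))
    {a : Fin (N + 1) → k} (ha : Function.Injective a) {U : Set (Fin (N + 1))}
    {y : Fin (N + 1) → K} (hy : SubVar (buchi a n m) K w y) (hyU : ∀ j ∈ U, y j ≠ 0)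
    (hs : Special k K w (OffU U y)) :
    w = 0 ∨ (w = 1 ∧ U.ncard ≤ 2 ∧ ∃ (t : K) (z : Fin (N + 1) → K),
      (∀ i, y i = (algebraMap k K (a i) - t) * z i) ∧
      (∃ i j, i ≠ j ∧ z i ≠ 0 ∧ z j ≠ 0) ∧ Transcendental k t ∧
      ∀ i j, z j ≠ 0 → ∃ c : k, z i = algebraMap k K c * z j) := by
  classical
  rcases Nat.eq_zero_or_pos w with hw | hw
  · exact Or.inl hw
  · right
    have hU : U.ncard ≤ 2 := by
      by_contra hcon
      obtain ⟨jj, hjj, hjU⟩ := (three_iff U).1 (by omega)
      exact hs w hw (bog_of_lgt (lgt_three hm hnm hN ha hy hyU hjj hjU))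
    have hgt : ¬ GeneralType k K w := fun h => hs w hw (bog_of_lgt (lgt_of_gt h))
    obtain ⟨-, w', t, z, rfl, hyz, -, hij, htr, htop, hgtM, S, hS, hSt⟩ :=
      core hm hnm hN ha hy hgt
    have hw' : w' = 0 := by
      by_contra hne
      exact hs w' (Nat.pos_of_ne_zero hne) (bog_of_sub _ hy.dim hS hSt hgtM _)
    subst hw'
    refine ⟨rfl, hU, t, z, hyz, hij, ?_, ?_⟩
    · intro halg
      exact htr (halg.tower_top (coords k z))
    · intro i j hj
      have h1 : Algebra.IsAlgebraic k (coords k z) := by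
        have h2 := hgtM.1
        rw [Nat.cast_zero, trdeg_eq_zero_iff] at h2
        exact h2
      have h2 : z i / z j ∈ coords k z := IntermediateField.subset_adjoin k _ ⟨i, j, hj, rfl⟩
      have h3 : Algebra.IsIntegral k (coords k z) := Algebra.isAlgebraic_iff_isIntegral.1 h1
      obtain ⟨c, hc⟩ := (IsAlgClosed.algebraMap_bijective_of_isIntegral (k := k)
        (K := coords k z)).2 ⟨_, h2⟩
      refine ⟨c, ?_⟩
      have h4 := congrArg (fun x : coords k z => (x : K)) hc
      simp only at h4
      have h5 : algebraMap k K c = z i / z j := h4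
      rw [h5]
      field_simp

end Pool.Agent.Y216.SV
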