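import Pool.Agent.Y216.SV.Bog
import Pool.Agent.Y216.SV.Str
import Pool.Agent.Y190.SN.StrU

/-!
The logarithmic Kodaira dimension of the complements of coordinate hyperplanes in the closed
subvarieties of the power value varieties.
-/

set_option autoImplicit false

open FF Pool.Agent.W603.LV Pool.Agent.W602.GT Pool.Agent.Y190.BV Pool.Agent.Y190.QP Polynomial

namespace Pool.Agent.Y216.SV

variable {k : Type} [Field k] {N n m w : ℕ} {K : Type} [Field K] [Algebra k K]

/-- interpolation over a subfield -/
theorem intp_map {M : IntermediateField k K} {a : Fin (N + 1) → k} (hn : n ≤ N)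
    (v : Fin (N + 1) → M) :
    (intp a hn v).map (algebraMap M K) = intp a hn (fun i => (v i : K)) := by
  unfold intp
  rw [Polynomial.map_sum]
  refine Finset.sum_congr rfl fun l _ => ?_
  rw [Polynomial.map_mul, Polynomial.map_C, Polynomial.map_map, ← IsScalarTower.algebraMap_eq]
  rfl

section core

variable [IsAlgClosed k] [CharZero k]

/-- **The core**, for simple polynomials. -/
theorem core_simple (hm : 2 ≤ m) (hn : n ≤ N) (hN : 4 * n + (n + 1) ^ 2 < 2 * (N + 1))
    {a : Fin (N + 1) → k} (ha : Function.Injective a) {y : Fin (N + 1) → K}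
    (hy : SubVar (buchi a n m) K w y)
    (hs : Pool.Agent.Y190.SN.Simple m (intp a hn (fun i => y i ^ m)))
    (hgt : ¬ GeneralType k K w) :
    m ≤ n ∧ ∃ (w' : ℕ) (t : K) (z : Fin (N + 1) → K), w = w' + 1 ∧
      (∀ i, y i = (algebraMap k K (a i) - t) * z i) ∧
      (∀ l : Rel a (n - m), val z (buchi a (n - m) m l) = 0) ∧
      (∃ i j, i ≠ j ∧ z i ≠ 0 ∧ z j ≠ 0) ∧ Transcendental (coords k z) t ∧
      IntermediateField.adjoin (coords k z) {t} = ⊤ ∧ GeneralType k (coords k z) w' ∧
      ∃ S : Set (coords k z), S.Finite ∧ IntermediateField.adjoin k S = ⊤ := by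
  classical
  obtain ⟨hmn, t, z, hyz, hz, hij, htr, htop⟩ :=
    Pool.Agent.Y190.SN.structure_thm hm hn hN ha hy hs hgt
  obtain ⟨i, j, hij', hi, hj⟩ := hij
  obtain ⟨u, hu, hu0, hgen, hgen'⟩ := coords_fg (k := k) hi
  have hfin : FiniteDimensional (IntermediateField.adjoin (coords k z) {t}) K := by
    rw [htop]
    apply FiniteDimensional.of_finrank_pos
    rw [IntermediateField.finrank_top]
    exact one_pos
  have hchM : CharZero (coords k z) :=
    charZero_of_injective_algebraMap (algebraMap k (coords k z)).injective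
  have hFF : IsFF (coords k z) K := IsFF.of_finite htr hfin
  have h1 : Algebra.trdeg k (coords k z) + 1 = w := by
    rw [← hy.dim, ← _root_.trdeg_add_eq (R := k) (S := coords k z) (A := K),
      IsFF.trdeg (k := coords k z) (K := K)]
  obtain ⟨w', hw'⟩ : ∃ w' : ℕ, Algebra.trdeg k (coords k z) = w' := by
    have h2 : Algebra.trdeg k (coords k z) < Cardinal.aleph0 := by
      refine lt_of_le_of_lt ?_ (Cardinal.natCast_lt_aleph0 (n := w))
      rw [← h1]
      exact self_le_add_right _ _
    exact Cardinal.lt_aleph0.1 h2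
  obtain rfl : w = w' + 1 := by
    rw [hw'] at h1
    exact_mod_cast h1.symm
  have hval : ∀ G : MvPolynomial (Fin (N + 1)) k, ((val u G : coords k z) : K) =
      val (fun i => (u i : K)) G := by
    intro G
    unfold val
    exact (MvPolynomial.aeval_algebraMap_apply (R := k) (A := coords k z) (B := K) u G).symm
  have hsub : SubVar (buchi a (n - m) m) (coords k z) w' u := by
    refine ⟨fun h0 => ?_, fun l => ?_, hgen', hw'⟩
    · have := congrFun h0 i
      rw [hu0] at this
      exact one_ne_zero this
    · apply Subtype.ext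
      have h2 := hz l
      have h3 : z = fun l => z i * (u l : K) := funext hu
      obtain ⟨d, hd⟩ := isForm_buchi a (n - m) m l
      rw [h3, val_smul hd] at h2
      rw [hval]
      exact (mul_eq_zero.1 h2).resolve_left (pow_ne_zero _ hi)
  have hle : n - m ≤ n := Nat.sub_le _ _
  have hnN' : n - m ≤ N := hle.trans hn
  refine ⟨hmn, w', t, z, rfl, hyz, hz, ⟨i, j, hij', hi, hj⟩, htr, htop, ?_,
    Set.range u, Set.finite_range u, hgen⟩
  by_contra hcon
  obtain ⟨p, hp, hpd⟩ := dichotomy hm (by nlinarith) ha hsub hcon hnN'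
  -- the polynomial over the large field
  set H : K[X] := intp a hnN' (fun i => z i ^ m) with hHd
  have hev : ∀ i, H.eval (algebraMap k K (a i)) = z i ^ m := intp_eval ha hnN' m hz
  have hHdeg : H.natDegree ≤ n - m := intp_natDegree ha hnN' _
  have hyH : intp a hn (fun i => y i ^ m) = (X - C t) ^ m * H := by
    refine Pool.Agent.Y190.SN.intp_eq ha hn ?_ fun i => ?_
    · refine (natDegree_mul_le).trans ?_
      rw [natDegree_pow, natDegree_X_sub_C, mul_one]
      omega
    · rw [eval_mul, eval_pow, eval_sub, eval_X, eval_C, hev, hyz i, mul_pow]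
  have hHM : H = C (z i ^ m) * (intp a hnN' (fun l => u l ^ m)).map (algebraMap (coords k z) K) := by
    rw [intp_map, hHd, ← Pool.Agent.Y190.SN.intp_smul]
    congr 1
    funext l
    rw [hu l, mul_pow]
    rfl
  have hdvd : ((X - C t) * p.map (algebraMap (coords k z) K)) ^ m ∣
      intp a hn (fun i => y i ^ m) := by
    rw [hyH, mul_pow, hHM]
    refine mul_dvd_mul_left _ (Dvd.dvd.mul_left ?_ _)
    rw [← Polynomial.map_pow]
    exact Polynomial.map_dvd _ hpd
  have h3 := hs _ hdvd
  rw [natDegree_mul (X_sub_C_ne_zero t)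
    ((Polynomial.map_ne_zero_iff (algebraMap (coords k z) K).injective).2 hp.ne_zero),
    natDegree_X_sub_C, natDegree_map] at h3
  have h4 := hp.natDegree_pos
  omega

end core

/-- the zeros of `t - a j` are boundary places -/
theorem off_of_pos (hm : 1 ≤ m) (hnN : n + 1 ≤ N) {a : Fin (N + 1) → k} (ha : Function.Injective a)
    {y z : Fin (N + 1) → K} {t : K} (hyz : ∀ i, y i = (algebraMap k K (a i) - t) * z i)
    (hz : ∀ l : Rel a n, val z (buchi a n m l) = 0) {U : Set (Fin (N + 1))}
    (hyU : ∀ j ∈ U, y j ≠ 0) (hat : ∀ i, algebraMap k K (a i) - t ≠ 0) {P : Place k K}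
    {j0 : Fin (N + 1)} (hj0 : j0 ∈ U) (hpos : 0 < P.ord (algebraMap k K (a j0) - t)) :
    OffU U y P := by
  classical
  have hn' : n ≤ N := by omega
  set H := intp a hn' (fun i => z i ^ m) with hHd
  have hev : ∀ i, H.eval (algebraMap k K (a i)) = z i ^ m := intp_eval ha hn' m hz
  have hzj : z j0 ≠ 0 := by
    intro h0
    apply hyU j0 hj0
    rw [hyz, h0, mul_zero]
  have hH : H ≠ 0 := by
    intro h0
    have h1 := hev j0
    rw [h0, Polynomial.eval_zero] at h1
    exact hzj (eq_zero_of_pow_eq_zero h1.symm)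
  have hHdeg : H.natDegree ≤ n := intp_natDegree ha hn' _
  obtain ⟨N', rfl⟩ : ∃ N', N = N' + 1 := ⟨N - 1, by omega⟩
  obtain ⟨s, hs, hs2⟩ := exists_good P hH hHdeg (fun i : Fin (n + 1) =>
    a (j0.succAbove (Fin.castLE (by omega) i)))
    (fun x y hxy => Fin.castLE_injective _ (Fin.succAbove_right_injective (ha hxy)))
  set i1 := j0.succAbove (Fin.castLE (by omega) s) with hi1
  have hi1j : i1 ≠ j0 := Fin.succAbove_ne _ _
  have hz1 : z i1 ≠ 0 := by
    intro h0
    rw [hev, h0, zero_pow (by omega)] at hs
    exact hs rfl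
  refine ⟨j0, hj0, i1, ?_, ?_⟩
  · rw [hyz]
    exact mul_ne_zero (hat i1) hz1
  · rw [hyz i1, hyz j0, P.ord_mul (hat i1) hz1, P.ord_mul (hat j0) hzj]
    have h1 : P.ord (z i1) ≤ P.ord (z j0) := by
      have h2 : P.ord (z i1 ^ m) ≤ P.ord (z j0 ^ m) := by
        rw [← hev, ← hev, hs2]
        exact (cnt_eval P H (a j0)).resolve_left (by
          rw [hev]; exact pow_ne_zero _ hzj)
      rw [P.ord_pow, P.ord_pow] at h2
      have hm0 : (0 : ℤ) < m := by exact_mod_cast (by omega : 0 < m)
      exact le_of_mul_le_mul_left h2 hm0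
    have h3 : P.ord (algebraMap k K (a i1) - t) ≤ 0 := by
      by_contra hcon
      push Not at hcon
      have h4 : Ge P 1 (algebraMap k K (a i1) - t) := Or.inr (by omega)
      have h5 : Ge P 1 (algebraMap k K (a j0) - t) := Or.inr (by omega)
      have h6 := h4.sub h5
      have e1 : algebraMap k K (a i1) - t - (algebraMap k K (a j0) - t) =
          algebraMap k K (a i1 - a j0) := by
        rw [map_sub]; ring
      rw [e1] at h6
      have hne : a i1 - a j0 ≠ 0 := sub_ne_zero.2 fun h => hi1j (ha h)
      rcases h6 with h6 | h6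
      · exact hne ((map_eq_zero _).1 h6)
      · rw [P.ord_const hne] at h6
        omega
    omega

section two

/-- the derivative of a unit -/
theorem reg_dlog {P : Place k K} {D : Derivation k K K} (hD : DerReg P D) {σ : K} (hσ0 : σ ≠ 0)
    (hσ : P.ord σ = 0) : P.Reg (D σ / σ) := by
  have h1 : P.Reg (D σ) := hD σ (Or.inr hσ.ge)
  rcases h1 with h1 | h1
  · rw [h1, zero_div]
    exact P.reg_zero
  · by_cases h0 : D σ = 0
    · rw [h0, zero_div]
      exact P.reg_zero
    · right
      rw [div_eq_mul_inv, P.ord_mul h0 (inv_ne_zero hσ0), P.ord_inv, hσ]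
      omega

/-- **Two punctures.** The log Kodaira dimension of the product of a variety of general type with
the multiplicative group. -/
theorem kod_gm [CharZero k] (M : IntermediateField k K) {w' : ℕ} (hw : Algebra.trdeg k K = (w' + 1 : ℕ))
    {S : Set M} (hS : S.Finite) (hgen : IntermediateField.adjoin k S = ⊤) {σ : K}
    (hσ : Transcendental M σ) (hM : GeneralType k M w') {Bd : Place k K → Prop}
    (hBd : ∀ P : Place k K, ¬ Bd P → P.ord σ = 0) : KodGe k K (w' + 1) Bd w' := by
  classical
  obtain ⟨htr, Nn, hNn, ω, hω, hreg, D, hD, hind⟩ := hM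
  obtain ⟨x, hx, -⟩ := Pool.Agent.Y190.BV.exists_basis_in htr (Set.univ : Set M) ⟨fun z => by
    have : (z : M) ∈ Algebra.adjoin k (Set.univ : Set M) :=
      Algebra.subset_adjoin (Set.mem_univ z)
    exact isAlgebraic_algebraMap (⟨z, this⟩ : Algebra.adjoin k (Set.univ : Set M))⟩
  have hE : ∀ i : Fin w', ∃ E : Derivation k M M, ∀ j, E (x j) = if i = j then 1 else 0 :=
    fun i => Pool.Agent.W602.GT.exists_der x hx fun j => if i = j then 1 else 0
  choose E hE using hE
  have hDE : ∀ j, ω j D = (Matrix.of fun i l => D i (x l)).det ^ Nn * ω j E := by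
    intro j
    have h1 := hω j (Matrix.of fun i l => D i (x l)) E
    have h2 : (fun i => ∑ l, (Matrix.of fun i l => D i (x l)) i l • E l) = D := by
      funext i
      exact (Pool.Agent.W308.PG.YLOC.expandK x E hx hE (D i)).symm
    rw [h2] at h1
    exact h1
  set δ : M := (Matrix.of fun i l => D i (x l)).det ^ Nn with hδ
  have hδ0 : δ ≠ 0 := by
    intro h0
    apply hD
    rw [hDE, h0, zero_mul]
  have hE0 : ω 0 E ≠ 0 := by
    intro h0
    apply hD
    rw [hDE, h0, mul_zero]
  have hratio : ∀ i : Fin w', ω i.succ E / ω 0 E = ω i.succ D / ω 0 D := by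
    intro i
    rw [hDE, hDE, mul_div_mul_left _ _ hδ0]
  have hσ0 : σ ≠ 0 := by
    rintro rfl
    exact hσ isAlgebraic_zero
  -- the forms
  let B : (Fin (w' + 1) → Derivation k K K) → Matrix (Fin (w' + 1)) (Fin (w' + 1)) K :=
    fun D => Matrix.of fun i c => (Fin.cons (D i σ / σ) (fun l => D i (x l : K)) : Fin (w' + 1) → K) c
  have hB : ∀ (A : Matrix (Fin (w' + 1)) (Fin (w' + 1)) K) (D : Fin (w' + 1) → Derivation k K K),
      B (fun i => ∑ j, A i j • D j) = A * B D := by
    intro A D
    ext i c
    rw [Matrix.mul_apply]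
    refine Fin.cases ?_ (fun l => ?_) c
    · simp only [B, Matrix.of_apply, Fin.cons_zero]
      rw [sum_smul_der, Finset.sum_div]
      exact Finset.sum_congr rfl fun j _ => by rw [mul_div_assoc]
    · simp only [B, Matrix.of_apply, Fin.cons_succ]
      rw [sum_smul_der]
  have hkey : ∀ P : Place k K, Divisorial (w' + 1) P → ∀ D : Fin (w' + 1) → Derivation k K K,
      (∀ i, DerReg P (D i)) → (∀ i, P.Reg (D i σ / σ)) → ∀ j,
      P.Reg ((ω j E : K) * (B D).det ^ Nn) := by
    intro P hP D hDr hDσ j
    obtain ⟨Z, z, hz, hexp, hge⟩ := yloc k K M w' (w' + 1) Nn htr hw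
      (fun y hy => fd_of_fg hS hgen hy) (ω j) (hω j) (fun u hu => hreg u hu j) x E hx hE P hP
    let B' : Matrix (Fin (w' + 1)) (Fin (w' + 1)) K :=
      Matrix.of fun i c => (Fin.cons (D i σ / σ) (fun l => D i (z l)) : Fin (w' + 1) → K) c
    let C' : Matrix (Fin (w' + 1)) (Fin (w' + 1)) K :=
      Matrix.of (Fin.cons (Fin.cons 1 fun _ => 0) fun c => Fin.cons 0 fun l => Z l c)
    have h1 : B D = B' * C' := by
      ext i c
      rw [Matrix.mul_apply, Fin.sum_univ_succ]
      refine Fin.cases ?_ (fun l => ?_) c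
      · simp [B, B', C']
      · simp only [B, B', C', Matrix.of_apply, Fin.cons_succ, Fin.cons_zero, mul_zero, zero_add]
        rw [hexp]
        refine Finset.sum_congr rfl fun c _ => ?_
        rw [mul_comm]
    have h2 : C'.det = Z.det := by
      rw [Matrix.det_succ_row_zero, Fin.sum_univ_succ, Finset.sum_eq_zero, add_zero]
      · have h3 : C'.submatrix Fin.succ (Fin.succAbove 0) = Z.transpose := by
          ext c l
          simp [C', Matrix.submatrix_apply, Matrix.transpose_apply]
        rw [h3, Matrix.det_transpose]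
        simp [C']
      · intro l _
        simp [C']
    have h3 : Ge P 0 B'.det := by
      refine Pool.Agent.W619.PQ.ge_det P _ fun i c => ?_
      refine Fin.cases ?_ (fun l => ?_) c
      · simp only [B', Matrix.of_apply, Fin.cons_zero]
        exact hDσ i
      · simp only [B', Matrix.of_apply, Fin.cons_succ]
        exact hDr i _ (hz l)
    have h4 : (ω j E : K) * (B D).det ^ Nn = ((ω j E : K) * Z.det ^ Nn) * B'.det ^ Nn := by
      rw [h1, Matrix.det_mul, h2, mul_pow]
      ring
    rw [h4]
    have h5 := hge.mul (h3.pow Nn)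
    simp only [mul_zero, add_zero] at h5
    exact h5
  refine ⟨Nn, hNn, fun j D => (ω j E : K) * (B D).det ^ Nn, fun j => ⟨?_, ?_, ?_⟩, ?_⟩
  · intro A D
    simp only
    rw [hB, Matrix.det_mul, mul_pow]
    ring
  · intro P hP D hDl
    exact hkey P hP D (fun i => derReg_of_log (hDl i)) (fun i => hDl i σ) j
  · intro P hP hb D hDr
    exact hkey P hP D hDr (fun i => reg_dlog (hDr i) hσ0 (hBd P hb)) j
  · -- a dual frame
    have hchK : CharZero K := charZero_of_injective_algebraMap (algebraMap k K).injective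
    have hxK : AlgebraicIndependent k (fun l => (x l : K)) :=
      hx.1.map' (f := M.val) M.val.toRingHom.injective
    let b : Fin (w' + 1) → K := Fin.cons σ fun l => (x l : K)
    have hb : IsTranscendenceBasis k b := by
      have h1 : AlgebraicIndependent M (fun _ : Unit => σ) :=
        (algebraicIndependent_unique_type_iff).2 hσ
      have h2 := hx.1.sumElim_comp h1
      let f : Fin (w' + 1) → Unit ⊕ Fin w' := Fin.cons (Sum.inl ()) Sum.inr
      have hf : Function.Injective f := by
        intro i j
        refine Fin.cases ?_ (fun i => ?_) i <;> refine Fin.cases ?_ (fun j => ?_) j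
        · intro _; rfl
        · intro h; simp [f] at h
        · intro h; simp [f] at h
        · intro h
          simp only [f, Fin.cons_succ] at h
          rw [Sum.inr_injective h]
      have h3 : b = (Sum.elim (fun _ : Unit => σ) (algebraMap M K ∘ x)) ∘ f := by
        funext i
        refine Fin.cases ?_ (fun i => ?_) i
        · simp [b, f]
        · simp only [b, f, Fin.cons_succ, Function.comp_apply, Sum.elim_inr]
          rfl
      have h4 : AlgebraicIndependent k b := by
        rw [h3]
        exact h2.comp f hf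
      exact h4.isTranscendenceBasis_of_trdeg_le_of_finite (by rw [hw, Cardinal.mk_fin])
    have hDd : ∀ i : Fin (w' + 1), ∃ F : Derivation k K K, ∀ j, F (b j) = if i = j then 1 else 0 :=
      fun i => Pool.Agent.W602.GT.exists_der b hb fun j => if i = j then 1 else 0
    choose Dd hDd using hDd
    have hdet : (B Dd).det ≠ 0 := by
      have h1 : B Dd = Matrix.diagonal (Fin.cons (1 / σ) fun _ => 1) := by
        ext i c
        refine Fin.cases ?_ (fun l => ?_) c
        · have h2 : Dd i σ = if i = 0 then 1 else 0 := hDd i 0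
          simp only [B, Matrix.of_apply, Fin.cons_zero, h2]
          by_cases hi : i = 0
          · rw [hi, if_pos rfl, Matrix.diagonal_apply_eq, Fin.cons_zero]
          · rw [if_neg hi, Matrix.diagonal_apply_ne _ hi, zero_div]
        · have h2 : Dd i (x l : K) = if i = l.succ then 1 else 0 := hDd i l.succ
          simp only [B, Matrix.of_apply, Fin.cons_succ, h2]
          by_cases hi : i = l.succ
          · rw [hi, if_pos rfl, Matrix.diagonal_apply_eq, Fin.cons_succ]
          · rw [if_neg hi, Matrix.diagonal_apply_ne _ hi]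
      rw [h1, Matrix.det_diagonal, Fin.prod_univ_succ]
      simp [hσ0]
    refine ⟨Dd, mul_ne_zero (fun h0 => hE0 (Subtype.ext h0)) (pow_ne_zero _ hdet), ?_⟩
    have h1 : (fun i : Fin w' => (ω i.succ E : K) * (B Dd).det ^ Nn /
        ((ω 0 E : K) * (B Dd).det ^ Nn)) = fun i => M.val (ω i.succ D / ω 0 D) := by
      funext i
      rw [mul_div_mul_right _ _ (pow_ne_zero _ hdet), ← hratio]
      rfl
    rw [h1]
    exact hind.map' (f := M.val) M.val.toRingHom.injective

end two

end Pool.Agent.Y216.SV
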