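import Pool.Agent.Y216.SV.Rc3
import Pool.Agent.W602.GT.SConst

/-!
Rational varieties have no holomorphic tensor differentials; tensor differentials and rational
connectedness for the subvarieties of the power value varieties, polynomials of any degree.
-/

set_option autoImplicit false

open FF Pool.Agent.W603.LV Pool.Agent.W602.GT Pool.Agent.Y190.BV Pool.Agent.Y190.QP
  Pool.Agent.TH710.WH Pool.Agent.TH710.SP IntermediateField

namespace Pool.Agent.Y216.SV

variable {k : Type} [Field k] {N n m w : ℕ} {K : Type} [Field K] [Algebra k K]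

/-- the values of a tensor differential on a frame are constants -/
theorem tensor_const [CharZero k] [IsAlgClosed k] (σ : Fin w → K)
    (hσ : IsTranscendenceBasis k σ) (htop : IntermediateField.adjoin k (Set.range σ) = ⊤) {r : ℕ}
    (ω : MultilinearMap K (fun _ : Fin r => Derivation k K K) K)
    (hω : ∀ P : Place k K, Divisorial w P → ∀ D : Fin r → Derivation k K K,
      (∀ j, DerReg P (D j)) → P.Reg (ω D))
    (δ : Fin w → Derivation k K K) (hδ : ∀ l m, δ l (σ m) = if m = l then σ m else 0)
    (hcomm : ∀ l m z, δ l (δ m z) = δ m (δ l z))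
    (hspan : ∀ D : Derivation k K K, D = ∑ l, (D (σ l) / σ l) • δ l) (I : Fin r → Fin w) :
    ∃ c : k, ω (fun i => δ (I i)) = algebraMap k K c := by
  classical
  have htr : Algebra.trdeg k K = w := by
    have h1 := hσ.cardinalMk_eq_trdeg
    rw [Cardinal.mk_fin] at h1
    exact h1.symm
  have hσ0 : ∀ l, σ l ≠ 0 := fun l => hσ.1.ne_zero l
  have hδtop : ∀ l, (consts (δ l))⟮σ l⟯ = ⊤ := by
    intro l
    have h1 : ((consts (δ l))⟮σ l⟯).restrictScalars k = ⊤ := by
      rw [eq_top_iff, ← htop, IntermediateField.adjoin_le_iff]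
      rintro _ ⟨m, rfl⟩
      by_cases hm : m = l
      · rw [hm]
        exact IntermediateField.mem_adjoin_simple_self _ _
      · have h2 : δ l (σ m) = 0 := by rw [hδ, if_neg hm]
        exact ((consts (δ l))⟮σ l⟯).algebraMap_mem (⟨σ m, h2⟩ : consts (δ l))
    rw [eq_top_iff]
    intro x _
    have h2 : x ∈ ((consts (δ l))⟮σ l⟯).restrictScalars k := by
      rw [h1]; exact IntermediateField.mem_top
    exact h2
  have h1 : ∀ l, δ l (ω (fun i => δ (I i))) = 0 := by
    intro l
    refine spec_const htr (Bd := fun _ => False) (δ l) (hσ0 l) (by rw [hδ, if_pos rfl])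
      (hδtop l) (fun _ _ _ h => h) (fun i => δ (I i)) (fun i z => (hcomm _ _ _)) ?_ ?_
    · intro P hdiv hD
      refine hω P hdiv _ fun j => ?_
      intro f hf
      rcases eq_or_ne f 0 with rfl | hf0
      · rw [map_zero]
        exact Or.inl rfl
      · have h2 := hD j f
        have h3 : δ (I j) f = δ (I j) f / f * f := by field_simp
        rw [h3]
        exact P.reg_mul h2 hf
    · intro P hdiv _ hD
      exact hω P hdiv _ hD
  obtain ⟨lam, hlam⟩ := exists_lam k w
  obtain ⟨D0, hD0⟩ := exists_der σ hσ (fun j => algebraMap k K (lam j) * σ j)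
  refine const_of_der σ hσ lam hlam D0 hD0 ?_
  have h0 : ∀ (t : Finset (Fin w)) (c : Fin w → K) (z : K),
      (∑ l ∈ t, c l • δ l) z = ∑ l ∈ t, c l * δ l z := by
    intro t c z
    induction t using Finset.induction_on with
    | empty => simp
    | insert l t hl ih =>
      rw [Finset.sum_insert hl, Finset.sum_insert hl, Derivation.add_apply, ih]
      rfl
  rw [hspan D0, h0]
  exact Finset.sum_eq_zero fun l _ => by rw [h1 l, mul_zero]

/-- **Rational varieties have no tensor differentials.** -/
theorem noTensors_of_rational [CharZero k] [IsAlgClosed k] (hdim : Algebra.trdeg k K = w)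
    (h : PurelyTranscendental k K) (B : ℕ) : NoTensors k K w B := by
  classical
  obtain ⟨τ, hτ, σ', hind, htop⟩ := h
  have hbasis : IsTranscendenceBasis k σ' := by
    rw [hind.isTranscendenceBasis_iff_isAlgebraic]
    apply alg_adjoin
    rw [htop]
    exact ⟨fun x => isAlgebraic_algebraMap (A := K) (⟨x, trivial⟩ : (⊤ : IntermediateField k K))⟩
  obtain ⟨w', ⟨φ⟩⟩ := Finite.exists_equiv_fin τ
  let σ : Fin w' → K := σ' ∘ φ.symm
  have hσ : IsTranscendenceBasis k σ := hbasis.comp_equiv φ.symm
  obtain rfl : w' = w := by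
    have h1 := hσ.cardinalMk_eq_trdeg
    rw [Cardinal.mk_fin, hdim] at h1
    exact_mod_cast h1
  have hσtop : IntermediateField.adjoin k (Set.range σ) = ⊤ := by
    have h1 : Set.range σ = Set.range σ' := by
      ext x
      constructor
      · rintro ⟨b, rfl⟩
        exact ⟨φ.symm b, rfl⟩
      · rintro ⟨b, rfl⟩
        exact ⟨φ b, by simp [σ]⟩
    rw [h1, htop]
  -- the shifted basis
  let σ1 : Fin w' → K := fun l => σ l - 1
  have hσ1top : IntermediateField.adjoin k (Set.range σ1) = ⊤ := by
    rw [eq_top_iff, ← hσtop, IntermediateField.adjoin_le_iff]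
    rintro _ ⟨l, rfl⟩
    have h1 : σ l = σ1 l + 1 := by simp [σ1]
    rw [h1]
    exact add_mem (IntermediateField.subset_adjoin k _ ⟨l, rfl⟩) (one_mem _)
  have hσ1 : IsTranscendenceBasis k σ1 := by
    have h2 : Algebra.IsAlgebraic (Algebra.adjoin k (Set.range σ1)) K := by
      rw [← IntermediateField.isAlgebraic_adjoin_iff_top, hσ1top]
      infer_instance
    exact Algebra.IsAlgebraic.isTranscendenceBasis_of_le_trdeg_of_finite k σ1 (by
      rw [Cardinal.mk_fin, hdim])
  have hσ0 : ∀ l, σ l ≠ 0 := fun l => hσ.1.ne_zero l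
  have hσ10 : ∀ l, σ1 l ≠ 0 := fun l => hσ1.1.ne_zero l
  obtain ⟨δ, hδ, hcomm, hspan⟩ := exists_frame σ hσ
  obtain ⟨δ1, hδ1, hcomm1, hspan1⟩ := exists_frame σ1 hσ1
  have hδδ : ∀ l, δ1 l = (σ1 l / σ l) • δ l := by
    intro l
    apply der_ext σ hσ
    intro q
    have h1 : δ1 l (σ q) = δ1 l (σ1 q) := by
      have h2 : σ q = σ1 q + 1 := by simp [σ1]
      rw [h2, map_add, Derivation.map_one_eq_zero, add_zero]
    rw [h1, hδ1, Derivation.smul_apply, hδ, smul_eq_mul]
    split_ifs with h3
    · rw [h3]
      have := hσ0 l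
      field_simp
    · rw [mul_zero]
  intro r hr _ ω hω
  have hzero : ∀ I : Fin r → Fin w', ω (fun i => δ (I i)) = 0 := by
    intro I
    obtain ⟨c, hc⟩ := tensor_const σ hσ hσtop ω hω δ hδ hcomm hspan I
    obtain ⟨c1, hc1⟩ := tensor_const σ1 hσ1 hσ1top ω hω δ1 hδ1 hcomm1 hspan1 I
    have h1 : (fun i => δ1 (I i)) = fun i => (σ1 (I i) / σ (I i)) • δ (I i) :=
      funext fun i => hδδ _
    rw [h1, ω.map_smul_univ, hc, smul_eq_mul, Finset.prod_div_distrib] at hc1
    have hp : (∏ i, σ (I i)) ≠ 0 := Finset.prod_ne_zero_iff.2 fun i _ => hσ0 _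
    have h2 : (∏ i, σ1 (I i)) * algebraMap k K c = algebraMap k K c1 * ∏ i, σ (I i) := by
      rw [← hc1]
      field_simp
    let P : MvPolynomial (Fin w') k :=
      (∏ i, (MvPolynomial.X (I i) - 1)) * MvPolynomial.C c -
        MvPolynomial.C c1 * ∏ i, MvPolynomial.X (I i)
    have hP : MvPolynomial.aeval σ P = 0 := by
      simp only [P, map_sub, map_mul, map_prod, MvPolynomial.aeval_X, MvPolynomial.aeval_C,
        map_one]
      rw [sub_eq_zero]
      exact h2
    have hP0 : P = 0 := (injective_iff_map_eq_zero _).1 hσ.1 P hP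
    have h3 := congrArg (MvPolynomial.eval fun _ => (1 : k)) hP0
    have h4 := congrArg (MvPolynomial.eval fun _ => (2 : k)) hP0
    simp only [P, map_sub, map_mul, map_prod, MvPolynomial.eval_X, MvPolynomial.eval_C,
      map_one, map_zero, sub_self, Finset.prod_const, Finset.card_univ, Fintype.card_fin,
      one_pow, mul_one] at h3 h4
    rw [zero_pow (by omega), zero_mul, zero_sub, neg_eq_zero] at h3
    rw [h3, zero_mul, sub_zero] at h4
    have h5 : (2 : k) - 1 = 1 := by norm_num
    rw [h5, one_pow, one_mul] at h4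
    rw [hc, h4, map_zero]
  ext D
  have h1 : D = fun i => ∑ l, (D i (σ l) / σ l) • δ l := by
    funext i
    exact hspan (D i)
  rw [h1]
  have h2 := ω.map_sum (fun i l => (D i (σ l) / σ l) • δ l)
  rw [h2]
  refine Finset.sum_eq_zero fun I _ => ?_
  rw [MultilinearMap.map_smul_univ, hzero I, smul_zero]

variable [IsAlgClosed k] [CharZero k]

/-- **Tensor differentials and rational connectedness, polynomials of any degree.** -/
theorem tensors_tfae' (hm : 2 ≤ m) (hN : 4 * n + (n + 1) ^ 2 < 2 * (N + 1))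
    {a : Fin (N + 1) → k} (ha : Function.Injective a) {y : Fin (N + 1) → K}
    (hy : SubVar (buchi a n m) K w y) (hnw : n < (w + 1) * m) :
    [∀ B, NoTensors k K w B, RationallyConnected k y, Unirational k y,
      PurelyTranscendental k K, IsLinear k y].TFAE := by
  have hinf : Infinite k := inferInstance
  have hR := rational_tfae hm hN ha hy hnw
  tfae_have 1 → 5 := fun h => (hR.out 4 0).1 (special_of_noTensors h)
  tfae_have 5 → 4 := fun h => (hR.out 0 1).1 h
  tfae_have 4 → 1 := fun h B => noTensors_of_rational hy.dim h B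
  tfae_have 5 → 3 := fun h => (hR.out 0 2).1 h
  tfae_have 3 → 2 := connected_of_unirational
  tfae_have 2 → 5 := fun h => (inLinear_of_rc hm hN ha hy h).2 hnw
  tfae_finish

end Pool.Agent.Y216.SV
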