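import Pool.Agent.Y216.SV.Hsp3

/-!
Fundamental groups of points and lines, and of the complements of two coordinate hyperplanes in them.
-/

set_option autoImplicit false

open MvPolynomial Pool.Agent.W602.GT Pool.Agent.TH710.SP

namespace Pool.Agent.Y216.SV

variable {N n m w : ℕ}

/-- points and lines are their linear hulls -/
theorem hull_var {k L : Type} [Field k] [Field L] [Algebra k L] {y : Fin (N + 1) → L}
    (h : IsPoint k y ∨ IsLine k y) : ∀ v ∈ Hull k y, ∀ G : MvPolynomial (Fin (N + 1)) k,
      IsForm G → val y G = 0 → val v G = 0 := by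
  classical
  intro v hv G hG hG0
  have hsum : ∀ {R : Type} [Field R] [Algebra k R] (v : Fin (N + 1) → R) (c : k)
      (i : Fin (N + 1)), ∑ t, algebraMap k R (c * (if t = i then 1 else 0)) * v t =
        algebraMap k R c * v i := by
    intro R _ _ v c i
    rw [Finset.sum_eq_single i]
    · rw [if_pos rfl, mul_one]
    · intro t _ ht
      rw [if_neg ht, mul_zero, map_zero, zero_mul]
    · intro h
      exact absurd (Finset.mem_univ i) h
  have hlin : ∀ {R : Type} [Field R] [Algebra k R] (c : Fin (N + 1) → k) (v : Fin (N + 1) → R),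
      val v (∑ i, MvPolynomial.C (c i) * MvPolynomial.X i) = lin c v := by
    intro R _ _ c v
    unfold val lin
    rw [map_sum]
    refine Finset.sum_congr rfl fun i _ => ?_
    rw [map_mul, aeval_C, aeval_X]
  have hform : ∀ c : Fin (N + 1) → k,
      IsForm (∑ i, MvPolynomial.C (c i) * MvPolynomial.X i) := by
    intro c
    refine ⟨1, MvPolynomial.IsHomogeneous.sum _ _ _ fun i _ => ?_⟩
    have h1 := (MvPolynomial.isHomogeneous_C (Fin (N + 1)) (c i)).mul
      (MvPolynomial.isHomogeneous_X k i)
    rwa [zero_add] at h1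
  rcases h with ⟨x, hx0, hx⟩ | ⟨x, x', hli, hx⟩
  · obtain ⟨j, hj⟩ := Function.ne_iff.1 hx0
    have hj' : x j ≠ 0 := hj
    have h1 : ∀ i, x j * v i = x i * v j := by
      intro i
      have h2 : ∀ {R : Type} [Field R] [Algebra k R] (v : Fin (N + 1) → R),
          lin (fun t => x j * (if t = i then 1 else 0) - x i * (if t = j then 1 else 0)) v =
            algebraMap k R (x j) * v i - algebraMap k R (x i) * v j := by
        intro R _ _ v
        unfold lin
        simp only [map_sub, sub_mul, Finset.sum_sub_distrib]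
        rw [hsum, hsum]
      have h3 := hv (fun t => x j * (if t = i then 1 else 0) - x i * (if t = j then 1 else 0))
        (by
        rw [← hlin]
        refine (hx _ (hform _)).2 ?_
        rw [hlin, h2]
        simp only [Algebra.algebraMap_self, RingHom.id_apply]
        ring)
      rw [h2] at h3
      simp only [Algebra.algebraMap_self, RingHom.id_apply] at h3
      exact sub_eq_zero.1 h3
    have h2 : v = fun i => (v j / x j) * x i := by
      funext i
      have := h1 i
      field_simp
      linear_combination this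
    obtain ⟨d, hd'⟩ := id hG
    have h3 := (hx G hG).1 hG0
    rw [h2]
    have h4 : val (fun i => (v j / x j) * x i) G = (v j / x j) ^ d * val x G := val_smul hd' _ _
    rw [h4, h3, mul_zero]
  · have hli' := LinearIndependent.pair_iff.1 hli
    obtain ⟨i, j, hij⟩ : ∃ i j, x i * x' j - x j * x' i ≠ 0 := by
      by_contra hcon
      push Not at hcon
      by_cases hx0 : x = 0
      · exact one_ne_zero (hli' 1 0 (by rw [hx0]; simp)).1
      · obtain ⟨j, hj⟩ := Function.ne_iff.1 hx0
        refine hj (neg_eq_zero.1 (hli' (x' j) (-(x j)) ?_).2)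
        funext i
        simp only [Pi.add_apply, Pi.smul_apply, smul_eq_mul, Pi.zero_apply]
        linear_combination hcon i j
    set δ : k := x i * x' j - x j * x' i with hδ
    have h1 : ∀ l, δ * v l = (x l * x' j - x j * x' l) * v i + (x i * x' l - x l * x' i) * v j := by
      intro l
      have h2 : ∀ {R : Type} [Field R] [Algebra k R] (v : Fin (N + 1) → R),
          lin (fun t => δ * (if t = l then 1 else 0) - ((x l * x' j - x j * x' l) *
            (if t = i then 1 else 0) + (x i * x' l - x l * x' i) * (if t = j then 1 else 0))) v =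
            algebraMap k R δ * v l - (algebraMap k R (x l * x' j - x j * x' l) * v i +
              algebraMap k R (x i * x' l - x l * x' i) * v j) := by
        intro R _ _ v
        unfold lin
        simp only [map_sub, map_add, sub_mul, add_mul, Finset.sum_sub_distrib,
          Finset.sum_add_distrib]
        simp only [hsum]
      have h3 := hv (fun t => δ * (if t = l then 1 else 0) - ((x l * x' j - x j * x' l) *
            (if t = i then 1 else 0) + (x i * x' l - x l * x' i) * (if t = j then 1 else 0))) (by
        rw [← hlin]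
        refine (hx _ (hform _)).2 fun c c' => ?_
        rw [hlin, h2]
        simp only [Algebra.algebraMap_self, RingHom.id_apply, Pi.add_apply, Pi.smul_apply,
          smul_eq_mul, hδ]
        ring)
      rw [h2] at h3
      simp only [Algebra.algebraMap_self, RingHom.id_apply] at h3
      exact sub_eq_zero.1 h3
    have h2 : v = ((v i * x' j - v j * x' i) / δ) • x + ((x i * v j - x j * v i) / δ) • x' := by
      funext l
      simp only [Pi.add_apply, Pi.smul_apply, smul_eq_mul]
      have h3 := h1 l
      have h4 : v l = ((x l * x' j - x j * x' l) * v i + (x i * x' l - x l * x' i) * v j) / δ := by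
        rw [eq_div_iff hij, ← h3, mul_comm]
      rw [h4]
      ring
    have h3 := (hx G hG).1 hG0
    rw [h2]
    exact h3 _ _

/-- the coordinates in `U` -/
noncomputable def QU (U : Set (Fin (N + 1))) : U → MvPolynomial (Fin (N + 1)) ℂ :=
  fun j => MvPolynomial.X (j : Fin (N + 1))

theorem lin_single {R : Type} [Field R] [Algebra ℂ R] (i : Fin (N + 1)) (v : Fin (N + 1) → R) :
    lin (Pi.single i (1 : ℂ)) v = v i := by
  classical
  unfold lin
  rw [Finset.sum_eq_single i]
  · simp
  · intro j _ hj
    simp [hj]
  · intro h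
    exact absurd (Finset.mem_univ _) h

/-- coordinates on lines -/
theorem indep_pair (hm : 2 ≤ m) (hnm : n < 2 * m) (hN : 4 * n + (n + 1) ^ 2 < 2 * (N + 1))
    {a : Fin (N + 1) → ℂ} (ha : Function.Injective a) {K : Type} [Field K]
    [Algebra ℂ K] {y : Fin (N + 1) → K} (hy : SubVar (Pool.Agent.Y190.BV.buchi a n m) K w y)
    (h : IsLine ℂ y) {j1 j2 : Fin (N + 1)} (hj : j1 ≠ j2) (h1 : y j1 ≠ 0) (h2 : y j2 ≠ 0) :
    LinearIndependent ℂ ![y j1, y j2] := by
  classical
  obtain ⟨s, hs, htop⟩ := h.rat hy.gen
  have h3 := dim_of_rat hs htop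
  rw [hy.dim] at h3
  obtain rfl : w = 1 := by exact_mod_cast h3
  have hs' : Transcendental (⊥ : IntermediateField ℂ K) s := by
    intro halg
    apply hs
    have h5 : Algebra.IsAlgebraic ℂ (⊥ : IntermediateField ℂ K) := inferInstance
    exact halg.restrictScalars ℂ
  have hgt : ¬ GeneralType ℂ K 1 := Pool.Agent.Y190.BV.not_gt_ruled hs'
    (Pool.Agent.Y190.QP.adjoin_mono_top' htop) 1
  obtain ⟨hmn, t, z, hyz, -, -, htr, -⟩ := Pool.Agent.Y190.BV.structure_thm hm hnm hN ha hy hgt
  have hz1 : z j1 ≠ 0 := fun h0 => h1 (by rw [hyz, h0, mul_zero])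
  have hz2 : z j2 ≠ 0 := fun h0 => h2 (by rw [hyz, h0, mul_zero])
  let ρ : coords ℂ z := ⟨z j2 / z j1, IntermediateField.subset_adjoin ℂ _ ⟨j2, j1, hz1, rfl⟩⟩
  have hρ : (ρ : K) = z j2 / z j1 := rfl
  rw [LinearIndependent.pair_iff]
  intro u v huv
  rw [Algebra.smul_def, Algebra.smul_def, hyz j1, hyz j2] at huv
  -- a linear polynomial with root `t`
  let C0 : coords ℂ z := algebraMap ℂ _ (u * a j1) + algebraMap ℂ _ (v * a j2) * ρ
  let C1 : coords ℂ z := algebraMap ℂ _ u + algebraMap ℂ _ v * ρ
  have hC0 : (C0 : K) = algebraMap ℂ K (u * a j1) + algebraMap ℂ K (v * a j2) * (z j2 / z j1) := rfl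
  have hC1 : (C1 : K) = algebraMap ℂ K u + algebraMap ℂ K v * (z j2 / z j1) := rfl
  have hroot : (C0 : K) - t * (C1 : K) = 0 := by
    rw [hC0, hC1]
    simp only [map_mul]
    field_simp
    linear_combination huv
  have hP : Polynomial.aeval t (Polynomial.C C0 - Polynomial.X * Polynomial.C C1) = 0 := by
    rw [map_sub, map_mul, Polynomial.aeval_C, Polynomial.aeval_C, Polynomial.aeval_X]
    exact hroot
  have hP0 : Polynomial.C C0 - Polynomial.X * Polynomial.C C1 = 0 := by
    by_contra hne
    exact htr ⟨_, hne, hP⟩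
  have e0 : C0 = 0 := by
    have h4 := congrArg (fun p => Polynomial.coeff p 0) hP0
    simpa using h4
  have e1 : C1 = 0 := by
    have h4 := congrArg (fun p => Polynomial.coeff p 1) hP0
    simpa [Polynomial.coeff_C] using h4
  have e0' : algebraMap ℂ K (u * a j1) + algebraMap ℂ K (v * a j2) * (z j2 / z j1) = 0 := by
    rw [← hC0, e0]
    rfl
  have e1' : algebraMap ℂ K u + algebraMap ℂ K v * (z j2 / z j1) = 0 := by
    rw [← hC1, e1]
    rfl
  have hρ0 : z j2 / z j1 ≠ 0 := div_ne_zero hz2 hz1
  have hv : algebraMap ℂ K (v * (a j2 - a j1)) * (z j2 / z j1) = 0 := by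
    simp only [map_mul, map_sub] at e0' ⊢
    linear_combination e0' - algebraMap ℂ K (a j1) * e1'
  have hv0 : v = 0 := by
    have h4 := (mul_eq_zero.1 hv).resolve_right hρ0
    rw [map_eq_zero] at h4
    exact (mul_eq_zero.1 h4).resolve_right (sub_ne_zero.2 fun h => hj (ha h.symm))
  refine ⟨?_, hv0⟩
  rw [hv0, map_zero, zero_mul, add_zero, map_eq_zero] at e1'
  exact e1'

/-- **Fundamental groups.** -/
theorem pi1_comm' (hm : 2 ≤ m) (hnm : n < 2 * m) (hN : 4 * n + (n + 1) ^ 2 < 2 * (N + 1))
    {a : Fin (N + 1) → ℂ} (ha : Function.Injective a) {U : Set (Fin (N + 1))} {K : Type} [Field K]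
    [Algebra ℂ K] {y : Fin (N + 1) → K} (hy : SubVar (Pool.Agent.Y190.BV.buchi a n m) K w y)
    (hyU : ∀ j ∈ U, y j ≠ 0) (h : IsPoint ℂ y ∨ (U.ncard ≤ 2 ∧ IsLine ℂ y))
    (p : XPts (QU U) y) (g g' : FundamentalGroup (XPts (QU U) y) p) : g * g' = g' * g := by
  classical
  rcases h with hP | ⟨hU, hL⟩
  · -- a point
    have hsub : Subsingleton (XPts (QU U) y) := by
      obtain ⟨x, hx0, hx⟩ := hP
      obtain ⟨j, hj⟩ := Function.ne_iff.1 hx0
      have hj' : x j ≠ 0 := hj
      have hpt : ∀ v ∈ VarPts ℂ y, v = (v j / x j) • x := by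
        intro v hv
        refine prop_of_rel hj' fun i => hv.2 _ (relXY_form x i j) ?_
        refine (hx _ (relXY_form x i j)).2 ?_
        rw [val_relXY]
        simp only [Algebra.algebraMap_self, RingHom.id_apply]
        ring
      refine ⟨fun p q => Subtype.ext ?_⟩
      obtain ⟨u, hu, huV, -⟩ := p.2
      obtain ⟨v, hv, hvV, -⟩ := q.2
      rw [← hu, ← hv, mk_eq]
      have h1 := hpt u.1 huV
      have h2 := hpt v.1 hvV
      have hvj : v.1 j ≠ 0 := by
        intro h0
        apply v.2
        rw [h2, h0, zero_div, zero_smul]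
      have huj : u.1 j ≠ 0 := by
        intro h0
        apply u.2
        rw [h1, h0, zero_div, zero_smul]
      refine ⟨u.1 j / v.1 j, div_ne_zero huj hvj, ?_⟩
      conv_lhs => rw [h1]
      rw [h2, smul_smul]
      congr 1
      rw [Pi.smul_apply, smul_eq_mul]
      field_simp
    refine group_comm p (fun f g => ?_) g g'
    have h1 : f.trans g = g.trans f := by
      ext t
      exact congrArg Subtype.val (Subsingleton.elim _ _)
    rw [h1]
  · have hhull := hull_var (Or.inr hL)
    have hdeg : ∀ j : U, (QU U j).totalDegree = 1 := fun j => MvPolynomial.totalDegree_X _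
    have hpos : ∀ j : U, 0 < (QU U j).totalDegree := fun j => by rw [hdeg]; exact one_pos
    have hval : ∀ (j : U) (v : Fin (N + 1) → ℂ), val v (QU U j) = v j := by
      intro j v
      unfold val QU
      rw [MvPolynomial.aeval_X]
    have hfin : U.Finite := Set.toFinite U
    rcases Nat.lt_or_ge 0 U.ncard with hU0 | hU0
    · rcases Nat.lt_or_ge 1 U.ncard with hU1 | hU1
      · -- two hyperplanes
        obtain ⟨j1, j2, hj, rfl⟩ := Set.ncard_eq_two.1 (show U.ncard = 2 by omega)
        have hne : Nonempty ({j1, j2} : Set (Fin (N + 1))) := ⟨⟨j1, by simp⟩⟩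
        refine pi1_comm hpos ⟨hhull, 2, ![Pi.single j1 1, Pi.single j2 1],
          fun j => if (j : Fin (N + 1)) = j1 then 0 else 1, fun _ => 1, ?_, ?_,
          fun _ => one_ne_zero, ?_⟩ p g g'
        · have h1 := indep_pair hm hnm hN ha hy hL hj (hyU j1 (by simp)) (hyU j2 (by simp))
          have h2 : (fun b : Fin 2 => lin ((![Pi.single j1 (1 : ℂ), Pi.single j2 (1 : ℂ)] :
              Fin 2 → Fin (N + 1) → ℂ) b) y) = ![y j1, y j2] := by
            funext b
            fin_cases b
            · exact lin_single j1 y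
            · exact lin_single j2 y
          rw [h2]
          exact h1
        · intro b
          fin_cases b
          · exact ⟨⟨j1, by simp⟩, by simp⟩
          · exact ⟨⟨j2, by simp⟩, by simp [hj.symm]⟩
        · rintro ⟨j, hj'⟩ x -
          rw [hval, hdeg, pow_one, one_mul]
          rcases hj' with rfl | hj'
          · simp only
            exact (lin_single _ x).symm
          · have h2 : j = j2 := hj'
            subst h2
            simp only [if_neg hj.symm]
            exact (lin_single _ x).symm
      · -- one hyperplane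
        obtain ⟨j1, rfl⟩ := Set.ncard_eq_one.1 (show U.ncard = 1 by omega)
        have hne : Nonempty ({j1} : Set (Fin (N + 1))) := ⟨⟨j1, by simp⟩⟩
        refine pi1_comm hpos ⟨hhull, 1, fun _ => Pi.single j1 1,
          fun _ => 0, fun _ => 1, ?_, ?_, fun _ => one_ne_zero, ?_⟩ p g g'
        · have h1 : (fun b : Fin 1 => lin (Pi.single j1 (1 : ℂ)) y) = fun _ => y j1 := by
            funext b
            exact lin_single j1 y
          rw [h1]
          exact LinearIndependent.of_subsingleton 0 (hyU j1 (by simp))
        · intro b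
          exact ⟨⟨j1, by simp⟩, Subsingleton.elim _ _⟩
        · rintro ⟨j, hj'⟩ x -
          rw [hval, hdeg, pow_one, one_mul]
          have h2 : j = j1 := hj'
          subst h2
          exact (lin_single _ x).symm
    · -- no hyperplane
      have hU' : U = ∅ := (Set.ncard_eq_zero hfin).1 (by omega)
      subst hU'
      have hE : IsEmpty (∅ : Set (Fin (N + 1))) := Set.isEmpty_coe_sort.2 rfl
      obtain ⟨r, q, m', v, e, a', c, hp⟩ := pair_of_compl hpos ⟨hhull, 0, fun i => i.elim0,
        fun j => hE.elim j, fun j => hE.elim j, linearIndependent_empty_type,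
        fun b => b.elim0, fun j => hE.elim j, fun j => hE.elim j⟩
      have hsc := hp.simply hy.ne
      have h1 : Subsingleton (FundamentalGroup (XPts (QU (∅ : Set (Fin (N + 1)))) y) p) := by
        infer_instance
      exact Subsingleton.elim _ _

end Pool.Agent.Y216.SV
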