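import Pool.Agent.Y216.SV.Hul3

/-!
Rationally connected subvarieties of the power value varieties, polynomials of any degree.
-/

set_option autoImplicit false

open FF Pool.Agent.W603.LV Pool.Agent.W602.GT Pool.Agent.Y190.BV Pool.Agent.Y190.QP
  Pool.Agent.Y190.SN Pool.Agent.TH710.WH Pool.Agent.TH710.SP Pool.Agent.W603.GX Polynomial

namespace Pool.Agent.Y216.SV

variable {k : Type} [Field k] {N n m w : ℕ} {K : Type} [Field K] [Algebra k K]

/-- multisets of constants -/
theorem exists_multiset {M : Type} [Field M] [Algebra k M] (s : Multiset M) {t : Multiset k}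
    (h : s ≤ t.map (algebraMap k M)) : ∃ u : Multiset k, u.map (algebraMap k M) = s := by
  classical
  have h1 : ∀ x ∈ s, ∃ y : k, algebraMap k M y = x := by
    intro x hx
    obtain ⟨y, -, hy⟩ := Multiset.mem_map.1 (Multiset.mem_of_le h hx)
    exact ⟨y, hy⟩
  clear h
  induction s using Multiset.induction_on with
  | empty => exact ⟨0, rfl⟩
  | cons x s ih =>
    obtain ⟨u, hu⟩ := ih fun x hx => h1 x (Multiset.mem_cons_of_mem hx)
    obtain ⟨y, hy⟩ := h1 x (Multiset.mem_cons_self x s)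
    exact ⟨y ::ₘ u, by rw [Multiset.map_cons, hu, hy]⟩

/-- factors of constant polynomials -/
theorem exists_const_factor [IsAlgClosed k] {M : Type} [Field M] [Algebra k M] [IsAlgClosed M]
    {P : k[X]} (hP : P ≠ 0) {D : M[X]} (hD : D ∣ P.map (algebraMap k M)) :
    ∃ (g : k[X]) (u : M), u ≠ 0 ∧ g ≠ 0 ∧ g.natDegree = D.natDegree ∧
      D = C u * g.map (algebraMap k M) := by
  classical
  have hP' : P.map (algebraMap k M) ≠ 0 := Polynomial.map_ne_zero hP
  have hD0 : D ≠ 0 := by
    rintro rfl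
    exact hP' (zero_dvd_iff.1 hD)
  have h1 : D.roots ≤ P.roots.map (algebraMap k M) := by
    rw [← (IsAlgClosed.splits P).roots_map]
    exact Polynomial.roots.le_of_dvd hP' hD
  obtain ⟨u, hu⟩ := exists_multiset _ h1
  have h2 := (IsAlgClosed.splits D).eq_prod_roots
  refine ⟨(u.map fun r => X - C r).prod, D.leadingCoeff, leadingCoeff_ne_zero.2 hD0,
    (monic_multiset_prod_of_monic _ _ fun r _ => monic_X_sub_C r).ne_zero, ?_, ?_⟩
  · rw [natDegree_multiset_prod_X_sub_C_eq_card, ← Multiset.card_map (algebraMap k M), hu]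
    exact (IsAlgClosed.splits D).natDegree_eq_card_roots.symm
  · conv_lhs => rw [h2]
    rw [← hu, Polynomial.map_multiset_prod, Multiset.map_map, Multiset.map_map]
    congr 3
    funext r
    simp

/-- the roots of a constant -/
theorem const_of_pow [IsAlgClosed k] {M : Type} [Field M] [Algebra k M] {x : M} (hm : 0 < m)
    {c : k} (hx : x ^ m = algebraMap k M c) : ∃ ζ : k, algebraMap k M ζ = x := by
  have h4 : IsAlgebraic k x := by
    apply IsAlgebraic.of_pow hm
    rw [hx]
    exact isAlgebraic_algebraMap _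
  have h5 : Algebra.IsAlgebraic k (IntermediateField.adjoin k {x}) :=
    IntermediateField.isAlgebraic_adjoin_simple h4.isIntegral
  have h6 : Algebra.IsIntegral k (IntermediateField.adjoin k {x}) :=
    Algebra.isAlgebraic_iff_isIntegral.1 h5
  obtain ⟨ζ', hζ'⟩ := (IsAlgClosed.algebraMap_bijective_of_isIntegral (k := k)
    (K := IntermediateField.adjoin k {x})).2 ⟨x, IntermediateField.mem_adjoin_simple_self k x⟩
  exact ⟨ζ', congrArg (fun x : IntermediateField.adjoin k {x} => (x : M)) hζ'⟩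

/-- **Linear subspaces through a constant point.** -/
theorem const_str [IsAlgClosed k] (hm : 2 ≤ m) (hn : n ≤ N) {a : Fin (N + 1) → k}
    (ha : Function.Injective a) {v : Fin (N + 1) → k} (hv0 : v ≠ 0)
    (hv : ∀ l : Rel a n, val v (buchi a n m l) = 0) {M : Type} [Field M] [Algebra k M]
    [IsAlgClosed M] {p G0 : M[X]} {ζ : Fin (N + 1) → M} {r : ℕ} (hp : p.natDegree ≤ r)
    (hdeg : r * m + G0.natDegree ≤ n)
    (hζ : ∀ i, ζ i ^ m = G0.eval (algebraMap k M (a i)))
    (hvp : ∀ i, algebraMap k M (v i) = p.eval (algebraMap k M (a i)) * ζ i) :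
    ∃ (g : k[X]) (ζ' : Fin (N + 1) → k) (ρ : M), ρ ≠ 0 ∧ g ≠ 0 ∧ r * m + g.natDegree ≤ n ∧
      (∀ i, ζ' i ^ m = g.eval (a i)) ∧ ∀ i, ζ i = ρ * algebraMap k M (ζ' i) := by
  classical
  set P : k[X] := intp a hn (fun i => v i ^ m) with hP
  have hPv : ∀ i, v i ^ m = P.eval (a i) := fun i => (intp_eval (K := k) ha hn m hv i).symm
  have hPd : P.natDegree ≤ n := intp_natDegree ha hn _
  have hP0 : P ≠ 0 := by
    intro h0
    apply hv0
    funext i
    have h1 := hPv i
    rw [h0, eval_zero] at h1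
    exact eq_zero_of_pow_eq_zero h1
  have hmap : P.map (algebraMap k M) = p ^ m * G0 := by
    refine eq_of_nodes ha ?_ ?_ fun i => ?_
    · rw [natDegree_map]
      exact hPd.trans hn
    · refine natDegree_mul_le.trans ?_
      have h1 := natDegree_pow_le (p := p) (n := m)
      have h2 : m * p.natDegree ≤ r * m := by
        rw [mul_comm]
        exact Nat.mul_le_mul_right m hp
      omega
    · rw [eval_map_algebraMap, aeval_algebraMap_apply, coe_aeval_eq_eval, ← hPv, map_pow, hvp,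
        mul_pow, hζ, eval_mul, eval_pow]
  obtain ⟨g, u, hu, hg, hgd, hD⟩ := exists_const_factor hP0 (D := G0) (by
    rw [hmap]
    exact Dvd.intro_left _ rfl)
  obtain ⟨ρ, hρ⟩ := IsAlgClosed.exists_pow_nat_eq u (by omega : 0 < m)
  have hρ0 : ρ ≠ 0 := by
    rintro rfl
    rw [zero_pow (by omega)] at hρ
    exact hu hρ.symm
  have h1 : ∀ i, ∃ ζ' : k, algebraMap k M ζ' = ζ i / ρ := by
    intro i
    refine const_of_pow (m := m) (c := g.eval (a i)) (by omega) ?_
    rw [div_pow, hζ, hD, eval_mul, eval_C, hρ, mul_div_cancel_left₀ _ hu, eval_map_algebraMap,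
      aeval_algebraMap_apply, coe_aeval_eq_eval]
  choose ζ' hζ' using h1
  refine ⟨g, ζ', ρ, hρ0, hg, by rw [hgd]; exact hdeg, fun i => ?_, fun i => ?_⟩
  · apply (algebraMap k M).injective
    rw [map_pow, hζ', div_pow, hζ, hD, eval_mul, eval_C, hρ, mul_div_cancel_left₀ _ hu,
      eval_map_algebraMap, aeval_algebraMap_apply, coe_aeval_eq_eval]
  · rw [hζ', mul_div_cancel₀ _ hρ0]

/-- **Conclusion.** -/
theorem concl_of_str [Infinite k] {a : Fin (N + 1) → k} {y : Fin (N + 1) → K}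
    (hy : SubVar (buchi a n m) K w y) {L : Type} [Field L] [Algebra k L]
    {y' : Fin (N + 1) → L}
    (hG : ∀ G : MvPolynomial (Fin (N + 1)) k, IsForm G → (val y G = 0 ↔ val y' G = 0))
    {q : L[X]} {c : L} {G0 : k[X]} {ζ : Fin (N + 1) → k} (hq : q.Monic) (hc : c ≠ 0)
    (hdeg : q.natDegree * m + G0.natDegree ≤ n) (hζ : ∀ i, ζ i ^ m = G0.eval (a i))
    (hyz : ∀ i, y' i = c * q.eval (algebraMap k L (a i)) * algebraMap k L (ζ i)) :
    (∃ e, e * m ≤ n ∧ w ≤ e ∧ InLinearSpace k a n m e y) ∧ (n < (w + 1) * m → IsLinear k y) := by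
  classical
  obtain ⟨hy'0, htr⟩ := trdeg_image hy.ne hy.gen hy.dim hG
  have hVar : ∀ x, x ∈ VarPts k y ↔ x ∈ VarPts k y' := by
    intro x
    constructor
    · rintro ⟨h1, h2⟩
      exact ⟨h1, fun G hGf h0 => h2 G hGf ((hG G hGf).2 h0)⟩
    · rintro ⟨h1, h2⟩
      exact ⟨h1, fun G hGf h0 => h2 G hGf ((hG G hGf).1 h0)⟩
  have hdim := dim_of_str hq hc hyz htr
  refine ⟨⟨q.natDegree, by omega, hdim.1, ?_⟩, fun hnw => ?_⟩
  · obtain ⟨M, hM1, hM2, hM3⟩ := inLinear_of_str (n := n) (m := m) hc hdeg hζ hyz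
    exact ⟨M, hM1, hM2, fun x hx => hM3 x ((hVar x).1 hx)⟩
  · have hqw : q.natDegree ≤ w := by
      by_contra hcon
      have h1 : (w + 1) * m ≤ q.natDegree * m := Nat.mul_le_mul_right m (by omega)
      omega
    have h1 := linear_of_str hq hc hyz htr hqw
    intro x hx x' hx' c1 c2 hne
    exact (hVar _).2 (h1 x ((hVar x).1 hx) x' ((hVar x').1 hx') c1 c2 hne)

end Pool.Agent.Y216.SV
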