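import Pool.Agent.Y216.SV.Rc2
import Mathlib.FieldTheory.IsAlgClosed.AlgebraicClosure

/-!
Rationally connected subvarieties of the power value varieties, polynomials of any degree.
-/

set_option autoImplicit false

open FF Pool.Agent.W603.LV Pool.Agent.W602.GT Pool.Agent.Y190.BV Pool.Agent.Y190.QP
  Pool.Agent.Y190.SN Pool.Agent.TH710.WH Pool.Agent.TH710.SP Pool.Agent.W603.GX Polynomial

namespace Pool.Agent.Y216.SV

variable {k : Type} [Field k] {N n m w : ℕ} {K : Type} [Field K] [Algebra k K]

/-- the field of rational functions of one variable is special -/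
theorem special_ratFunc (Ω : Type) [Field Ω] [IsAlgClosed Ω] [CharZero Ω] :
    Algebra.trdeg Ω (RatFunc Ω) = (1 : ℕ) ∧ Special Ω (RatFunc Ω) 1 (fun _ => False) := by
  have hdim : Algebra.trdeg Ω (RatFunc Ω) = (1 : ℕ) :=
    dim_of_rat RatFunc.transcendental_X RatFunc.adjoin_X
  have hpt : PurelyTranscendental Ω (RatFunc Ω) := by
    refine ⟨Unit, inferInstance, fun _ => RatFunc.X, ?_, ?_⟩
    · rw [algebraicIndependent_unique_type_iff]
      exact RatFunc.transcendental_X
    · rw [Set.range_const]
      exact RatFunc.adjoin_X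
  exact ⟨hdim, special_of_rational hdim hpt⟩

/-- **Polynomial curves.** The values of a polynomial curve in the power value variety are in one
linear space. -/
theorem curve_str (hm : 2 ≤ m) (hN : 4 * n + (n + 1) ^ 2 < 2 * (N + 1)) {a : Fin (N + 1) → k}
    (ha : Function.Injective a) {Ω : Type} [Field Ω] [Algebra k Ω] [IsAlgClosed Ω] [CharZero Ω]
    {f : Fin (N + 1) → (Polynomial Ω)} (hf0 : f ≠ 0)
    (hf : ∀ l : Rel a n, MvPolynomial.aeval f (buchi a n m l) = 0) :
    ∃ (r : ℕ) (G0 : (Polynomial Ω)) (ζ : Fin (N + 1) → Ω), r * m + G0.natDegree ≤ n ∧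
      (∀ i, ζ i ^ m = G0.eval (algebraMap k Ω (a i))) ∧
      ∀ x : Fin (N + 1) → Ω, (∀ l : Fin (N + 1) → Ω,
        MvPolynomial.aeval f (lf l : MvPolynomial (Fin (N + 1)) Ω) = 0 → lin l x = 0) →
        ∃ p : (Polynomial Ω), p.natDegree ≤ r ∧ ∀ i, x i = p.eval (algebraMap k Ω (a i)) * ζ i := by
  classical
  have hn : n ≤ N := by nlinarith
  have hinj : Function.Injective (algebraMap (Polynomial Ω) (RatFunc Ω)) := RatFunc.algebraMap_injective Ω
  let b : Fin (N + 1) → RatFunc Ω := fun i => algebraMap (Polynomial Ω) (RatFunc Ω) (f i)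
  have hvalb : ∀ G : MvPolynomial (Fin (N + 1)) k, val b G =
      algebraMap (Polynomial Ω) (RatFunc Ω) (MvPolynomial.aeval f G) := by
    intro G
    exact MvPolynomial.aeval_algebraMap_apply (R := k) (A := (Polynomial Ω)) (B := RatFunc Ω) f G
  have hvalb' : ∀ G : MvPolynomial (Fin (N + 1)) Ω, val b G =
      algebraMap (Polynomial Ω) (RatFunc Ω) (MvPolynomial.aeval f G) := by
    intro G
    exact MvPolynomial.aeval_algebraMap_apply (R := Ω) (A := (Polynomial Ω)) (B := RatFunc Ω) f G
  have hb0 : b ≠ 0 := by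
    intro h0
    apply hf0
    funext i
    apply hinj
    rw [Pi.zero_apply, map_zero]
    exact congrFun h0 i
  have hbk : ∀ l : Rel a n, val b (buchi a n m l) = 0 := by
    intro l
    rw [hvalb, hf l, map_zero]
  let a' : Fin (N + 1) → Ω := fun i => algebraMap k Ω (a i)
  have ha' : Function.Injective a' := (algebraMap k Ω).injective.comp ha
  have hbΩ : ∀ l : Rel a' n, val b (buchi a' n m l) = 0 := by
    refine mem_of_poly a' n m b (intp a hn fun i => b i ^ m) (intp_natDegree ha hn _) fun i => ?_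
    have h1 := intp_eval ha hn m hbk i
    have h2 : algebraMap Ω (RatFunc Ω) (a' i) = algebraMap k (RatFunc Ω) (a i) :=
      (IsScalarTower.algebraMap_apply k Ω (RatFunc Ω) (a i)).symm
    rw [h2]
    exact h1
  obtain ⟨hd, hs⟩ := special_ratFunc Ω
  obtain ⟨q, c, G0, ζ, hq, hc, hG0, hdeg, hζ, hb⟩ := hull_of_special hm hN ha' hd hs hb0 hbΩ
  refine ⟨q.natDegree, G0, ζ, hdeg, hζ, fun x hx => ?_⟩
  obtain ⟨p, hp, hxp⟩ := mem_pspan (pspan_sub hc hb (x := x) fun l hl => hx l (by
    apply hinj
    rw [map_zero, ← hvalb', val_lf, hl]))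
  exact ⟨p, hp, hxp⟩

/-- **Two points of a rationally connected subvariety.** -/
theorem line_of_rc [IsAlgClosed k] [CharZero k] (hm : 2 ≤ m)
    (hN : 4 * n + (n + 1) ^ 2 < 2 * (N + 1)) {a : Fin (N + 1) → k}
    (ha : Function.Injective a) {y : Fin (N + 1) → K} (hy : SubVar (buchi a n m) K w y)
    (hc : RationallyConnected k y) {z z' : Fin (N + 1) → k} (hz : z ∈ VarPts k y)
    (hz' : z' ∈ VarPts k y) (s : k) (l : Rel a n) : val (z + s • z') (buchi a n m l) = 0 := by
  classical
  obtain ⟨Ω, _, _, f, hΩ, hf, hgp⟩ := hc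
  have hch : CharZero Ω := charZero_of_injective_algebraMap (algebraMap k Ω).injective
  have hf0 : f ≠ 0 := by
    intro h0
    obtain ⟨i, hi⟩ := Function.ne_iff.1 hz.1
    have hi' : z i ≠ 0 := hi
    have h1 := hgp (MvPolynomial.X (Sum.inl i)) (by
      rw [MvPolynomial.aeval_X, Sum.elim_inl, h0, Pi.zero_apply, Polynomial.eval_zero]) z hz z hz
    rw [MvPolynomial.aeval_X, Sum.elim_inl] at h1
    exact hi' h1
  obtain ⟨r, G0, ζ, hdeg, hζ, hx⟩ := curve_str hm hN ha hf0
    fun l => hf _ (isForm_buchi a n m l) (hy.mem l)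
  have hhull : ∀ t : Ω, ∃ p : (Polynomial Ω), p.natDegree ≤ r ∧
      ∀ i, (f i).eval t = p.eval (algebraMap k Ω (a i)) * ζ i := by
    intro t
    refine hx (fun i => (f i).eval t) fun l hl => ?_
    have h2 := congrArg (Polynomial.eval t) hl
    rw [Polynomial.eval_zero] at h2
    have h3 : (Polynomial.aeval t : Polynomial Ω →ₐ[Ω] Ω).comp (MvPolynomial.aeval f) =
        MvPolynomial.aeval (fun i => (f i).eval t) := by
      apply MvPolynomial.algHom_ext
      intro i
      simp only [AlgHom.comp_apply, MvPolynomial.aeval_X, Polynomial.coe_aeval_eq_eval]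
    rw [← val_lf]
    unfold W602.GT.val
    rw [← h3, AlgHom.comp_apply, Polynomial.coe_aeval_eq_eval]
    exact h2
  obtain ⟨p0, hp0, hf0'⟩ := hhull 0
  obtain ⟨p1, hp1, hf1'⟩ := hhull 1
  have h1 : val (fun i => (f i).eval 0 + algebraMap k Ω s * (f i).eval 1) (buchi a n m l) = 0 := by
    refine mem_of_poly a n m _ ((p0 + C (algebraMap k Ω s) * p1) ^ m * G0) ?_ (fun i => ?_) l
    · refine natDegree_mul_le.trans ?_
      have h1 := natDegree_pow_le (p := p0 + C (algebraMap k Ω s) * p1) (n := m)
      have h3 : (p0 + C (algebraMap k Ω s) * p1).natDegree ≤ r :=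
        (natDegree_add_le _ _).trans (max_le hp0 ((natDegree_C_mul_le _ _).trans hp1))
      have h2 : m * (p0 + C (algebraMap k Ω s) * p1).natDegree ≤ r * m := by
        rw [mul_comm]
        exact Nat.mul_le_mul_right m h3
      omega
    · rw [hf0', hf1', eval_mul, eval_pow, eval_add, eval_mul, eval_C, ← hζ, ← mul_pow]
      congr 1
      ring
  have h2 := hgp (MvPolynomial.aeval (fun i => MvPolynomial.X (Sum.inl i) +
      MvPolynomial.C s * MvPolynomial.X (Sum.inr i) :
    Fin (N + 1) → MvPolynomial (Fin (N + 1) ⊕ Fin (N + 1)) k) (buchi a n m l)) (by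
    refine Eq.trans ?_ h1
    unfold W602.GT.val
    rw [← AlgHom.comp_apply, MvPolynomial.comp_aeval]
    congr 2
    funext i
    simp only [map_add, map_mul, MvPolynomial.aeval_C, MvPolynomial.aeval_X, Sum.elim_inl,
      Sum.elim_inr]) z hz z' hz'
  rw [← AlgHom.comp_apply, MvPolynomial.comp_aeval] at h2
  unfold W602.GT.val
  rw [← h2]
  congr 2
  funext i
  simp only [map_add, map_mul, MvPolynomial.aeval_C, MvPolynomial.aeval_X, Sum.elim_inl,
    Sum.elim_inr, Pi.add_apply, Pi.smul_apply, smul_eq_mul, Algebra.algebraMap_self,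
    RingHom.id_apply]

/-- **Varieties in which the lines joining two points are in the power value variety.** -/
theorem inLinear_of_lines [IsAlgClosed k] [CharZero k] (hm : 2 ≤ m)
    (hN : 4 * n + (n + 1) ^ 2 < 2 * (N + 1)) {a : Fin (N + 1) → k}
    (ha : Function.Injective a) {y : Fin (N + 1) → K} (hy : SubVar (buchi a n m) K w y)
    (hl : ∀ z ∈ VarPts k y, ∀ z' ∈ VarPts k y, ∀ (s : k) (l : Rel a n),
      val (z + s • z') (buchi a n m l) = 0) :
    (∃ e, e * m ≤ n ∧ w ≤ e ∧ InLinearSpace k a n m e y) ∧ (n < (w + 1) * m → IsLinear k y) := by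
  classical
  have hinf : Infinite k := inferInstance
  have hn : n ≤ N := by nlinarith
  obtain ⟨j0, hj0⟩ := Function.ne_iff.1 hy.ne
  have hj0' : y j0 ≠ 0 := hj0
  -- points
  have hpt : ∀ H : MvPolynomial (Fin (N + 1)) k, MvPolynomial.aeval y H ≠ 0 →
      ∃ z ∈ VarPts k y, MvPolynomial.aeval z H ≠ 0 := by
    intro H hH
    obtain ⟨z0, hz1, hz2⟩ := specialise y (H * MvPolynomial.X j0) (by
      rw [map_mul, MvPolynomial.aeval_X]
      exact mul_ne_zero hH hj0')
    rw [map_mul, MvPolynomial.aeval_X] at hz1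
    refine ⟨z0, ⟨fun h => ?_, fun G _ hG => hz2 G hG⟩, left_ne_zero_of_mul hz1⟩
    exact right_ne_zero_of_mul hz1 (by rw [h]; rfl)
  obtain ⟨v, hv, -⟩ := hpt 1 (by rw [map_one]; exact one_ne_zero)
  let M := AlgebraicClosure K
  have hch : CharZero M := charZero_of_injective_algebraMap (algebraMap k M).injective
  -- the line through the generic point and `v`
  have hgen : ∀ (s : k) (l : Rel a n),
      val (fun i => y i + algebraMap k K (s * v i)) (buchi a n m l) = 0 := by
    intro s l
    by_contra hcon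
    let H : MvPolynomial (Fin (N + 1)) k := MvPolynomial.aeval (fun i => MvPolynomial.X i +
      MvPolynomial.C (s * v i) : Fin (N + 1) → MvPolynomial (Fin (N + 1)) k) (buchi a n m l)
    have hH : ∀ {E : Type} [Field E] [Algebra k E] (x : Fin (N + 1) → E),
        MvPolynomial.aeval x H = val (fun i => x i + algebraMap k E (s * v i))
          (buchi a n m l) := by
      intro E _ _ x
      unfold W602.GT.val
      simp only [H]
      rw [← AlgHom.comp_apply, MvPolynomial.comp_aeval]
      congr 2
      funext i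
      simp only [map_add, MvPolynomial.aeval_C, MvPolynomial.aeval_X]
    obtain ⟨z, hz, hzH⟩ := hpt H (by rw [hH]; exact hcon)
    apply hzH
    rw [hH]
    exact hl z hz v hv s l
  let f : Fin (N + 1) → M[X] := fun i => C (algebraMap K M (y i)) + X * C (algebraMap k M (v i))
  have hf0 : f ≠ 0 := by
    intro h0
    have h1 := congrArg (Polynomial.eval 0) (congrFun h0 j0)
    simp only [f, Pi.zero_apply, eval_add, eval_C, eval_mul, eval_X, zero_mul, add_zero,
      eval_zero] at h1
    exact hj0' ((algebraMap K M).injective (by rw [h1, map_zero]))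
  have hf : ∀ l : Rel a n, MvPolynomial.aeval f (buchi a n m l) = 0 := by
    intro l
    apply Polynomial.eq_zero_of_infinite_isRoot
    refine Set.Infinite.mono (s := Set.range (algebraMap k M)) ?_
      (Set.infinite_range_of_injective (algebraMap k M).injective)
    rintro _ ⟨s, rfl⟩
    change Polynomial.eval (algebraMap k M s) (MvPolynomial.aeval f (buchi a n m l)) = 0
    have h3 : ((Polynomial.aeval (algebraMap k M s) : M[X] →ₐ[M] M).restrictScalars k).comp
        (MvPolynomial.aeval f) = (IsScalarTower.toAlgHom k K M).comp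
          (MvPolynomial.aeval (fun i => y i + algebraMap k K (s * v i))) := by
      apply MvPolynomial.algHom_ext
      intro i
      simp only [f, AlgHom.comp_apply, MvPolynomial.aeval_X, AlgHom.restrictScalars_apply,
        Polynomial.coe_aeval_eq_eval, eval_add, eval_C, eval_mul, eval_X,
        IsScalarTower.coe_toAlgHom', map_add, map_mul, ← IsScalarTower.algebraMap_apply]
    have h4 := congrArg (fun φ => φ (buchi a n m l)) h3
    simp only [AlgHom.comp_apply, AlgHom.restrictScalars_apply,
      Polynomial.coe_aeval_eq_eval] at h4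
    rw [h4]
    have h5 := hgen s l
    unfold W602.GT.val at h5
    rw [h5, map_zero]
  obtain ⟨r, G0, ζ, hdeg, hζ, hx⟩ := curve_str hm hN ha hf0 hf
  -- linear forms vanishing on the line
  have hlin : ∀ l : Fin (N + 1) → M,
      MvPolynomial.aeval f (lf l : MvPolynomial (Fin (N + 1)) M) = 0 →
      lin l (fun i => algebraMap K M (y i)) = 0 ∧ lin l (fun i => algebraMap k M (v i)) = 0 := by
    intro l hl
    have h1 : ∀ t : M, lin l (fun i => algebraMap K M (y i)) +
        t * lin l (fun i => algebraMap k M (v i)) = 0 := by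
      intro t
      have h2 := congrArg (Polynomial.eval t) hl
      rw [Polynomial.eval_zero] at h2
      have h3 : (Polynomial.aeval t : M[X] →ₐ[M] M).comp (MvPolynomial.aeval f) =
          MvPolynomial.aeval (fun i => (f i).eval t) := by
        apply MvPolynomial.algHom_ext
        intro i
        simp only [AlgHom.comp_apply, MvPolynomial.aeval_X, Polynomial.coe_aeval_eq_eval]
      have h4 : val (fun i => (f i).eval t) (lf l : MvPolynomial (Fin (N + 1)) M) = 0 := by
        unfold W602.GT.val
        rw [← h3, AlgHom.comp_apply, Polynomial.coe_aeval_eq_eval]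
        exact h2
      rw [val_lf] at h4
      rw [← h4]
      unfold lin
      rw [Finset.mul_sum, ← Finset.sum_add_distrib]
      refine Finset.sum_congr rfl fun i _ => ?_
      simp only [f, eval_add, eval_C, eval_mul, eval_X]
      ring
    have h0 := h1 0
    rw [zero_mul, add_zero] at h0
    have h2 := h1 1
    rw [h0, one_mul, zero_add] at h2
    exact ⟨h0, h2⟩
  obtain ⟨p0, hp0, hyp⟩ := hx _ fun l hl => (hlin l hl).1
  obtain ⟨p1, hp1, hvp⟩ := hx _ fun l hl => (hlin l hl).2
  have hvW : ∀ l : Rel a n, val v (buchi a n m l) = 0 := fun l =>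
    hv.2 _ (isForm_buchi a n m l) (hy.mem l)
  obtain ⟨g, ζ', ρ, hρ, hg, hgd, hgζ, hζρ⟩ := const_str hm hn ha hv.1 hvW hp1 hdeg hζ hvp
  have hp00 : p0 ≠ 0 := by
    rintro rfl
    apply hj0'
    apply (algebraMap K M).injective
    rw [map_zero]
    have := hyp j0
    simpa using this
  have hlead : p0.leadingCoeff ≠ 0 := leadingCoeff_ne_zero.2 hp00
  refine concl_of_str (L := M) (y' := fun i => algebraMap K M (y i))
    (q := C (p0.leadingCoeff)⁻¹ * p0) (c := p0.leadingCoeff * ρ) (G0 := g) (ζ := ζ') hy ?_ ?_ ?_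
    ?_ hgζ ?_
  · intro G _
    unfold W602.GT.val
    have h1 : (MvPolynomial.aeval fun i => algebraMap K M (y i)) G =
        algebraMap K M (MvPolynomial.aeval y G) :=
      MvPolynomial.aeval_algebraMap_apply (R := k) (A := K) (B := M) y G
    rw [h1]
    exact (map_eq_zero_iff _ (algebraMap K M).injective).symm
  · rw [mul_comm]
    exact monic_mul_leadingCoeff_inv hp00
  · exact mul_ne_zero hlead hρ
  · rw [natDegree_C_mul (inv_ne_zero hlead)]
    have := Nat.mul_le_mul_right m hp0
    omega
  · intro i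
    rw [hyp i, hζρ i, eval_mul, eval_C]
    linear_combination (-(p0.eval (algebraMap k M (a i)) * ρ * algebraMap k M (ζ' i))) *
      mul_inv_cancel₀ hlead

/-- **Rationally connected subvarieties.** -/
theorem inLinear_of_rc [IsAlgClosed k] [CharZero k] (hm : 2 ≤ m)
    (hN : 4 * n + (n + 1) ^ 2 < 2 * (N + 1)) {a : Fin (N + 1) → k}
    (ha : Function.Injective a) {y : Fin (N + 1) → K} (hy : SubVar (buchi a n m) K w y)
    (hc : RationallyConnected k y) :
    (∃ e, e * m ≤ n ∧ w ≤ e ∧ InLinearSpace k a n m e y) ∧ (n < (w + 1) * m → IsLinear k y) :=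
  inLinear_of_lines hm hN ha hy fun _ hz _ hz' s l => line_of_rc hm hN ha hy hc hz hz' s l

end Pool.Agent.Y216.SV
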